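import Mathlib

set_option autoImplicit false

open Cardinal

namespace Pool.Agent.V11285.Pac

/-! ### Embedding countable extensions into the complex numbers -/

theorem exists_algHom (F K : Type) [Field F] [Field K] [Algebra F K] [Algebra F ℂ] [Countable F]
    [Countable K] : Nonempty (K →ₐ[F] ℂ) := by
  obtain ⟨s, hs⟩ := exists_isTranscendenceBasis F K
  obtain ⟨t, ht⟩ := exists_isTranscendenceBasis F ℂ
  have hF : #F ≤ ℵ₀ := Cardinal.mk_le_aleph0
  have hC : ℵ₀ < #ℂ := by
    rw [Cardinal.mk_complex]; exact Cardinal.aleph0_lt_continuum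
  have h1 := IsAlgClosed.cardinal_eq_cardinal_transcendence_basis_of_aleph0_lt _ ht hF hC
  rw [Cardinal.lift_id, Cardinal.lift_id] at h1
  have h2 : #s ≤ #t := by
    rw [← h1]
    exact (Cardinal.mk_le_aleph0 (α := s)).trans hC.le
  obtain ⟨j⟩ := h2
  let x : s → ℂ := fun i => (j i : ℂ)
  have hx : AlgebraicIndependent F x := ht.1.comp _ j.injective
  let φ : Algebra.adjoin F (Set.range (Subtype.val : s → K)) →ₐ[F] ℂ :=
    (MvPolynomial.aeval x).comp (hs.1.aevalEquiv.symm : _ →ₐ[F] _)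
  have hφ : Function.Injective φ := by
    intro a b hab
    have := hx (by simpa [φ] using hab)
    exact hs.1.aevalEquiv.symm.injective this
  let _ : Algebra (Algebra.adjoin F (Set.range (Subtype.val : s → K))) ℂ := φ.toRingHom.toAlgebra
  have : IsScalarTower F (Algebra.adjoin F (Set.range (Subtype.val : s → K))) ℂ :=
    IsScalarTower.of_algebraMap_eq' φ.comp_algebraMap.symm
  have : FaithfulSMul (Algebra.adjoin F (Set.range (Subtype.val : s → K))) ℂ :=
    (faithfulSMul_iff_algebraMap_injective _ _).2 hφ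
  have halg := hs.isAlgebraic
  exact ⟨(IsAlgClosed.lift (M := ℂ) (R := Algebra.adjoin F (Set.range (Subtype.val : s → K)))
    (S := K)).restrictScalars F⟩

instance countable_mvPolynomial (F : Type) [CommRing F] [Countable F] (n : ℕ) :
    Countable (MvPolynomial (Fin n) F) := by
  rw [← Cardinal.mk_le_aleph0_iff]
  refine MvPolynomial.cardinalMk_le_max.trans ?_
  simp [Cardinal.mk_le_aleph0]

/-! ### Coefficientwise linear maps -/

section coeffwise

variable {F : Subfield ℂ} {σ : Type}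

/-- apply a linear map to the coefficients -/
noncomputable def cw (l : ℂ →ₗ[F] F) (P : MvPolynomial σ ℂ) : MvPolynomial σ F :=
  ∑ m ∈ P.support, MvPolynomial.monomial m (l (P.coeff m))

theorem coeff_cw (l : ℂ →ₗ[F] F) (P : MvPolynomial σ ℂ) (m : σ →₀ ℕ) :
    (cw l P).coeff m = l (P.coeff m) := by
  classical
  rw [cw, MvPolynomial.coeff_sum]
  simp only [MvPolynomial.coeff_monomial]
  rw [Finset.sum_ite_eq']
  split_ifs with h
  · rfl
  · rw [MvPolynomial.notMem_support_iff.1 h, map_zero]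

theorem cw_add (l : ℂ →ₗ[F] F) (P Q : MvPolynomial σ ℂ) : cw l (P + Q) = cw l P + cw l Q := by
  ext m
  rw [coeff_cw, MvPolynomial.coeff_add, MvPolynomial.coeff_add, coeff_cw, coeff_cw, map_add]

theorem cw_mul_map (l : ℂ →ₗ[F] F) (P : MvPolynomial σ ℂ) (s : MvPolynomial σ F) :
    cw l (P * MvPolynomial.map F.subtype s) = cw l P * s := by
  classical
  ext m
  rw [coeff_cw, MvPolynomial.coeff_mul, MvPolynomial.coeff_mul, map_sum]
  refine congrArg _ (Finset.sum_congr rfl fun a _ => ?_)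
  rw [MvPolynomial.coeff_map, coeff_cw, mul_comm]
  change l ((s.coeff a.2) • (P.coeff a.1)) = _
  rw [map_smul, smul_eq_mul, mul_comm]

theorem cw_zero (l : ℂ →ₗ[F] F) : cw l (0 : MvPolynomial σ ℂ) = 0 := by
  ext m
  rw [coeff_cw, MvPolynomial.coeff_zero, map_zero, MvPolynomial.coeff_zero]

theorem cw_mem' (l : ℂ →ₗ[F] F) (T : Set (MvPolynomial σ F)) (P : MvPolynomial σ ℂ)
    (hP : P ∈ Ideal.span (MvPolynomial.map F.subtype '' T)) :
    ∀ a : MvPolynomial σ ℂ, cw l (a * P) ∈ Ideal.span T := by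
  induction hP using Submodule.span_induction with
  | mem x hx =>
    intro a
    obtain ⟨s, hs, rfl⟩ := hx
    rw [cw_mul_map]
    exact Ideal.mul_mem_left _ _ (Ideal.subset_span hs)
  | zero =>
    intro a
    rw [mul_zero, cw_zero]
    exact Ideal.zero_mem _
  | add x y _ _ hx hy =>
    intro a
    rw [mul_add, cw_add]
    exact Ideal.add_mem _ (hx a) (hy a)
  | smul b x _ hx =>
    intro a
    rw [smul_eq_mul, ← mul_assoc]
    exact hx _

theorem cw_mem (l : ℂ →ₗ[F] F) (T : Set (MvPolynomial σ F)) (P : MvPolynomial σ ℂ)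
    (hP : P ∈ Ideal.span (MvPolynomial.map F.subtype '' T)) : cw l P ∈ Ideal.span T := by
  have := cw_mem' l T P hP 1
  rwa [one_mul] at this

/-- a linear functional with prescribed values at `1` and `c` -/
theorem exists_functional (c : ℂ) (hc : c ∉ F) : ∃ l : ℂ →ₗ[F] F, l 1 = 0 ∧ l c = 1 := by
  have hv : c ∉ Submodule.span F {(1 : ℂ)} := by
    intro h
    obtain ⟨a, ha⟩ := Submodule.mem_span_singleton.1 h
    apply hc
    rw [← ha]
    have : a • (1 : ℂ) = (a : ℂ) := by
      change (a : ℂ) * 1 = a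
      rw [mul_one]
    rw [this]
    exact SetLike.coe_mem _
  obtain ⟨l, h1, h2⟩ := LinearMap.exists_extend_of_notMem
    (0 : Submodule.span F {(1 : ℂ)} →ₗ[F] F) hv 1
  refine ⟨l, ?_, h2⟩
  have := LinearMap.congr_fun h1 ⟨1, Submodule.mem_span_singleton_self _⟩
  simpa using this

/-- If `G + c H` lies in an ideal generated by polynomials over `F` and `c` is not in `F`, then
`H` lies in the ideal generated over `F`. -/
theorem mem_of_add (T : Set (MvPolynomial σ F)) (g h : MvPolynomial σ F) (c : ℂ) (hc : c ∉ F)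
    (H : MvPolynomial.map F.subtype g + MvPolynomial.C c * MvPolynomial.map F.subtype h ∈
      Ideal.span (MvPolynomial.map F.subtype '' T)) : h ∈ Ideal.span T := by
  obtain ⟨l, h1, h2⟩ := exists_functional (F := F) c hc
  have := cw_mem l T _ H
  rw [cw_add, cw_mul_map, ← one_mul (MvPolynomial.map F.subtype g), cw_mul_map] at this
  have e1 : cw l (1 : MvPolynomial σ ℂ) = 0 := by
    classical
    ext m
    rw [coeff_cw, MvPolynomial.coeff_one]
    split_ifs
    · rw [h1]; simp
    · simp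
  have e2 : cw l (MvPolynomial.C c : MvPolynomial σ ℂ) = 1 := by
    classical
    ext m
    rw [coeff_cw, MvPolynomial.coeff_C, MvPolynomial.coeff_one]
    split_ifs
    · rw [h2]
    · simp
  rwa [e1, e2, zero_mul, one_mul, zero_add] at this

end coeffwise

/-! ### Good fields -/

/-- `2`, `3` and `6` are not squares -/
def Good (F : Subfield ℂ) : Prop := ∀ a ∈ F, a ^ 2 ≠ 2 ∧ a ^ 2 ≠ 3 ∧ a ^ 2 ≠ 6

theorem good_aux {F : Subfield ℂ} {n : ℕ} (T : Set (MvPolynomial (Fin n) F))
    (hI : (Ideal.span (MvPolynomial.map F.subtype '' T)).IsPrime) (d : F)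
    (hd : ∀ a ∈ F, a ^ 2 ≠ (d : ℂ)) (g h : MvPolynomial (Fin n) F)
    (H : g ^ 2 - MvPolynomial.C d * h ^ 2 ∈
      (Ideal.span (MvPolynomial.map F.subtype '' T)).comap (MvPolynomial.map F.subtype)) :
    h ∈ (Ideal.span (MvPolynomial.map F.subtype '' T)).comap (MvPolynomial.map F.subtype) := by
  obtain ⟨c, hc⟩ := IsAlgClosed.exists_pow_nat_eq (d : ℂ) (n := 2) (by norm_num)
  have hcF : c ∉ F := fun h => hd c h hc
  have hcF' : -c ∉ F := fun h => hcF (by simpa using F.neg_mem h)
  have h1 : (MvPolynomial.map F.subtype g + MvPolynomial.C c * MvPolynomial.map F.subtype h) *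
      (MvPolynomial.map F.subtype g + MvPolynomial.C (-c) * MvPolynomial.map F.subtype h) ∈
      Ideal.span (MvPolynomial.map F.subtype '' T) := by
    have : (MvPolynomial.map F.subtype g + MvPolynomial.C c * MvPolynomial.map F.subtype h) *
      (MvPolynomial.map F.subtype g + MvPolynomial.C (-c) * MvPolynomial.map F.subtype h) =
      MvPolynomial.map F.subtype (g ^ 2 - MvPolynomial.C d * h ^ 2) := by
      have e : MvPolynomial.C (c ^ 2) = (MvPolynomial.C (d : ℂ) : MvPolynomial (Fin n) ℂ) := by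
        rw [hc]
      rw [map_sub, map_mul, map_pow, map_pow, MvPolynomial.map_C]
      change _ = _ - MvPolynomial.C (d : ℂ) * _
      rw [← e, map_neg, map_pow]
      ring
    rw [this]
    exact H
  have h2 : ∀ c' ∉ F, MvPolynomial.map F.subtype g +
      MvPolynomial.C c' * MvPolynomial.map F.subtype h ∈
      Ideal.span (MvPolynomial.map F.subtype '' T) → h ∈
      (Ideal.span (MvPolynomial.map F.subtype '' T)).comap (MvPolynomial.map F.subtype) := by
    intro c' hc' h3
    have := mem_of_add T g h c' hc' h3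
    rw [Ideal.mem_comap]
    have h4 := Ideal.mem_map_of_mem (MvPolynomial.map F.subtype) this
    rwa [Ideal.map_span] at h4
  rcases hI.mem_or_mem h1 with h3 | h3
  · exact h2 c hcF h3
  · exact h2 (-c) hcF' h3

/-- Adjoining a generic zero: abstract form. -/
theorem step_aux (F : Subfield ℂ) [Countable F] (hg : Good F) (n : ℕ)
    (T : Set (MvPolynomial (Fin n) F))
    (hI : (Ideal.span (MvPolynomial.map F.subtype '' T)).IsPrime)
    (A K : Type) [CommRing A] [IsDomain A] [Algebra F A] [Field K] [Algebra A K]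
    [IsFractionRing A K] [Algebra F K] [IsScalarTower F A K] [Countable A]
    (π : MvPolynomial (Fin n) F →ₐ[F] A) (hπ : Function.Surjective π)
    (hker : ∀ p, π p = 0 ↔ MvPolynomial.map F.subtype p ∈
      Ideal.span (MvPolynomial.map F.subtype '' T)) :
    ∃ F₁ : Subfield ℂ, F ≤ F₁ ∧ Countable F₁ ∧ Good F₁ ∧
      ∃ z : Fin n → ℂ, (∀ i, z i ∈ F₁) ∧
        ∀ p ∈ MvPolynomial.map F.subtype '' T, MvPolynomial.eval z p = 0 := by
  have : Countable K := by
    have : Function.Surjective (fun x : A × nonZeroDivisors A =>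
        IsLocalization.mk' K x.1 x.2) := by
      intro y
      obtain ⟨a, b, h⟩ := IsLocalization.exists_mk'_eq (nonZeroDivisors A) y
      exact ⟨(a, b), h⟩
    exact this.countable
  obtain ⟨ψ⟩ := exists_algHom F K
  -- `2`, `3`, `6` are not squares in `K`
  have key : ∀ d : F, (∀ a ∈ F, a ^ 2 ≠ (d : ℂ)) → ∀ b : K, b ^ 2 ≠ algebraMap F K d := by
    intro d hd b hb
    obtain ⟨x, y, hxy⟩ := IsLocalization.exists_mk'_eq (nonZeroDivisors A) b
    have hy : (y : A) ≠ 0 := nonZeroDivisors.ne_zero y.2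
    have h1 : algebraMap A K (x ^ 2) = algebraMap A K (algebraMap F A d * (y : A) ^ 2) := by
      rw [map_mul, map_pow, map_pow, ← IsScalarTower.algebraMap_apply, ← hb, ← hxy, ← mul_pow,
        IsLocalization.mk'_spec]
    have h2 := IsFractionRing.injective A K h1
    obtain ⟨g, hg'⟩ := hπ x
    obtain ⟨h, hh⟩ := hπ (y : A)
    apply hy
    rw [← hh, hker]
    refine good_aux T hI d hd g h ?_
    rw [Ideal.mem_comap, ← hker, map_sub, map_mul, map_pow, map_pow, hg', hh, sub_eq_zero, h2]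
    congr 1
    exact (π.commutes d).symm
  have key2 : ∀ d : F, (∀ a ∈ F, a ^ 2 ≠ (d : ℂ)) → ∀ a ∈ ψ.toRingHom.fieldRange,
      a ^ 2 ≠ (d : ℂ) := by
    rintro d hd _ ⟨b, rfl⟩ h
    apply key d hd b
    apply ψ.toRingHom.injective
    have h3 : ψ (algebraMap F K d) = (d : ℂ) := ψ.commutes d
    change ψ (b ^ 2) = ψ (algebraMap F K d)
    rw [h3, map_pow]
    exact h
  refine ⟨ψ.toRingHom.fieldRange, ?_, ?_, ?_, fun i => ψ (algebraMap A K
    (π (MvPolynomial.X i))), fun i => ⟨_, rfl⟩, ?_⟩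
  · intro a ha
    exact ⟨algebraMap F K ⟨a, ha⟩, ψ.commutes ⟨a, ha⟩⟩
  · have : Function.Surjective (fun x : K => (⟨ψ x, ⟨x, rfl⟩⟩ : ψ.toRingHom.fieldRange)) := by
      rintro ⟨_, ⟨x, rfl⟩⟩
      exact ⟨x, rfl⟩
    exact this.countable
  · intro a ha
    refine ⟨?_, ?_, ?_⟩
    · exact key2 2 (fun a ha => (hg a ha).1) a ha
    · exact key2 3 (fun a ha => (hg a ha).2.1) a ha
    · exact key2 6 (fun a ha => (hg a ha).2.2) a ha
  · rintro _ ⟨s, hs, rfl⟩
    have h1 : (MvPolynomial.eval fun i => ψ (algebraMap A K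
        (π (MvPolynomial.X i)))).comp (MvPolynomial.map F.subtype) =
        (ψ.toRingHom.comp (algebraMap A K)).comp π.toRingHom := by
      apply MvPolynomial.ringHom_ext
      · intro r
        simp only [RingHom.comp_apply, MvPolynomial.map_C, MvPolynomial.eval_C]
        have e1 : π (MvPolynomial.C r) = algebraMap F A r := π.commutes r
        change _ = ψ (algebraMap A K (π (MvPolynomial.C r)))
        rw [e1, ← IsScalarTower.algebraMap_apply]
        exact (ψ.commutes r).symm
      · intro i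
        simp only [RingHom.comp_apply, MvPolynomial.map_X, MvPolynomial.eval_X]
        rfl
    have h2 := RingHom.congr_fun h1 s
    rw [RingHom.comp_apply] at h2
    rw [h2, RingHom.comp_apply]
    have h3 : π s = 0 := by
      rw [hker]
      exact Ideal.subset_span ⟨s, hs, rfl⟩
    change ψ.toRingHom.comp (algebraMap A K) (π s) = 0
    rw [h3, map_zero]

/-- Adjoining a generic zero: domain form. -/
theorem step_aux1 (F : Subfield ℂ) [Countable F] (hg : Good F) (n : ℕ)
    (T : Set (MvPolynomial (Fin n) F))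
    (hI : (Ideal.span (MvPolynomial.map F.subtype '' T)).IsPrime)
    (A : Type) [CommRing A] [IsDomain A] [Countable A]
    (π : MvPolynomial (Fin n) F →+* A) (hπ : Function.Surjective π)
    (hker : ∀ p, π p = 0 ↔ MvPolynomial.map F.subtype p ∈
      Ideal.span (MvPolynomial.map F.subtype '' T)) :
    ∃ F₁ : Subfield ℂ, F ≤ F₁ ∧ Countable F₁ ∧ Good F₁ ∧
      ∃ z : Fin n → ℂ, (∀ i, z i ∈ F₁) ∧
        ∀ p ∈ MvPolynomial.map F.subtype '' T, MvPolynomial.eval z p = 0 := by
  obtain ⟨K, _, _, _⟩ : ∃ (K : Type) (_ : Field K) (_ : Algebra A K), IsFractionRing A K :=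
    ⟨FractionRing A, inferInstance, inferInstance, inferInstance⟩
  let _ : Algebra F A := (π.comp MvPolynomial.C).toAlgebra
  let _ : Algebra F K := ((algebraMap A K).comp (algebraMap F A)).toAlgebra
  have : IsScalarTower F A K := IsScalarTower.of_algebraMap_eq' rfl
  let π' : MvPolynomial (Fin n) F →ₐ[F] A := { π with commutes' := fun r => rfl }
  exact step_aux F hg n T hI A K π' hπ hker

/-- Adjoining a generic zero: quotient form. -/
theorem step_aux2 (F : Subfield ℂ) [Countable F] (hg : Good F) (n : ℕ)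
    (T : Set (MvPolynomial (Fin n) F))
    (hI : (Ideal.span (MvPolynomial.map F.subtype '' T)).IsPrime)
    (P : Ideal (MvPolynomial (Fin n) F)) (hP : P.IsPrime)
    (hker : ∀ p, p ∈ P ↔ MvPolynomial.map F.subtype p ∈
      Ideal.span (MvPolynomial.map F.subtype '' T)) :
    ∃ F₁ : Subfield ℂ, F ≤ F₁ ∧ Countable F₁ ∧ Good F₁ ∧
      ∃ z : Fin n → ℂ, (∀ i, z i ∈ F₁) ∧
        ∀ p ∈ MvPolynomial.map F.subtype '' T, MvPolynomial.eval z p = 0 := by
  have : IsDomain (MvPolynomial (Fin n) F ⧸ P) := Ideal.Quotient.isDomain _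
  have : Countable (MvPolynomial (Fin n) F ⧸ P) := Quotient.countable
  exact step_aux1 F hg n T hI (MvPolynomial (Fin n) F ⧸ P)
    (Ideal.Quotient.mk P) Ideal.Quotient.mk_surjective
    (fun p => (Ideal.Quotient.eq_zero_iff_mem).trans (hker p))

/-- Adjoining a generic zero of a geometrically prime ideal. -/
theorem step (F : Subfield ℂ) (hc : Countable F) (hg : Good F) (n : ℕ)
    (T : Set (MvPolynomial (Fin n) F))
    (hI : (Ideal.span (MvPolynomial.map F.subtype '' T)).IsPrime) :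
    ∃ F₁ : Subfield ℂ, F ≤ F₁ ∧ Countable F₁ ∧ Good F₁ ∧
      ∃ z : Fin n → ℂ, (∀ i, z i ∈ F₁) ∧
        ∀ p ∈ MvPolynomial.map F.subtype '' T, MvPolynomial.eval z p = 0 :=
  step_aux2 F hg n T hI ((Ideal.span (MvPolynomial.map F.subtype '' T)).comap
    (MvPolynomial.map F.subtype)) (Ideal.IsPrime.comap (MvPolynomial.map F.subtype))
    fun _ => Ideal.mem_comap

/-! ### Closing off -/

/-- a countable good field -/
def CG (F : Subfield ℂ) : Prop := Countable F ∧ Good F

theorem cg_iSup (f : ℕ → Subfield ℂ) (hf : Monotone f) (h : ∀ n, CG (f n)) : CG (⨆ n, f n) := by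
  have hd : Directed (· ≤ ·) f := hf.directed_le
  constructor
  · have : ((⨆ n, f n : Subfield ℂ) : Set ℂ) = ⋃ n, (f n : Set ℂ) := by
      ext x
      rw [SetLike.mem_coe, Subfield.mem_iSup_of_directed hd, Set.mem_iUnion]
      rfl
    have h2 : ((⨆ n, f n : Subfield ℂ) : Set ℂ).Countable := by
      rw [this]
      exact Set.countable_iUnion fun n => (h n).1
    exact h2
  · intro a ha
    obtain ⟨n, hn⟩ := (Subfield.mem_iSup_of_directed hd).1 ha
    exact (h n).2 a hn

/-- build a chain -/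
theorem exists_chain (P : ℕ → Subfield ℂ → Prop)
    (hP : ∀ j F G, F ≤ G → P j F → P j G) (F : Subfield ℂ) (hF : CG F)
    (hstep : ∀ j G, F ≤ G → CG G → ∃ G', G ≤ G' ∧ CG G' ∧ P j G') :
    ∃ G, F ≤ G ∧ CG G ∧ ∀ j, P j G := by
  have h1 : ∀ j (G : {G : Subfield ℂ // F ≤ G ∧ CG G}), ∃ G' : {G : Subfield ℂ // F ≤ G ∧ CG G},
      G.1 ≤ G'.1 ∧ P j G'.1 := by
    rintro j ⟨G, h1, h2⟩
    obtain ⟨G', h3, h4, h5⟩ := hstep j G h1 h2
    exact ⟨⟨G', h1.trans h3, h4⟩, h3, h5⟩
  choose s hs1 hs2 using h1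
  let f : ℕ → {G : Subfield ℂ // F ≤ G ∧ CG G} := fun n => Nat.rec ⟨F, le_refl _, hF⟩
    (fun j G => s j G) n
  have hf : ∀ n, f (n + 1) = s n (f n) := fun n => rfl
  have hmono : Monotone fun n => (f n).1 := by
    apply monotone_nat_of_le_succ
    intro n
    rw [hf]
    exact hs1 _ _
  refine ⟨⨆ n, (f n).1, ?_, cg_iSup _ hmono fun n => (f n).2.2, ?_⟩
  · exact le_iSup_of_le 0 (f 0).2.1
  · intro j
    refine hP j _ _ (le_iSup (fun n => (f n).1) (j + 1)) ?_
    rw [hf]
    exact hs2 _ _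

/-- every geometrically prime finite system over `F` has a zero in `G` -/
def Closes (F G : Subfield ℂ) : Prop :=
  ∀ (n : ℕ) (T : Finset (MvPolynomial (Fin n) F)),
    (Ideal.span (MvPolynomial.map F.subtype '' (T : Set (MvPolynomial (Fin n) F)))).IsPrime →
      ∃ z : Fin n → ℂ, (∀ i, z i ∈ G) ∧
        ∀ p ∈ T, MvPolynomial.eval z (MvPolynomial.map F.subtype p) = 0

theorem exists_closes (F : Subfield ℂ) (hF : CG F) : ∃ G, F ≤ G ∧ CG G ∧ Closes F G := by
  have := hF.1
  have hne : Nonempty (Σ n : ℕ, Finset (MvPolynomial (Fin n) F)) := ⟨⟨0, ∅⟩⟩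
  obtain ⟨e, he⟩ := exists_surjective_nat (Σ n : ℕ, Finset (MvPolynomial (Fin n) F))
  have hstep : ∀ j G, F ≤ G → CG G → ∃ G', G ≤ G' ∧ CG G' ∧
      ((Ideal.span (MvPolynomial.map F.subtype ''
      ((e j).2 : Set (MvPolynomial (Fin (e j).1) F)))).IsPrime →
      ∃ z : Fin (e j).1 → ℂ, (∀ i, z i ∈ G') ∧
        ∀ p ∈ (e j).2, MvPolynomial.eval z (MvPolynomial.map F.subtype p) = 0) := by
    intro j G hFG hG
    by_cases hp : (Ideal.span (MvPolynomial.map F.subtype ''
      ((e j).2 : Set (MvPolynomial (Fin (e j).1) F)))).IsPrime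
    · have himage : MvPolynomial.map G.subtype '' (MvPolynomial.map (Subfield.inclusion hFG) ''
          ((e j).2 : Set (MvPolynomial (Fin (e j).1) F))) = MvPolynomial.map F.subtype ''
          ((e j).2 : Set (MvPolynomial (Fin (e j).1) F)) := by
        rw [Set.image_image]
        refine Set.image_congr fun p _ => ?_
        rw [MvPolynomial.map_map]
        rfl
      have hp' := hp
      rw [← himage] at hp'
      obtain ⟨G', h1, h2, h3, z, h4, h5⟩ := step G hG.1 hG.2 _ _ hp'
      rw [himage] at h5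
      exact ⟨G', h1, ⟨h2, h3⟩, fun _ => ⟨z, h4, fun p hp => h5 _ ⟨p, hp, rfl⟩⟩⟩
    · exact ⟨G, le_refl _, hG, fun h => absurd h hp⟩
  obtain ⟨G, h1, h2, h3⟩ := exists_chain (fun j G =>
    (Ideal.span (MvPolynomial.map F.subtype ''
      ((e j).2 : Set (MvPolynomial (Fin (e j).1) F)))).IsPrime →
      ∃ z : Fin (e j).1 → ℂ, (∀ i, z i ∈ G) ∧
        ∀ p ∈ (e j).2, MvPolynomial.eval z (MvPolynomial.map F.subtype p) = 0)
      (fun j F' G' hle h hp => by
        obtain ⟨z, h1, h2⟩ := h hp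
        exact ⟨z, fun i => hle (h1 i), h2⟩) F hF hstep
  refine ⟨G, h1, h2, ?_⟩
  intro n T hT
  obtain ⟨j, hj⟩ := he ⟨n, T⟩
  have := h3 j
  rw [hj] at this
  exact this hT

theorem good_rat : Good (algebraMap ℚ ℂ).fieldRange := by
  rintro _ ⟨q, rfl⟩
  have key : ∀ n : ℕ, ¬ IsSquare n → (algebraMap ℚ ℂ q) ^ 2 ≠ (n : ℂ) := by
    intro n hn h
    apply hn
    have h1 : q ^ 2 = (n : ℚ) := by
      have : ((q ^ 2 : ℚ) : ℂ) = ((n : ℚ) : ℂ) := by
        push_cast
        exact h
      exact_mod_cast this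
    rw [← Rat.isSquare_natCast_iff]
    exact ⟨q, by rw [← h1, sq]⟩
  refine ⟨?_, ?_, ?_⟩
  · exact_mod_cast key 2 (by rintro ⟨r, hr⟩; have : r ≤ 2 := by nlinarith
                             interval_cases r <;> omega)
  · exact_mod_cast key 3 (by rintro ⟨r, hr⟩; have : r ≤ 3 := by nlinarith
                             interval_cases r <;> omega)
  · exact_mod_cast key 6 (by rintro ⟨r, hr⟩; have : r ≤ 6 := by nlinarith
                             interval_cases r <;> omega)

/-- there is a good field in which all geometrically prime systems have zeros -/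
theorem exists_pac : ∃ E : Subfield ℂ, Good E ∧ Closes E E := by
  have h0 : CG (algebraMap ℚ ℂ).fieldRange := by
    refine ⟨?_, good_rat⟩
    have : Function.Surjective (fun x : ℚ => (⟨algebraMap ℚ ℂ x, ⟨x, rfl⟩⟩ :
        (algebraMap ℚ ℂ).fieldRange)) := by
      rintro ⟨_, ⟨x, rfl⟩⟩
      exact ⟨x, rfl⟩
    exact this.countable
  have h1 : ∀ G : {G : Subfield ℂ // CG G}, ∃ G' : {G : Subfield ℂ // CG G},
      G.1 ≤ G'.1 ∧ Closes G.1 G'.1 := by
    rintro ⟨G, h⟩
    obtain ⟨G', h1, h2, h3⟩ := exists_closes G h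
    exact ⟨⟨G', h2⟩, h1, h3⟩
  choose s hs1 hs2 using h1
  let f : ℕ → {G : Subfield ℂ // CG G} := fun n => Nat.rec ⟨_, h0⟩ (fun _ G => s G) n
  have hf : ∀ n, f (n + 1) = s (f n) := fun n => rfl
  have hmono : Monotone fun n => (f n).1 := by
    apply monotone_nat_of_le_succ
    intro n
    rw [hf]
    exact hs1 _
  have hd : Directed (· ≤ ·) (fun n => (f n).1) := hmono.directed_le
  refine ⟨⨆ n, (f n).1, (cg_iSup _ hmono fun n => (f n).2).2, ?_⟩
  intro n T hT
  -- the coefficients lie in some `f k`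
  have h1 : ∀ p : MvPolynomial (Fin n) (⨆ n, (f n).1 : Subfield ℂ), ∃ k, ∀ m,
      ((p.coeff m : (⨆ n, (f n).1 : Subfield ℂ)) : ℂ) ∈ (f k).1 := by
    intro p
    have h2 : ∀ m : Fin n →₀ ℕ, ∃ k,
        ((p.coeff m : (⨆ n, (f n).1 : Subfield ℂ)) : ℂ) ∈ (f k).1 := fun m =>
      (Subfield.mem_iSup_of_directed hd).1 (p.coeff m).2
    choose k hk using h2
    refine ⟨p.support.sup k, fun m => ?_⟩
    by_cases hm : m ∈ p.support
    · exact hmono (Finset.le_sup hm) (hk m)
    · rw [MvPolynomial.notMem_support_iff.1 hm]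
      exact Subfield.zero_mem _
  choose k hk using h1
  have h2 : ∃ K, ∀ p ∈ T, ∀ m,
      ((p.coeff m : (⨆ n, (f n).1 : Subfield ℂ)) : ℂ) ∈ (f K).1 :=
    ⟨T.sup k, fun p hp m => hmono (Finset.le_sup hp) (hk p m)⟩
  obtain ⟨K, hK⟩ := h2
  have hle : (f K).1 ≤ ⨆ n, (f n).1 := le_iSup (fun n => (f n).1) K
  -- descend
  have h3 : ∀ p ∈ T, ∃ q : MvPolynomial (Fin n) (f K).1,
      MvPolynomial.map (Subfield.inclusion hle) q = p := by
    intro p hp
    have : p ∈ Set.range (MvPolynomial.map (Subfield.inclusion hle)) := by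
      rw [MvPolynomial.mem_range_map_iff_coeffs_subset]
      intro c hc
      rw [Finset.mem_coe, MvPolynomial.mem_coeffs_iff] at hc
      obtain ⟨m, _, rfl⟩ := hc
      exact ⟨⟨_, hK p hp m⟩, Subtype.ext rfl⟩
    exact this
  classical
  choose! q hq using h3
  have himage : MvPolynomial.map (f K).1.subtype '' ((T.image q : Finset (MvPolynomial (Fin n) (f K).1)) :
        Set (MvPolynomial (Fin n) (f K).1)) =
      MvPolynomial.map (⨆ n, (f n).1 : Subfield ℂ).subtype ''
        (T : Set (MvPolynomial (Fin n) (⨆ n, (f n).1 : Subfield ℂ))) := by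
    rw [Finset.coe_image, Set.image_image]
    refine Set.image_congr fun p hp => ?_
    conv_rhs => rw [← hq p hp]
    rw [MvPolynomial.map_map]
    rfl
  rw [← himage] at hT
  obtain ⟨z, h4, h5⟩ := hs2 (f K) n (T.image q) hT
  refine ⟨z, fun i => ?_, fun p hp => ?_⟩
  · have : s (f K) = f (K + 1) := rfl
    exact (le_iSup (fun n => (f n).1) (K + 1)) (h4 i)
  · have := h5 (q p) (Finset.mem_image_of_mem q hp)
    conv_lhs => rw [← hq p hp]
    rw [MvPolynomial.map_map]
    exact this

end Pool.Agent.V11285.Pac
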