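import Mathlib
import Pool.Agent.V11285.Pac1

set_option autoImplicit false

namespace Pool.Agent.V11285.Pac

/-! ### The absolute Galois group -/

/-- an element fixed by a topological generator is in the base field -/
theorem mem_of_fixed (E : Type) [Field E] (g : Gal(SeparableClosure E/E))
    (hg : closure (Subgroup.zpowers g : Set Gal(SeparableClosure E/E)) = Set.univ)
    (a : SeparableClosure E) (ha : g a = a) :
    a ∈ Set.range (algebraMap E (SeparableClosure E)) := by
  have : IsGalois E (SeparableClosure E) := inferInstance
  let L : IntermediateField E (SeparableClosure E) := IntermediateField.adjoin E {a}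
  have hfin : FiniteDimensional E L :=
    IntermediateField.adjoin.finiteDimensional (Algebra.IsIntegral.isIntegral a)
  have hclosed : IsClosed (L.fixingSubgroup : Set Gal(SeparableClosure E/E)) :=
    IntermediateField.fixingSubgroup_isClosed L
  have hgL : g ∈ L.fixingSubgroup := by
    rw [IntermediateField.mem_fixingSubgroup_iff]
    intro x hx
    have : L ≤ IntermediateField.fixedField (Subgroup.zpowers g) := by
      rw [IntermediateField.adjoin_le_iff]
      intro b hb
      rw [Set.mem_singleton_iff] at hb
      subst hb
      rw [SetLike.mem_coe, IntermediateField.mem_fixedField_iff]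
      intro f hf
      obtain ⟨n, rfl⟩ := Subgroup.mem_zpowers_iff.1 hf
      have h1 : g ∈ MulAction.stabilizer Gal(SeparableClosure E/E) b := ha
      exact (MulAction.stabilizer Gal(SeparableClosure E/E) b).zpow_mem h1 n
    have h2 := this hx
    rw [IntermediateField.mem_fixedField_iff] at h2
    exact h2 g (Subgroup.mem_zpowers g)
  have htop : ∀ f : Gal(SeparableClosure E/E), f ∈ L.fixingSubgroup := by
    intro f
    have h3 : closure (Subgroup.zpowers g : Set Gal(SeparableClosure E/E)) ⊆
        (L.fixingSubgroup : Set Gal(SeparableClosure E/E)) :=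
      closure_minimal (by
        intro x hx
        exact (Subgroup.zpowers_le.2 hgL) hx) hclosed
    rw [hg] at h3
    exact h3 (Set.mem_univ f)
  rw [InfiniteGalois.mem_range_algebraMap_iff_fixed]
  intro f
  exact (IntermediateField.mem_fixingSubgroup_iff _ _).1 (htop f) a
    (IntermediateField.mem_adjoin_simple_self E a)

/-- no element of the absolute Galois group generates it topologically -/
theorem not_procyclic (E : Subfield ℂ) (hE : Good E) :
    ¬ ∃ g : Gal(SeparableClosure E/E),
      closure (Subgroup.zpowers g : Set Gal(SeparableClosure E/E)) = Set.univ := by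
  rintro ⟨g, hg⟩
  -- square roots
  have hsq : ∀ d : E, ∃ a : SeparableClosure E, a * a = algebraMap E (SeparableClosure E) d := by
    intro d
    obtain ⟨z, hz⟩ := IsSepClosed.exists_eq_mul_self (algebraMap E (SeparableClosure E) d)
    exact ⟨z, hz.symm⟩
  obtain ⟨a, ha⟩ := hsq 2
  obtain ⟨b, hb⟩ := hsq 3
  have key : ∀ (c : SeparableClosure E) (d : E), c * c = algebraMap E (SeparableClosure E) d →
      (∀ x ∈ E, x ^ 2 ≠ (d : ℂ)) → g c ≠ c := by
    intro c d hc hd h
    obtain ⟨x, rfl⟩ := mem_of_fixed E g hg c h
    rw [← map_mul] at hc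
    have h1 := (algebraMap E (SeparableClosure E)).injective hc
    apply hd x x.2
    rw [← h1, sq]
    rfl
  have key2 : ∀ (c : SeparableClosure E) (d : E), c * c = algebraMap E (SeparableClosure E) d →
      (∀ x ∈ E, x ^ 2 ≠ (d : ℂ)) → g c = -c := by
    intro c d hc hd
    have h1 : g c * g c = c * c := by
      rw [← map_mul, hc, AlgEquiv.commutes]
    rcases mul_self_eq_mul_self_iff.1 h1 with h2 | h2
    · exact absurd h2 (key c d hc hd)
    · exact h2
  have h1 := key2 a 2 ha (fun x hx => (hE x hx).1)
  have h2 := key2 b 3 hb (fun x hx => (hE x hx).2.1)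
  refine key (a * b) 6 ?_ (fun x hx => (hE x hx).2.2) ?_
  · rw [mul_mul_mul_comm, ha, hb, ← map_mul]
    norm_num
  · rw [map_mul, h1, h2, neg_mul_neg]

end Pool.Agent.V11285.Pac
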