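import Mathlib
import Pool.Agent.V11285.Pac1

set_option autoImplicit false

open AlgebraicGeometry CategoryTheory CategoryTheory.Limits TensorProduct

namespace Pool.Agent.V11285.Pac

/-- A finitely generated `E`-algebra whose base change to `ℂ` is a domain has an `E`-point. -/
theorem exists_ringHom (E : Subfield ℂ) (hE : Closes E E) (A : Type) [CommRing A] [Algebra E A]
    [hft : Algebra.FiniteType E A] (hA : IsDomain (ℂ ⊗[E] A)) : Nonempty (A →ₐ[E] E) := by
  obtain ⟨n, π, hπ⟩ := Algebra.FiniteType.iff_quotient_mvPolynomial''.1 hft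
  obtain ⟨T, hT⟩ := (inferInstance : IsNoetherianRing (MvPolynomial (Fin n) E)).noetherian
    (RingHom.ker π)
  -- the base change of `π`
  let Φ : MvPolynomial (Fin n) ℂ →ₐ[ℂ] ℂ ⊗[E] A :=
    (Algebra.TensorProduct.map (AlgHom.id ℂ ℂ) π).comp
      (MvPolynomial.algebraTensorAlgEquiv (σ := Fin n) E ℂ).symm.toAlgHom
  have hker : RingHom.ker Φ = Ideal.span (MvPolynomial.map E.subtype ''
      (T : Set (MvPolynomial (Fin n) E))) := by
    let e := MvPolynomial.algebraTensorAlgEquiv (σ := Fin n) E ℂ
    have h1 : RingHom.ker Φ = (RingHom.ker (Algebra.TensorProduct.map (AlgHom.id E ℂ) π)).map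
        e.toRingEquiv := by
      rw [← Ideal.comap_symm]
      rfl
    have hT' : RingHom.ker π = Ideal.span (T : Set (MvPolynomial (Fin n) E)) := hT.symm
    rw [h1, Algebra.TensorProduct.lTensor_ker π hπ, hT', Ideal.map_span, Ideal.map_span,
      Set.image_image]
    congr 1
    refine Set.image_congr fun p _ => ?_
    change e ((1 : ℂ) ⊗ₜ[E] p) = _
    rw [MvPolynomial.algebraTensorAlgEquiv_tmul, one_smul]
    rfl
  have hprime : (Ideal.span (MvPolynomial.map E.subtype ''
      (T : Set (MvPolynomial (Fin n) E)))).IsPrime := by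
    rw [← hker]
    exact RingHom.ker_isPrime _
  obtain ⟨z, hz1, hz2⟩ := hE n T hprime
  let w : Fin n → E := fun i => ⟨z i, hz1 i⟩
  have hw : ∀ p : MvPolynomial (Fin n) E,
      ((MvPolynomial.aeval w p : E) : ℂ) = MvPolynomial.eval z (MvPolynomial.map E.subtype p) := by
    intro p
    have : (E.subtype.comp (MvPolynomial.aeval w : MvPolynomial (Fin n) E →ₐ[E] E).toRingHom) =
        (MvPolynomial.eval z).comp (MvPolynomial.map E.subtype) := by
      apply MvPolynomial.ringHom_ext
      · intro r; simp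
      · intro i; simp [w]
    exact RingHom.congr_fun this p
  have hle : ∀ p : MvPolynomial (Fin n) E, π p = 0 → MvPolynomial.aeval w p = 0 := by
    intro p hp
    have h1 : p ∈ Ideal.span (T : Set (MvPolynomial (Fin n) E)) := by
      have : Submodule.span (MvPolynomial (Fin n) E) (T : Set (MvPolynomial (Fin n) E)) =
        RingHom.ker π := hT
      change p ∈ Submodule.span (MvPolynomial (Fin n) E) (T : Set (MvPolynomial (Fin n) E))
      rw [this]
      exact hp
    have h2 : Ideal.span (T : Set (MvPolynomial (Fin n) E)) ≤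
        RingHom.ker (MvPolynomial.aeval w : MvPolynomial (Fin n) E →ₐ[E] E) := by
      rw [Ideal.span_le]
      intro t ht
      rw [SetLike.mem_coe, RingHom.mem_ker]
      apply Subtype.ext
      rw [hw]
      exact hz2 t ht
    exact h2 h1
  exact ⟨AlgHom.liftOfSurjective π hπ (MvPolynomial.aeval w) hle⟩

/-- Every nonempty geometrically integral scheme locally of finite type over `E` has a rational
point. -/
theorem exists_section (E : Subfield ℂ) (hE : Closes E E) (X : Scheme.{0})
    (f : X ⟶ Spec (CommRingCat.of E)) [GeometricallyIntegral f] [LocallyOfFiniteType f] :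
    ∃ s : Spec (CommRingCat.of E) ⟶ X, s ≫ f = 𝟙 _ := by
  -- an affine chart
  have hX : Nonempty X := by
    have : Surjective f := inferInstance
    obtain ⟨x, _⟩ := f.surjective (⟨⊥, Ideal.isPrime_bot⟩ : PrimeSpectrum E)
    exact ⟨x⟩
  obtain ⟨x⟩ := hX
  obtain ⟨A, g, _, y⟩ : ∃ (A : CommRingCat.{0}) (g : Spec A ⟶ X), IsOpenImmersion g ∧
      Nonempty (Spec A) := by
    obtain ⟨y, hy⟩ := X.affineOpenCover.covers x
    exact ⟨_, X.affineOpenCover.f (X.affineOpenCover.idx x), inferInstance, ⟨y⟩⟩
  let φ : CommRingCat.of E ⟶ A := Spec.preimage (g ≫ f)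
  have hφ : Spec.map φ = g ≫ f := Spec.map_preimage _
  let _ : Algebra E A := φ.hom.toAlgebra
  have hφ' : φ = CommRingCat.ofHom (algebraMap E A) := rfl
  -- finite type
  have hft : Algebra.FiniteType E A := by
    have h1 : LocallyOfFiniteType (Spec.map φ) := by
      rw [hφ]; infer_instance
    exact (HasRingHomProperty.Spec_iff (P := @LocallyOfFiniteType)).1 h1
  -- the base change is a domain
  let h : Spec (CommRingCat.of ℂ) ⟶ Spec (CommRingCat.of E) :=
    Spec.map (CommRingCat.ofHom (algebraMap E ℂ))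
  have hint : IsIntegral (pullback f h) :=
    pullback_of_geometrically (P := IsIntegral) (GeometricallyIntegral.geometrically_isIntegral) ℂ h
  have hA : Nontrivial A := by
    obtain ⟨y⟩ := y
    exact (PrimeSpectrum.nonempty_iff_nontrivial (R := A)).1 ⟨y⟩
  have hnt : Nontrivial (A ⊗[E] ℂ) :=
    Algebra.TensorProduct.nontrivial_of_algebraMap_injective_of_flat_left E A ℂ
      (algebraMap E ℂ).injective
  have hne : Nonempty (Spec (CommRingCat.of (A ⊗[E] ℂ))) :=
    (PrimeSpectrum.nonempty_iff_nontrivial (R := (A ⊗[E] ℂ))).2 hnt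
  let i1 : pullback g (pullback.fst f h) ≅ pullback (g ≫ f) h := pullbackRightPullbackFstIso f h g
  have hgf : Spec.map (CommRingCat.ofHom (algebraMap E A)) = g ≫ f := hφ
  let i2 : pullback (Spec.map (CommRingCat.ofHom (algebraMap E A))) h ≅
      Spec (CommRingCat.of (A ⊗[E] ℂ)) := pullbackSpecIso E A ℂ
  let i3 : pullback (g ≫ f) h ≅ pullback (Spec.map (CommRingCat.ofHom (algebraMap E A))) h :=
    pullback.congrHom hgf.symm rfl
  let i4 : Spec (CommRingCat.of (A ⊗[E] ℂ)) ⟶ pullback f h :=
    i2.inv ≫ i3.inv ≫ i1.inv ≫ pullback.snd g (pullback.fst f h)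
  have hi4 : IsIntegral (Spec (CommRingCat.of (A ⊗[E] ℂ))) := isIntegral_of_isOpenImmersion i4
  have hdom : IsDomain (A ⊗[E] ℂ) := (affine_isIntegral_iff _).1 hi4
  have hdom' : IsDomain (ℂ ⊗[E] A) :=
    (Algebra.TensorProduct.comm E ℂ A).toRingEquiv.toMulEquiv.isDomain _
  obtain ⟨ρ⟩ := exists_ringHom E hE A hdom'
  refine ⟨Spec.map (CommRingCat.ofHom ρ.toRingHom) ≫ g, ?_⟩
  rw [Category.assoc, ← hφ, hφ', ← Spec.map_comp, ← CommRingCat.ofHom_comp]
  have : (ρ.toRingHom.comp (algebraMap E A)) = RingHom.id E := by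
    ext r
    exact congrArg Subtype.val (ρ.commutes r)
  rw [this]
  exact Spec.map_id _

end Pool.Agent.V11285.Pac
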