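import Pool.Agent.Y854.GM.Sets

/-! Lower densities along `⌊α n ^ c⌋` for the properties of a countable family. -/

set_option autoImplicit false

open Finset Filter

namespace Pool.Agent.V11285.SR

open Classical in
/-- lower densities are inherited by the sequences `⌊α n ^ c⌋` -/
theorem lower (c : ℝ) (hc : 1 < c) {ι : Type} [Countable ι] (P : ι → ℕ → Prop) :
    ∃ E : Set ℝ, dimH E < 1 ∧ ∀ α : ℝ, 0 < α → α ∉ E → ∀ (k : ι) (κ ε : ℝ), 0 < ε →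
      (∀ᶠ x : ℕ in atTop, κ * x ≤ (({n : ℕ | 1 ≤ n ∧ n ≤ x ∧ P k n}.ncard : ℕ) : ℝ)) →
      ∀ᶠ N : ℕ in atTop, (κ - ε) * N ≤ (({n : ℕ | 1 ≤ n ∧ n ≤ N ∧ P k ⌊α * (n : ℝ) ^ c⌋₊}.ncard : ℕ) : ℝ) := by
  obtain ⟨E, hE, h⟩ := Pool.Agent.Y854.GM.sets c hc (fun k => {n | P k n})
  refine ⟨E, hE, fun α hα hαE k κ ε hε hev => ?_⟩
  have e1 : ∀ X : ℕ, {n : ℕ | 1 ≤ n ∧ n ≤ X ∧ P k n} = ↑((Ioc 0 X).filter (fun t => t ∈ {n | P k n})) := by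
    intro X
    ext n
    simp only [Set.mem_ofPred_eq, Finset.coe_filter, Finset.mem_Ioc]
    tauto
  have e2 : ∀ N : ℕ, {n : ℕ | 1 ≤ n ∧ n ≤ N ∧ P k ⌊α * (n : ℝ) ^ c⌋₊} =
      ↑((Icc 1 N).filter (fun n : ℕ => ⌊α * (n : ℝ) ^ c⌋₊ ∈ {n | P k n})) := by
    intro N
    ext n
    simp only [Set.mem_ofPred_eq, Finset.coe_filter, Finset.mem_Icc]
    tauto
  simp only [e1, Set.ncard_coe_finset] at hev
  simp only [e2, Set.ncard_coe_finset]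
  obtain ⟨N0, hN0⟩ := (h α hα hαE k κ ε hε).2 hev.exists_forall_of_atTop
  exact eventually_atTop.2 ⟨N0, hN0⟩

end Pool.Agent.V11285.SR
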