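import Pool.Agent.V11285.W3
import Pool.Agent.V11326.WA

/-! Windows around `α v_n` for sets of integers, and of triples of integers, which are thinner than any power of the
logarithm; the sequence `v_n` grows at least like `exp (n ^ δ)`. -/

set_option autoImplicit false

open Finset Filter Topology MeasureTheory

namespace Pool.Agent.V11285.W4

/-- `log v_n ≥ n ^ δ` for large `n`, for some `δ > 0` -/
def Fast (v : ℕ → ℝ) : Prop := ∃ δ : ℝ, 0 < δ ∧ ∀ᶠ n : ℕ in atTop, (n : ℝ) ^ δ ≤ Real.log (v n)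

theorem Fast.log_tendsto {v : ℕ → ℝ} (h : Fast v) : Tendsto (fun n => Real.log (v n)) atTop atTop := by
  obtain ⟨δ, hδ, h1⟩ := h
  exact tendsto_atTop_mono' _ h1 ((tendsto_rpow_atTop hδ).comp tendsto_natCast_atTop_atTop)

theorem Fast.tendsto {v : ℕ → ℝ} (h : Fast v) (hv : ∀ n, 1 ≤ v n) : Tendsto v atTop atTop := by
  refine tendsto_atTop_mono (fun n => ?_) h.log_tendsto
  have := Real.log_le_sub_one_of_pos (lt_of_lt_of_le one_pos (hv n))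
  linarith

/-- a power of the logarithm is small compared with `v_n` -/
theorem Fast.log_pow_le {v : ℕ → ℝ} (h : Fast v) (hv : ∀ n, 1 ≤ v n) (B : ℕ) :
    ∀ᶠ n : ℕ in atTop, (Real.log (v n)) ^ B ≤ v n := by
  have h1 : (fun x : ℝ => Real.log x ^ B) =o[atTop] (fun x : ℝ => x ^ (1 : ℝ)) := by
    have := isLittleO_log_rpow_rpow_atTop (s := 1) (B : ℝ) one_pos
    simpa using this
  have h2 := (h1.bound one_pos)
  filter_upwards [(h.tendsto hv).eventually h2] with n hn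
  have h3 : 0 ≤ Real.log (v n) ^ B := pow_nonneg (Real.log_nonneg (hv n)) _
  rw [Real.norm_of_nonneg h3, Real.rpow_one, Real.norm_of_nonneg (by linarith [hv n]), one_mul] at hn
  exact hn

/-- the powers of the logarithm are summable -/
theorem Fast.summable {v : ℕ → ℝ} (h : Fast v) : ∃ P : ℕ,
    Summable (fun n : ℕ => ((n : ℝ) ^ (2 : ℝ))⁻¹) ∧
      ∀ᶠ n : ℕ in atTop, ((Real.log (v n)) ^ P)⁻¹ ≤ ((n : ℝ) ^ (2 : ℝ))⁻¹ := by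
  obtain ⟨δ, hδ, h1⟩ := h
  obtain ⟨P, hP⟩ := exists_nat_ge (2 / δ)
  refine ⟨P, Real.summable_nat_rpow_inv.2 (by norm_num), ?_⟩
  filter_upwards [h1, eventually_ge_atTop 1] with n hn hn1
  have hn0 : (1 : ℝ) ≤ n := by exact_mod_cast hn1
  have hle : (n : ℝ) ^ (2 : ℝ) ≤ (Real.log (v n)) ^ P := by
    calc (n : ℝ) ^ (2 : ℝ) ≤ (n : ℝ) ^ (δ * P) := by
          apply Real.rpow_le_rpow_of_exponent_le hn0
          rw [div_le_iff₀ hδ] at hP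
          linarith
      _ = ((n : ℝ) ^ δ) ^ P := by
          rw [Real.rpow_mul (by linarith), Real.rpow_natCast]
      _ ≤ (Real.log (v n)) ^ P := pow_le_pow_left₀ (Real.rpow_nonneg (by linarith) _) hn P
  exact inv_anti₀ (by positivity) hle

/-- **Windows of length a power of the logarithm.** -/
theorem ae_log (Bad : ℕ → Prop)
    (hbad : ∀ P : ℕ, ∃ X₀ : ℕ, ∀ X : ℕ, X₀ ≤ X → ({N : ℕ | 1 ≤ N ∧ N ≤ X ∧ Bad N}.ncard : ℝ) ≤ X / Real.log X ^ P)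
    {v : ℕ → ℝ} (hv : ∀ n, 1 ≤ v n) (hf : Fast v) (B : ℕ) :
    ∀ᵐ α : ℝ, 0 < α → ∃ n₀ : ℕ, ∀ n : ℕ, n₀ ≤ n → ∀ N : ℕ, 1 ≤ N → |(N : ℝ) - α * v n| ≤ (Real.log (v n)) ^ B →
      ¬ Bad N := by
  obtain ⟨P, hsum, hP⟩ := hf.summable
  obtain ⟨X₀, hX₀⟩ := hbad (P + B)
  have key : ∀ A : ℕ, ∀ᵐ α : ℝ, ∃ n₀ : ℕ, ∀ n : ℕ, n₀ ≤ n →
      ∀ N ∈ {N : ℕ | 1 ≤ N ∧ N ≤ ⌈((A : ℝ) + 1) * v n⌉₊ ∧ Bad N}, (Real.log (v n)) ^ B < |(N : ℝ) - α * v n| := by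
    intro A
    have hA : (0 : ℝ) ≤ A := Nat.cast_nonneg A
    refine Pool.Agent.V11326.WA.ae_fin _ (fun n => (Set.finite_Icc 1 ⌈((A : ℝ) + 1) * v n⌉₊).subset
      fun N hN => ⟨hN.1, hN.2.1⟩) hv (fun n => pow_nonneg (Real.log_nonneg (hv n)) _)
      (c := fun n => ((A : ℝ) + 2) * ((n : ℝ) ^ (2 : ℝ))⁻¹) ?_ (hsum.mul_left _)
    filter_upwards [hP, (hf.tendsto hv).eventually_ge_atTop (X₀ : ℝ), hf.log_tendsto.eventually_gt_atTop 0]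
      with n h1 h2 h3
    have hv0 : 0 < v n := lt_of_lt_of_le one_pos (hv n)
    have hv1 := hv n
    set X : ℕ := ⌈((A : ℝ) + 1) * v n⌉₊ with hX
    have hXv : v n ≤ (X : ℝ) := by
      refine le_trans ?_ (Nat.le_ceil _)
      nlinarith
    have hX2 : (X : ℝ) ≤ ((A : ℝ) + 2) * v n := by
      have := Nat.ceil_lt_add_one (show 0 ≤ ((A : ℝ) + 1) * v n by positivity)
      nlinarith
    have h4 := hX₀ X (by exact_mod_cast h2.trans hXv)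
    have h5 : Real.log (v n) ≤ Real.log X := Real.log_le_log hv0 hXv
    have h6 : (X : ℝ) / Real.log X ^ (P + B) ≤ ((A : ℝ) + 2) * v n / Real.log (v n) ^ (P + B) := by
      apply div_le_div₀ (by positivity) hX2 (by positivity)
      exact pow_le_pow_left₀ h3.le h5 _
    calc (({N : ℕ | 1 ≤ N ∧ N ≤ X ∧ Bad N}.ncard : ℕ) : ℝ) * Real.log (v n) ^ B / v n
        ≤ (((A : ℝ) + 2) * v n / Real.log (v n) ^ (P + B)) * Real.log (v n) ^ B / v n := by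
          apply div_le_div_of_nonneg_right _ hv0.le
          exact mul_le_mul_of_nonneg_right (h4.trans h6) (by positivity)
      _ = ((A : ℝ) + 2) * (Real.log (v n) ^ P)⁻¹ := by
          have : Real.log (v n) ≠ 0 := h3.ne'
          rw [pow_add]
          field_simp
      _ ≤ ((A : ℝ) + 2) * ((n : ℝ) ^ (2 : ℝ))⁻¹ := mul_le_mul_of_nonneg_left h1 (by positivity)
  have hall := ae_all_iff.2 key
  filter_upwards [hall] with α hα hα0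
  obtain ⟨A, hA⟩ := exists_nat_ge α
  obtain ⟨n₀, hn₀⟩ := hα A
  obtain ⟨n₁, hn₁⟩ := (hf.log_pow_le hv B).exists_forall_of_atTop
  refine ⟨max n₀ n₁, fun n hn N hN hw hbadN => ?_⟩
  refine absurd (hn₀ n ((le_max_left _ _).trans hn) N ⟨hN, ?_, hbadN⟩) (not_lt.2 hw)
  have h1 := hn₁ n ((le_max_right _ _).trans hn)
  have h2 := (abs_le.1 hw).2
  have h3 : α * v n ≤ A * v n := mul_le_mul_of_nonneg_right hA (by linarith [hv n])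
  have h4 : (N : ℝ) ≤ (⌈((A : ℝ) + 1) * v n⌉₊ : ℝ) := by
    refine le_trans ?_ (Nat.le_ceil _)
    linarith
  exact_mod_cast h4

/-- **Triples of windows of length a power of the logarithm.** -/
theorem ae_log3 (Bad : ℕ × ℕ × ℕ → Prop)
    (hbad : ∀ P : ℕ, ∃ X₀ : ℕ, ∀ X : ℕ, X₀ ≤ X →
      ({N : ℕ × ℕ × ℕ | (1 ≤ N.1 ∧ N.1 ≤ X) ∧ (1 ≤ N.2.1 ∧ N.2.1 ≤ X) ∧ (1 ≤ N.2.2 ∧ N.2.2 ≤ X) ∧
        Bad N}.ncard : ℝ) ≤ (X : ℝ) ^ 3 / Real.log X ^ P)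
    {v : ℕ → ℝ} (hv : ∀ n, 1 ≤ v n) (hf : Fast v) (B : ℕ) :
    ∀ᵐ p : ℝ × ℝ × ℝ, 0 < p.1 → 0 < p.2.1 → 0 < p.2.2 → ∃ n₀ : ℕ, ∀ n : ℕ, n₀ ≤ n → ∀ N : ℕ × ℕ × ℕ,
      1 ≤ N.1 → 1 ≤ N.2.1 → 1 ≤ N.2.2 → |(N.1 : ℝ) - p.1 * v n| ≤ (Real.log (v n)) ^ B →
      |(N.2.1 : ℝ) - p.2.1 * v n| ≤ (Real.log (v n)) ^ B → |(N.2.2 : ℝ) - p.2.2 * v n| ≤ (Real.log (v n)) ^ B →
      ¬ Bad N := by
  obtain ⟨P, hsum, hP⟩ := hf.summable
  obtain ⟨X₀, hX₀⟩ := hbad (P + 3 * B)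
  have key : ∀ A : ℕ, ∀ᵐ p : ℝ × ℝ × ℝ, ∃ n₀ : ℕ, ∀ n : ℕ, n₀ ≤ n →
      ∀ N ∈ {N : ℕ × ℕ × ℕ | (1 ≤ N.1 ∧ N.1 ≤ ⌈((A : ℝ) + 1) * v n⌉₊) ∧ (1 ≤ N.2.1 ∧ N.2.1 ≤ ⌈((A : ℝ) + 1) * v n⌉₊) ∧
        (1 ≤ N.2.2 ∧ N.2.2 ≤ ⌈((A : ℝ) + 1) * v n⌉₊) ∧ Bad N},
      ¬ (|(N.1 : ℝ) - p.1 * v n| ≤ (Real.log (v n)) ^ B ∧ |(N.2.1 : ℝ) - p.2.1 * v n| ≤ (Real.log (v n)) ^ B ∧
        |(N.2.2 : ℝ) - p.2.2 * v n| ≤ (Real.log (v n)) ^ B) := by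
    intro A
    have hA : (0 : ℝ) ≤ A := Nat.cast_nonneg A
    refine Pool.Agent.V11285.W3.ae_triples _ (fun n => ?_) hv (fun n => pow_nonneg (Real.log_nonneg (hv n)) _)
      (c := fun n => ((A : ℝ) + 2) ^ 3 * ((n : ℝ) ^ (2 : ℝ))⁻¹) ?_ (hsum.mul_left _)
    · refine ((Set.finite_Icc 1 ⌈((A : ℝ) + 1) * v n⌉₊).prod ((Set.finite_Icc 1 ⌈((A : ℝ) + 1) * v n⌉₊).prod
        (Set.finite_Icc 1 ⌈((A : ℝ) + 1) * v n⌉₊))).subset ?_
      rintro ⟨x, y, z⟩ ⟨h1, h2, h3, _⟩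
      exact ⟨h1, h2, h3⟩
    filter_upwards [hP, (hf.tendsto hv).eventually_ge_atTop (X₀ : ℝ), hf.log_tendsto.eventually_gt_atTop 0]
      with n h1 h2 h3
    have hv0 : 0 < v n := lt_of_lt_of_le one_pos (hv n)
    have hv1 := hv n
    set X : ℕ := ⌈((A : ℝ) + 1) * v n⌉₊ with hX
    have hXv : v n ≤ (X : ℝ) := by
      refine le_trans ?_ (Nat.le_ceil _)
      nlinarith
    have hX2 : (X : ℝ) ≤ ((A : ℝ) + 2) * v n := by
      have := Nat.ceil_lt_add_one (show 0 ≤ ((A : ℝ) + 1) * v n by positivity)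
      nlinarith
    have h4 := hX₀ X (by exact_mod_cast h2.trans hXv)
    have h5 : Real.log (v n) ≤ Real.log X := Real.log_le_log hv0 hXv
    have h6 : (X : ℝ) ^ 3 / Real.log X ^ (P + 3 * B) ≤ (((A : ℝ) + 2) * v n) ^ 3 / Real.log (v n) ^ (P + 3 * B) := by
      apply div_le_div₀ (by positivity) (pow_le_pow_left₀ (by positivity) hX2 3) (by positivity)
      exact pow_le_pow_left₀ h3.le h5 _
    refine (mul_le_mul_of_nonneg_right (h4.trans h6) (by positivity)).trans ?_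
    calc (((A : ℝ) + 2) * v n) ^ 3 / Real.log (v n) ^ (P + 3 * B) * (Real.log (v n) ^ B / v n) ^ 3
        = ((A : ℝ) + 2) ^ 3 * (Real.log (v n) ^ P)⁻¹ := by
          have h0 : Real.log (v n) ≠ 0 := h3.ne'
          rw [pow_add, mul_comm 3 B, pow_mul]
          field_simp
      _ ≤ ((A : ℝ) + 2) ^ 3 * ((n : ℝ) ^ (2 : ℝ))⁻¹ := mul_le_mul_of_nonneg_left h1 (by positivity)
  have hall := ae_all_iff.2 key
  filter_upwards [hall] with p hp hp1 hp2 hp3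
  obtain ⟨A, hA⟩ := exists_nat_ge (max p.1 (max p.2.1 p.2.2))
  obtain ⟨n₀, hn₀⟩ := hp A
  obtain ⟨n₁, hn₁⟩ := (hf.log_pow_le hv B).exists_forall_of_atTop
  have hle : ∀ n : ℕ, n₁ ≤ n → ∀ (N : ℕ) (α : ℝ), α ≤ A → |(N : ℝ) - α * v n| ≤ (Real.log (v n)) ^ B →
      N ≤ ⌈((A : ℝ) + 1) * v n⌉₊ := by
    intro n hn N α hα hw
    have h1 := hn₁ n hn
    have h2 := (abs_le.1 hw).2
    have h3 : α * v n ≤ A * v n := mul_le_mul_of_nonneg_right hα (by linarith [hv n])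
    have h4 : (N : ℝ) ≤ (⌈((A : ℝ) + 1) * v n⌉₊ : ℝ) := by
      refine le_trans ?_ (Nat.le_ceil _)
      linarith
    exact_mod_cast h4
  refine ⟨max n₀ n₁, fun n hn N hN1 hN2 hN3 hw1 hw2 hw3 hbadN => ?_⟩
  have hn1 := (le_max_right _ _).trans hn
  exact hn₀ n ((le_max_left _ _).trans hn) N
    ⟨⟨hN1, hle n hn1 _ _ ((le_max_left _ _).trans hA) hw1⟩,
      ⟨hN2, hle n hn1 _ _ (((le_max_left _ _).trans (le_max_right _ _)).trans hA) hw2⟩,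
      ⟨hN3, hle n hn1 _ _ (((le_max_right _ _).trans (le_max_right _ _)).trans hA) hw3⟩, hbadN⟩ ⟨hw1, hw2, hw3⟩

/-- examples: `v_n = b ^ n` -/
theorem fast_geom (b : ℝ) (hb : 1 < b) : Fast (fun n : ℕ => b ^ n) := by
  refine ⟨1 / 2, by norm_num, ?_⟩
  have hlb : 0 < Real.log b := Real.log_pos hb
  have h1 : Tendsto (fun n : ℕ => (n : ℝ) ^ (1 / 2 : ℝ)) atTop atTop :=
    (tendsto_rpow_atTop (by norm_num)).comp tendsto_natCast_atTop_atTop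
  filter_upwards [h1.eventually_ge_atTop (1 / Real.log b)] with n hn
  rw [Real.log_pow]
  have h2 : (n : ℝ) = (n : ℝ) ^ (1 / 2 : ℝ) * (n : ℝ) ^ (1 / 2 : ℝ) := by
    rw [← Real.rpow_add_of_nonneg (Nat.cast_nonneg n) (by norm_num) (by norm_num)]
    norm_num
  have h3 : 1 ≤ (n : ℝ) ^ (1 / 2 : ℝ) * Real.log b := by
    rwa [div_le_iff₀ hlb] at hn
  have h4 : (0 : ℝ) ≤ (n : ℝ) ^ (1 / 2 : ℝ) := by positivity
  calc (n : ℝ) ^ (1 / 2 : ℝ) = (n : ℝ) ^ (1 / 2 : ℝ) * 1 := (mul_one _).symm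
    _ ≤ (n : ℝ) ^ (1 / 2 : ℝ) * ((n : ℝ) ^ (1 / 2 : ℝ) * Real.log b) := mul_le_mul_of_nonneg_left h3 h4
    _ = (n : ℝ) * Real.log b := by
        conv_rhs => rw [h2]
        ring

end Pool.Agent.V11285.W4
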