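import Pool.Agent.V11285.SS
import Mathlib.NumberTheory.ArithmeticFunction.Misc

/-!
# Lower bounds `x ^ (1 - ε)` along `⌊α n ^ c⌋`

`power`: lower bounds `κ₀ x / φ x` where `φ x ≤ x ^ κ₁`, `κ₁ > 0` depending on `c` only. `parity`: its application to tuples of
almost primes with a prescribed parity of the number of the prime factors.
-/

set_option autoImplicit false

open Finset Filter Topology

namespace Pool.Agent.V11285.SV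

open Pool.Agent.Y854.PS Pool.Agent.Y854.GM
open Pool.Agent.V11285.SS (ev_pow tendsto_X)
open ArithmeticFunction (cardFactors)

theorem power (c : ℝ) (hc : 1 < c) : ∃ κ₁ : ℝ, 0 < κ₁ ∧ ∀ {ι : Type} [Countable ι] (P : ι → ℕ → Prop),
    ∃ E : Set ℝ, dimH E < 1 ∧ ∀ α : ℝ, 0 < α → α ∉ E → ∀ (k : ι) (κ₀ : ℝ) (φ : ℕ → ℝ), 0 < κ₀ →
      (∀ᶠ x : ℕ in atTop, 0 < φ x) → (∀ᶠ x : ℕ in atTop, φ x ≤ (x : ℝ) ^ κ₁) →
      (∀ᶠ x : ℕ in atTop, κ₀ * x / φ x ≤ (({n : ℕ | 1 ≤ n ∧ n ≤ x ∧ P k n}.ncard : ℕ) : ℝ)) →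
      ∀ᶠ N : ℕ in atTop, κ₀ / (4 * c) * N / φ ⌊α * (N : ℝ) ^ c⌋₊ ≤
        (({n : ℕ | 1 ≤ n ∧ n ≤ N ∧ P k ⌊α * (n : ℝ) ^ c⌋₊}.ncard : ℕ) : ℝ) := by
  classical
  obtain ⟨κ, hκ, hκ1, h⟩ := mean2 c hc
  refine ⟨κ / (2 * c), by positivity, fun {ι} _ P => ?_⟩
  obtain ⟨E, hE, hlaw⟩ := h (fun (k : ι) (t : ℕ) => if P k t then (1 : ℝ) else 0)
  refine ⟨E, hE, fun α hα hαE k κ₀ φ hκ₀ hφ0 hφ hcount => ?_⟩
  have hc0 : 0 < c := by linarith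
  obtain ⟨N0, hN0⟩ := hlaw α hα hαE k ⟨1, one_pos, fun m hm => by
    have h1 : (1 : ℝ) ≤ (m : ℝ) ^ κ := Real.one_le_rpow (by exact_mod_cast hm) hκ.le
    split_ifs <;> simp <;> linarith⟩
  have hXlim : Tendsto (fun N : ℕ => ⌊α * (N : ℝ) ^ c⌋₊) atTop atTop :=
    tendsto_nat_floor_atTop.comp
      (((tendsto_rpow_atTop hc0).comp tendsto_natCast_atTop_atTop).const_mul_atTop hα)
  have hη : 0 < κ / (2 * c) := by positivity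
  filter_upwards [eventually_ge_atTop (max N0 1), hXlim.eventually hφ0, hXlim.eventually hφ,
    hXlim.eventually hcount, ev_pow c 2 α hc0 hα, hXlim.eventually (eventually_ge_atTop 1),
    ev_pow (κ / 2) (α ^ (κ / (2 * c))) (κ₀ / (4 * c)) (by positivity) (by positivity)] with N hN g1 g2 g3 g4 g5 g6
  have hN1 : N0 ≤ N := (le_max_left _ _).trans hN
  have hN2 : (1 : ℝ) ≤ N := by exact_mod_cast (le_max_right _ _).trans hN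
  have hNpos : (0 : ℝ) < N := by linarith
  set X : ℕ := ⌊α * (N : ℝ) ^ c⌋₊ with hX
  have hlawN := hN0 N hN1
  have hX1 : (1 : ℝ) ≤ X := by exact_mod_cast g5
  have hX0 : (0 : ℝ) < X := by linarith
  have hXle : (X : ℝ) ≤ α * (N : ℝ) ^ c := Nat.floor_le (by positivity)
  have hXge : α * (N : ℝ) ^ c / 2 ≤ X := by
    have := Nat.lt_floor_add_one (α * (N : ℝ) ^ c)
    rw [← hX] at this
    linarith
  -- the count along the sequence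
  have e1 : (({n : ℕ | 1 ≤ n ∧ n ≤ N ∧ P k ⌊α * (n : ℝ) ^ c⌋₊}.ncard : ℕ) : ℝ) =
      ∑ n ∈ Icc 1 N, (fun t : ℕ => if P k t then (1 : ℝ) else 0) ⌊α * (n : ℝ) ^ c⌋₊ := by
    simp only
    rw [Finset.sum_boole, Nat.cast_inj, ← Set.ncard_coe_finset]
    congr 1
    ext n
    simp only [Finset.coe_filter, Finset.mem_Icc, Set.mem_ofPred_eq]
    tauto
  have e2 : (({n : ℕ | 1 ≤ n ∧ n ≤ X ∧ P k n}.ncard : ℕ) : ℝ) =
      ∑ t ∈ Ioc 0 X, (if P k t then (1 : ℝ) else 0) := by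
    rw [Finset.sum_boole, Nat.cast_inj, ← Set.ncard_coe_finset]
    congr 1
    ext n
    simp only [Finset.coe_filter, Finset.mem_Ioc, Set.mem_ofPred_eq]
    constructor
    · rintro ⟨q1, q2, q3⟩
      exact ⟨⟨by omega, q2⟩, q3⟩
    · rintro ⟨⟨q1, q2⟩, q3⟩
      exact ⟨by omega, q2, q3⟩
  rw [e2] at g3
  rw [e1]
  -- the weighted sum
  have hw : wt c X * ∑ t ∈ Ioc 0 X, (if P k t then (1 : ℝ) else 0) ≤
      ∑ t ∈ Ioc 0 X, wt c t * (if P k t then (1 : ℝ) else 0) := by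
    rw [Finset.mul_sum]
    refine Finset.sum_le_sum fun t ht => ?_
    rw [Finset.mem_Ioc] at ht
    have h2 := wt_anti hc ht.1 ht.2
    split_ifs
    · linarith
    · simp
  have hwt : wt c X = 1 / c * (X : ℝ) ^ (1 / c - 1) := rfl
  have hmain : κ₀ / c * (X : ℝ) ^ (1 / c) / φ X ≤ ∑ t ∈ Ioc 0 X, wt c t * (if P k t then (1 : ℝ) else 0) := by
    refine le_trans ?_ hw
    calc κ₀ / c * (X : ℝ) ^ (1 / c) / φ X = wt c X * (κ₀ * X / φ X) := by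
          have h3 : (X : ℝ) ^ (1 / c) = (X : ℝ) ^ (1 / c - 1) * X := by
            rw [Real.rpow_sub_one hX0.ne']
            field_simp
          rw [hwt, h3]
          field_simp
      _ ≤ wt c X * ∑ t ∈ Ioc 0 X, (if P k t then (1 : ℝ) else 0) :=
          mul_le_mul_of_nonneg_left g3 (wt_nonneg hc X)
  -- powers
  have hpow : (N : ℝ) / 2 ≤ α ^ (-(1 / c)) * (X : ℝ) ^ (1 / c) := by
    have h4 : (α * (N : ℝ) ^ c / 2) ^ (1 / c) ≤ (X : ℝ) ^ (1 / c) :=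
      Real.rpow_le_rpow (by positivity) hXge (by positivity)
    have h5 : (α * (N : ℝ) ^ c / 2) ^ (1 / c) = α ^ (1 / c) * N * (1 / 2 : ℝ) ^ (1 / c) := by
      rw [show α * (N : ℝ) ^ c / 2 = α * (N : ℝ) ^ c * (1 / 2) by ring,
        Real.mul_rpow (by positivity) (by norm_num), Real.mul_rpow hα.le (by positivity), ← Real.rpow_mul hNpos.le,
        mul_one_div_cancel hc0.ne', Real.rpow_one]
    have h6 : (1 / 2 : ℝ) ≤ (1 / 2 : ℝ) ^ (1 / c) := by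
      have : 1 / c ≤ 1 := by
        rw [div_le_one hc0]
        exact hc.le
      calc (1 / 2 : ℝ) = (1 / 2 : ℝ) ^ (1 : ℝ) := (Real.rpow_one _).symm
        _ ≤ (1 / 2 : ℝ) ^ (1 / c) := Real.rpow_le_rpow_of_exponent_ge (by norm_num) (by norm_num) this
    have h7 : α ^ (-(1 / c)) * α ^ (1 / c) = 1 := by
      rw [← Real.rpow_add hα]
      simp
    calc (N : ℝ) / 2 = (α ^ (-(1 / c)) * α ^ (1 / c)) * N * (1 / 2) := by rw [h7]; ring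
      _ ≤ (α ^ (-(1 / c)) * α ^ (1 / c)) * N * (1 / 2 : ℝ) ^ (1 / c) :=
          mul_le_mul_of_nonneg_left h6 (by rw [h7]; linarith)
      _ = α ^ (-(1 / c)) * (α * (N : ℝ) ^ c / 2) ^ (1 / c) := by rw [h5]; ring
      _ ≤ α ^ (-(1 / c)) * (X : ℝ) ^ (1 / c) := mul_le_mul_of_nonneg_left h4 (Real.rpow_nonneg hα.le _)
  have hmain2 : κ₀ / (2 * c) * N / φ X ≤
      α ^ (-(1 / c)) * ∑ t ∈ Ioc 0 X, wt c t * (if P k t then (1 : ℝ) else 0) := by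
    calc κ₀ / (2 * c) * N / φ X = κ₀ / c / φ X * (N / 2) := by field_simp
      _ ≤ κ₀ / c / φ X * (α ^ (-(1 / c)) * (X : ℝ) ^ (1 / c)) :=
          mul_le_mul_of_nonneg_left hpow (by positivity)
      _ = α ^ (-(1 / c)) * (κ₀ / c * (X : ℝ) ^ (1 / c) / φ X) := by ring
      _ ≤ _ := mul_le_mul_of_nonneg_left hmain (Real.rpow_nonneg hα.le _)
  -- the error
  have herr : (N : ℝ) ^ (1 - κ) ≤ κ₀ / (4 * c) * N / φ X := by
    rw [le_div_iff₀ g1]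
    have h8 : φ X ≤ κ₀ / (4 * c) * (N : ℝ) ^ κ := by
      calc φ X ≤ (X : ℝ) ^ (κ / (2 * c)) := g2
        _ ≤ (α * (N : ℝ) ^ c) ^ (κ / (2 * c)) := Real.rpow_le_rpow hX0.le hXle hη.le
        _ = α ^ (κ / (2 * c)) * (N : ℝ) ^ (κ / 2) := by
            rw [Real.mul_rpow hα.le (by positivity), ← Real.rpow_mul hNpos.le]
            congr 2
            field_simp
        _ ≤ κ₀ / (4 * c) * (N : ℝ) ^ (κ / 2) * (N : ℝ) ^ (κ / 2) :=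
            mul_le_mul_of_nonneg_right g6 (by positivity)
        _ = κ₀ / (4 * c) * (N : ℝ) ^ κ := by
            rw [mul_assoc, ← Real.rpow_add hNpos]
            congr 2
            ring
    calc (N : ℝ) ^ (1 - κ) * φ X ≤ (N : ℝ) ^ (1 - κ) * (κ₀ / (4 * c) * (N : ℝ) ^ κ) :=
          mul_le_mul_of_nonneg_left h8 (by positivity)
      _ = κ₀ / (4 * c) * ((N : ℝ) ^ (1 - κ) * (N : ℝ) ^ κ) := by ring
      _ = κ₀ / (4 * c) * N := by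
          rw [← Real.rpow_add hNpos]
          simp
  have h9 := (abs_le.1 hlawN).1
  have h10 : κ₀ / (2 * c) * N / φ X = κ₀ / (4 * c) * N / φ X + κ₀ / (4 * c) * N / φ X := by
    field_simp
    norm_num
  rw [h10] at hmain2
  linarith

/-- the numbers `m + h`, `h ∈ D`, have at most `R` prime factors, all greater than `m ^ δ` -/
def Al (D : Finset ℕ) (R : ℕ) (δ : ℝ) (m : ℕ) : Prop :=
  ∀ h ∈ D, cardFactors (m + h) ≤ R ∧ ∀ p : ℕ, p.Prime → p ∣ m + h → (m : ℝ) ^ δ < p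

/-- `N ^ (1 - η) ≤ N / (4 c X ^ ε)` -/
lemma final_pow {α c η ε : ℝ} (hα : 0 < α) (hc : 1 < c) (hη : 0 < η) (hε : 0 < ε) (hεη : ε ≤ η / (2 * (c + 1))) :
    ∀ᶠ N : ℕ in atTop, (N : ℝ) ^ (1 - η) ≤ 1 / (4 * c) * N / ((⌊α * (N : ℝ) ^ c⌋₊ : ℕ) : ℝ) ^ ε := by
  have hc0 : 0 < c := by linarith
  filter_upwards [(tendsto_X hα hc0).eventually (eventually_ge_atTop 1), eventually_ge_atTop (max 1 ⌈α⌉₊),
    ev_pow (η / 2) 1 (1 / (4 * c)) (by positivity) (by positivity)] with N h1 h2 h5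
  have hN1 : (1 : ℝ) ≤ N := by exact_mod_cast (le_max_left _ _).trans h2
  have hNα : α ≤ N := (Nat.le_ceil α).trans (by exact_mod_cast (le_max_right _ _).trans h2)
  have hNpos : (0 : ℝ) < N := by linarith
  have h4 : (0 : ℝ) < ((⌊α * (N : ℝ) ^ c⌋₊ : ℕ) : ℝ) := by exact_mod_cast h1
  have h3 : ((⌊α * (N : ℝ) ^ c⌋₊ : ℕ) : ℝ) ≤ (N : ℝ) ^ (c + 1) := by
    calc ((⌊α * (N : ℝ) ^ c⌋₊ : ℕ) : ℝ) ≤ α * (N : ℝ) ^ c := Nat.floor_le (by positivity)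
      _ ≤ N * (N : ℝ) ^ c := mul_le_mul_of_nonneg_right hNα (by positivity)
      _ = (N : ℝ) ^ (c + 1) := by rw [Real.rpow_add_one hNpos.ne']; ring
  have h6 : ((⌊α * (N : ℝ) ^ c⌋₊ : ℕ) : ℝ) ^ ε ≤ (N : ℝ) ^ (η / 2) := by
    calc ((⌊α * (N : ℝ) ^ c⌋₊ : ℕ) : ℝ) ^ ε ≤ ((N : ℝ) ^ (c + 1)) ^ ε := Real.rpow_le_rpow h4.le h3 hε.le
      _ = (N : ℝ) ^ ((c + 1) * ε) := (Real.rpow_mul hNpos.le _ _).symm
      _ ≤ (N : ℝ) ^ (η / 2) := by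
          apply Real.rpow_le_rpow_of_exponent_le hN1
          rw [le_div_iff₀ (by positivity)] at hεη
          linarith
  rw [le_div_iff₀ (Real.rpow_pos_of_pos h4 _)]
  calc (N : ℝ) ^ (1 - η) * ((⌊α * (N : ℝ) ^ c⌋₊ : ℕ) : ℝ) ^ ε ≤ (N : ℝ) ^ (1 - η) * (N : ℝ) ^ (η / 2) :=
        mul_le_mul_of_nonneg_left h6 (by positivity)
    _ = 1 * (N : ℝ) ^ (1 - η / 2) := by
        rw [← Real.rpow_add hNpos, one_mul]
        congr 1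
        ring
    _ ≤ 1 / (4 * c) * (N : ℝ) ^ (η / 2) * (N : ℝ) ^ (1 - η / 2) := mul_le_mul_of_nonneg_right h5 (by positivity)
    _ = 1 / (4 * c) * N := by
        rw [mul_assoc, ← Real.rpow_add hNpos]
        congr 1
        rw [show η / 2 + (1 - η / 2) = 1 by ring, Real.rpow_one]

/-- **Parity along sparse sequences.** -/
theorem parity (c : ℝ) (hc : 1 < c) :
    ∃ E : Set ℝ, dimH E < 1 ∧ ∀ α : ℝ, 0 < α → α ∉ E → ∀ D S : Finset ℕ,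
      (∀ ε : ℝ, 0 < ε → ∃ (R : ℕ) (δ : ℝ), 0 < δ ∧ ∃ x₀ : ℝ, ∀ x : ℝ, x₀ ≤ x →
        x ^ (1 - ε) ≤ ({n : ℕ | 0 < n ∧ (n : ℝ) ≤ x ∧
          (∀ h ∈ D, cardFactors (n + h) ≤ R ∧ ∀ p : ℕ, p.Prime → p ∣ n + h → x ^ δ < p) ∧
          Odd (∑ h ∈ S, cardFactors (n + h))}.ncard : ℝ) ∧
        x ^ (1 - ε) ≤ ({n : ℕ | 0 < n ∧ (n : ℝ) ≤ x ∧
          (∀ h ∈ D, cardFactors (n + h) ≤ R ∧ ∀ p : ℕ, p.Prime → p ∣ n + h → x ^ δ < p) ∧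
          Even (∑ h ∈ S, cardFactors (n + h))}.ncard : ℝ)) →
      ∀ η : ℝ, 0 < η → ∃ (R : ℕ) (δ : ℝ), 0 < δ ∧ ∀ᶠ N : ℕ in atTop,
        (N : ℝ) ^ (1 - η) ≤ ({n : ℕ | 1 ≤ n ∧ n ≤ N ∧ Al D R δ ⌊α * (n : ℝ) ^ c⌋₊ ∧
          Odd (∑ h ∈ S, cardFactors (⌊α * (n : ℝ) ^ c⌋₊ + h))}.ncard : ℝ) ∧
        (N : ℝ) ^ (1 - η) ≤ ({n : ℕ | 1 ≤ n ∧ n ≤ N ∧ Al D R δ ⌊α * (n : ℝ) ^ c⌋₊ ∧
          Even (∑ h ∈ S, cardFactors (⌊α * (n : ℝ) ^ c⌋₊ + h))}.ncard : ℝ) := by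
  have hc0 : 0 < c := by linarith
  obtain ⟨κ₁, hκ₁, hp⟩ := power c hc
  obtain ⟨E₁, hE₁, h₁⟩ := hp (fun (i : Finset ℕ × Finset ℕ × ℕ × ℕ) (m : ℕ) =>
    Al i.1 i.2.2.1 (1 / ((i.2.2.2 : ℝ) + 1)) m ∧ Odd (∑ h ∈ i.2.1, cardFactors (m + h)))
  obtain ⟨E₂, hE₂, h₂⟩ := hp (fun (i : Finset ℕ × Finset ℕ × ℕ × ℕ) (m : ℕ) =>
    Al i.1 i.2.2.1 (1 / ((i.2.2.2 : ℝ) + 1)) m ∧ Even (∑ h ∈ i.2.1, cardFactors (m + h)))
  refine ⟨E₁ ∪ E₂, ?_, fun α hα hαE D S H η hη => ?_⟩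
  · rw [dimH_union]
    exact max_lt hE₁ hE₂
  set ε : ℝ := min κ₁ (η / (2 * (c + 1))) with hεdef
  have hε : 0 < ε := lt_min hκ₁ (by positivity)
  obtain ⟨R, δ, hδ, x₀, hx₀⟩ := H ε hε
  obtain ⟨j, hj⟩ := exists_nat_ge (1 / δ)
  have hjδ : 1 / ((j : ℝ) + 1) ≤ δ := by
    rw [div_le_iff₀ hδ] at hj
    rw [div_le_iff₀ (by positivity)]
    nlinarith
  have hφ0 : ∀ᶠ x : ℕ in atTop, (0 : ℝ) < (x : ℝ) ^ ε := by
    filter_upwards [eventually_ge_atTop 1] with x hx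
    have : (0 : ℝ) < x := by exact_mod_cast hx
    positivity
  have hφ1 : ∀ᶠ x : ℕ in atTop, (x : ℝ) ^ ε ≤ (x : ℝ) ^ κ₁ := by
    filter_upwards [eventually_ge_atTop 1] with x hx
    exact Real.rpow_le_rpow_of_exponent_le (by exact_mod_cast hx) (min_le_left _ _)
  -- the rough integers
  have hal : ∀ (x n : ℕ), 0 < n → (n : ℝ) ≤ x →
      (∀ h ∈ D, cardFactors (n + h) ≤ R ∧ ∀ p : ℕ, p.Prime → p ∣ n + h → (x : ℝ) ^ δ < p) →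
      Al D R (1 / ((j : ℝ) + 1)) n := by
    intro x n hn hnx h h' hh'
    refine ⟨(h h' hh').1, fun p hp hd => lt_of_le_of_lt ?_ ((h h' hh').2 p hp hd)⟩
    have hn1 : (1 : ℝ) ≤ n := by exact_mod_cast hn
    exact (Real.rpow_le_rpow_of_exponent_le hn1 hjδ).trans (Real.rpow_le_rpow (by linarith) hnx hδ.le)
  have hx : ∀ᶠ x : ℕ in atTop, x₀ ≤ (x : ℝ) := tendsto_natCast_atTop_atTop.eventually (eventually_ge_atTop x₀)
  have hsplit : ∀ x : ℕ, 1 ≤ x → 1 * (x : ℝ) / (x : ℝ) ^ ε = (x : ℝ) ^ (1 - ε) := by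
    intro x hx
    have : (0 : ℝ) < x := by exact_mod_cast hx
    rw [Real.rpow_sub this, Real.rpow_one, one_mul]
  have a₁ : ∀ᶠ x : ℕ in atTop, 1 * (x : ℝ) / (x : ℝ) ^ ε ≤ (({n : ℕ | 1 ≤ n ∧ n ≤ x ∧
      (Al D R (1 / ((j : ℝ) + 1)) n ∧ Odd (∑ h ∈ S, cardFactors (n + h)))}.ncard : ℕ) : ℝ) := by
    filter_upwards [hx, eventually_ge_atTop 1] with x g1 g2
    rw [hsplit x g2]
    refine (hx₀ x g1).1.trans ?_
    rw [Nat.cast_le]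
    refine Set.ncard_le_ncard ?_ ((Set.finite_Icc 1 x).subset fun n hn => ⟨hn.1, hn.2.1⟩)
    rintro n ⟨q1, q2, q3, q4⟩
    exact ⟨q1, by exact_mod_cast q2, hal x n q1 q2 q3, q4⟩
  have a₂ : ∀ᶠ x : ℕ in atTop, 1 * (x : ℝ) / (x : ℝ) ^ ε ≤ (({n : ℕ | 1 ≤ n ∧ n ≤ x ∧
      (Al D R (1 / ((j : ℝ) + 1)) n ∧ Even (∑ h ∈ S, cardFactors (n + h)))}.ncard : ℕ) : ℝ) := by
    filter_upwards [hx, eventually_ge_atTop 1] with x g1 g2
    rw [hsplit x g2]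
    refine (hx₀ x g1).2.trans ?_
    rw [Nat.cast_le]
    refine Set.ncard_le_ncard ?_ ((Set.finite_Icc 1 x).subset fun n hn => ⟨hn.1, hn.2.1⟩)
    rintro n ⟨q1, q2, q3, q4⟩
    exact ⟨q1, by exact_mod_cast q2, hal x n q1 q2 q3, q4⟩
  have b₁ := h₁ α hα (fun h => hαE (Or.inl h)) (D, S, R, j) 1 (fun x : ℕ => (x : ℝ) ^ ε) one_pos hφ0 hφ1 a₁
  have b₂ := h₂ α hα (fun h => hαE (Or.inr h)) (D, S, R, j) 1 (fun x : ℕ => (x : ℝ) ^ ε) one_pos hφ0 hφ1 a₂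
  refine ⟨R, 1 / ((j : ℝ) + 1), by positivity, ?_⟩
  filter_upwards [b₁, b₂, final_pow hα hc hη hε (min_le_right _ _)] with N g1 g2 g3
  exact ⟨g3.trans g1, g3.trans g2⟩

end Pool.Agent.V11285.SV
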