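import Pool.Agent.V11326.WA

/-! Windows around `± α v_n` for sets of integers with `O (X (log X) ^ (-δ))` elements up to `X`; the sequence `v_n` and the
lengths `L_n` of the windows satisfy `∑ L_n (log v_n) ^ (-δ) < ∞`. -/

set_option autoImplicit false

open Finset Filter Topology MeasureTheory

namespace Pool.Agent.V11285.W8

theorem ae_thinZ (Bad : ℤ → Prop) {δ C : ℝ} (hδ : 0 < δ)
    (hbad : ∀ X : ℕ, 3 ≤ X → ({d : ℤ | d.natAbs ≤ X ∧ Bad d}.ncard : ℝ) ≤ C * X * Real.log X ^ (-δ))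
    {v L : ℕ → ℝ} (hv : ∀ n, 1 ≤ v n) (hvt : Tendsto v atTop atTop) (hL0 : ∀ n, 0 ≤ L n)
    (hLv : ∀ᶠ n in atTop, L n ≤ v n) (hsum : Summable fun n => L n * Real.log (v n) ^ (-δ)) :
    ∀ᵐ α : ℝ, 0 < α → ∃ n₀ : ℕ, ∀ n : ℕ, n₀ ≤ n → ∀ d : ℤ, d ≠ 0 → |(|(d : ℝ)|) - α * v n| ≤ L n → ¬ Bad d := by
  have hlogt : Tendsto (fun n => Real.log (v n)) atTop atTop := Real.tendsto_log_atTop.comp hvt
  have key : ∀ A : ℕ, ∀ᵐ α : ℝ, ∃ n₀ : ℕ, ∀ n : ℕ, n₀ ≤ n →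
      ∀ N ∈ {N : ℕ | 1 ≤ N ∧ N ≤ ⌈((A : ℝ) + 1) * v n⌉₊ ∧ ∃ d : ℤ, d.natAbs = N ∧ Bad d},
        L n < |(N : ℝ) - α * v n| := by
    intro A
    have hA : (0 : ℝ) ≤ A := Nat.cast_nonneg A
    refine Pool.Agent.V11326.WA.ae_fin _ (fun n => (Set.finite_Icc 1 ⌈((A : ℝ) + 1) * v n⌉₊).subset
      fun N hN => ⟨hN.1, hN.2.1⟩) hv hL0
      (c := fun n => (|C| * ((A : ℝ) + 2)) * (L n * Real.log (v n) ^ (-δ))) ?_ (hsum.mul_left _)
    filter_upwards [hvt.eventually_ge_atTop 3, hlogt.eventually_gt_atTop 0] with n h2 h3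
    have hv0 : 0 < v n := lt_of_lt_of_le one_pos (hv n)
    have hv1 := hv n
    set X : ℕ := ⌈((A : ℝ) + 1) * v n⌉₊ with hX
    have hXv : v n ≤ (X : ℝ) := by
      refine le_trans ?_ (Nat.le_ceil _)
      nlinarith
    have hX2 : (X : ℝ) ≤ ((A : ℝ) + 2) * v n := by
      have := Nat.ceil_lt_add_one (show 0 ≤ ((A : ℝ) + 1) * v n by positivity)
      nlinarith
    have hX3 : 3 ≤ X := by
      have : (3 : ℝ) ≤ X := h2.trans hXv
      exact_mod_cast this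
    have h4 := hbad X hX3
    have hfin : {d : ℤ | d.natAbs ≤ X ∧ Bad d}.Finite := by
      refine (Set.finite_Icc (-(X : ℤ)) X).subset ?_
      rintro d ⟨hd, -⟩
      rw [Set.mem_Icc]
      omega
    have h5 : ({N : ℕ | 1 ≤ N ∧ N ≤ X ∧ ∃ d : ℤ, d.natAbs = N ∧ Bad d}.ncard : ℝ) ≤
        ({d : ℤ | d.natAbs ≤ X ∧ Bad d}.ncard : ℝ) := by
      have hsub : {N : ℕ | 1 ≤ N ∧ N ≤ X ∧ ∃ d : ℤ, d.natAbs = N ∧ Bad d} ⊆
          Int.natAbs '' {d : ℤ | d.natAbs ≤ X ∧ Bad d} := by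
        rintro N ⟨-, hN, d, hd, hb⟩
        exact ⟨d, ⟨hd ▸ hN, hb⟩, hd⟩
      exact_mod_cast (Set.ncard_le_ncard hsub (hfin.image _)).trans (Set.ncard_image_le hfin)
    have h6 : Real.log X ^ (-δ) ≤ Real.log (v n) ^ (-δ) :=
      Real.rpow_le_rpow_of_nonpos h3 (Real.log_le_log hv0 hXv) (by linarith)
    have h7 : (0 : ℝ) ≤ Real.log X ^ (-δ) := Real.rpow_nonneg (h3.le.trans (Real.log_le_log hv0 hXv)) _
    have h8 : C * (X : ℝ) * Real.log X ^ (-δ) ≤ |C| * (((A : ℝ) + 2) * v n) * Real.log (v n) ^ (-δ) := by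
      apply mul_le_mul _ h6 h7 (by positivity)
      exact mul_le_mul (le_abs_self C) hX2 (Nat.cast_nonneg _) (abs_nonneg C)
    calc (({N : ℕ | 1 ≤ N ∧ N ≤ X ∧ ∃ d : ℤ, d.natAbs = N ∧ Bad d}.ncard : ℕ) : ℝ) * L n / v n
        ≤ (|C| * (((A : ℝ) + 2) * v n) * Real.log (v n) ^ (-δ)) * L n / v n := by
          apply div_le_div_of_nonneg_right _ hv0.le
          exact mul_le_mul_of_nonneg_right ((h5.trans h4).trans h8) (hL0 n)
      _ = (|C| * ((A : ℝ) + 2)) * (L n * Real.log (v n) ^ (-δ)) := by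
          field_simp
  have hall := ae_all_iff.2 key
  obtain ⟨n₁, hn₁⟩ := hLv.exists_forall_of_atTop
  filter_upwards [hall] with α hα hα0
  obtain ⟨A, hA⟩ := exists_nat_ge α
  obtain ⟨n₀, hn₀⟩ := hα A
  refine ⟨max n₀ n₁, fun n hn d hd0 hw hb => ?_⟩
  have h1 := hn₁ n ((le_max_right _ _).trans hn)
  have hdr : ((d.natAbs : ℕ) : ℝ) = |(d : ℝ)| := by rw [Nat.cast_natAbs, Int.cast_abs]
  rw [← hdr] at hw
  have h2 := (abs_le.1 hw).2
  have h3 : α * v n ≤ A * v n := mul_le_mul_of_nonneg_right hA (by linarith [hv n])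
  have h4 : ((d.natAbs : ℕ) : ℝ) ≤ (⌈((A : ℝ) + 1) * v n⌉₊ : ℝ) := by
    refine le_trans ?_ (Nat.le_ceil _)
    linarith
  exact absurd (hn₀ n ((le_max_left _ _).trans hn) d.natAbs
    ⟨Int.natAbs_pos.2 hd0, by exact_mod_cast h4, d, rfl, hb⟩) (not_lt.2 hw)

/-- an example: `v_n = 2 ^ (2 ^ n)`, `L_n = (log v_n) ^ κ`, `κ < δ` -/
theorem summable_example {δ κ : ℝ} (h : κ < δ) :
    Summable fun n : ℕ => Real.log ((2 : ℝ) ^ (2 ^ n)) ^ κ * Real.log ((2 : ℝ) ^ (2 ^ n)) ^ (-δ) := by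
  have hl : 0 < Real.log 2 := Real.log_pos (by norm_num)
  have e : ∀ n : ℕ, Real.log ((2 : ℝ) ^ (2 ^ n)) ^ κ * Real.log ((2 : ℝ) ^ (2 ^ n)) ^ (-δ) =
      Real.log 2 ^ (κ - δ) * ((2 : ℝ) ^ (κ - δ)) ^ n := by
    intro n
    have h1 : Real.log ((2 : ℝ) ^ (2 ^ n)) = (2 : ℝ) ^ n * Real.log 2 := by
      rw [Real.log_pow]
      push_cast
      ring
    have h2 : 0 < (2 : ℝ) ^ n * Real.log 2 := by positivity
    rw [h1, ← Real.rpow_add h2, Real.mul_rpow (by positivity) hl.le, ← Real.rpow_natCast ((2 : ℝ) ^ (κ - δ)),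
      ← Real.rpow_mul (by norm_num), ← Real.rpow_natCast, ← Real.rpow_mul (by norm_num)]
    ring_nf
  simp_rw [e]
  apply Summable.mul_left
  apply summable_geometric_of_lt_one (by positivity)
  exact Real.rpow_lt_one_of_one_lt_of_neg (by norm_num) (by linarith)

end Pool.Agent.V11285.W8
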