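import Pool.Agent.Y854.GM.WinV

/-! Sets of rational numbers with `O ((log B) ^ s)` elements of every denominator `v ≤ B` and of numerator at most `B`:
windows and Diophantine approximations without elements of the set. -/

set_option autoImplicit false

open Finset Filter Topology MeasureTheory

namespace Pool.Agent.V11285.FW

/-- the exponent of convergence of the sequence `v` is at most `τ` -/
def ExpLe (v : ℕ → ℝ) (τ : ℝ) : Prop := ∀ t : ℝ, τ < t → Summable (fun k : ℕ => (v k) ^ (-t))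

/-- at most `C (log B) ^ s` elements with denominator `v ≤ B` and numerator at most `B` in absolute value -/
def Few (S : Set ℚ) : Prop := ∃ C s : ℕ, ∀ B v : ℕ, 2 ≤ B → v ≤ B → ∀ T : Finset ℚ,
  (∀ t ∈ T, t.den = v ∧ |t.num| ≤ B ∧ t ∈ S) → (T.card : ℝ) ≤ C * Real.log B ^ s

theorem finite_of_card_le {α : Type*} {S : Set α} {M : ℝ} (h : ∀ F : Finset α, (F : Set α) ⊆ S → (F.card : ℝ) ≤ M) :
    S.Finite ∧ (S.ncard : ℝ) ≤ M := by
  have hfin : S.Finite := by
    by_contra hinf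
    obtain ⟨F, hF, hF2⟩ := (show S.Infinite from hinf).exists_subset_card_eq (⌊M⌋₊ + 1)
    have h1 := h F hF
    rw [hF2] at h1
    push_cast at h1
    exact absurd h1 (not_le.2 (Nat.lt_floor_add_one _))
  refine ⟨hfin, ?_⟩
  rw [Set.ncard_eq_toFinset_card _ hfin]
  exact h _ (by simp)

/-- powers of logarithms are small -/
theorem log_pow_le (C s : ℕ) (K c ε : ℝ) (hK : 1 ≤ K) (hc : 1 ≤ c) (hε : 0 < ε) :
    ∃ C' : ℝ, ∀ x y : ℝ, 1 ≤ x → 1 ≤ y → y ≤ K * x ^ c → C * Real.log y ^ s ≤ C' * x ^ ε := by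
  set δ : ℝ := ε / (c * ((s : ℝ) + 1)) with hδ
  have hc0 : 0 < c := by linarith
  have hδ0 : 0 < δ := by positivity
  refine ⟨C * (K ^ δ / δ) ^ s, fun x y hx hy hyx => ?_⟩
  have hx0 : 0 < x := by linarith
  have hy0 : 0 < y := by linarith
  have h1 : Real.log y ≤ y ^ δ / δ := Real.log_le_rpow_div hy0.le hδ0
  have h2 : y ^ δ ≤ K ^ δ * x ^ (c * δ) := by
    calc y ^ δ ≤ (K * x ^ c) ^ δ := Real.rpow_le_rpow hy0.le hyx hδ0.le
      _ = K ^ δ * x ^ (c * δ) := by
          rw [Real.mul_rpow (by linarith) (Real.rpow_nonneg hx0.le _), ← Real.rpow_mul hx0.le]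
  have h3 : Real.log y ≤ K ^ δ / δ * x ^ (c * δ) := by
    refine h1.trans ?_
    rw [div_mul_eq_mul_div]
    exact div_le_div_of_nonneg_right h2 hδ0.le
  have h4 : Real.log y ^ s ≤ (K ^ δ / δ * x ^ (c * δ)) ^ s := pow_le_pow_left₀ (Real.log_nonneg hy) h3 s
  have h5 : (x ^ (c * δ)) ^ s ≤ x ^ ε := by
    rw [← Real.rpow_natCast, ← Real.rpow_mul hx0.le]
    apply Real.rpow_le_rpow_of_exponent_le hx
    rw [hδ]
    have hs0 : (0 : ℝ) ≤ s := Nat.cast_nonneg s
    have e : c * (ε / (c * ((s : ℝ) + 1))) * s = ε * (s / ((s : ℝ) + 1)) := by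
      field_simp
    rw [e]
    have h6 : (s : ℝ) / ((s : ℝ) + 1) ≤ 1 := by
      rw [div_le_one (by positivity)]
      linarith
    nlinarith
  calc (C : ℝ) * Real.log y ^ s ≤ C * ((K ^ δ / δ) ^ s * (x ^ (c * δ)) ^ s) := by
        rw [← mul_pow]
        exact mul_le_mul_of_nonneg_left h4 (Nat.cast_nonneg C)
    _ ≤ C * ((K ^ δ / δ) ^ s * x ^ ε) := by
        apply mul_le_mul_of_nonneg_left _ (Nat.cast_nonneg C)
        apply mul_le_mul_of_nonneg_left h5
        have : 0 ≤ K ^ δ := Real.rpow_nonneg (by linarith) _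
        positivity
    _ = C * (K ^ δ / δ) ^ s * x ^ ε := by ring

/-- windows -/
theorem windows {S : Set ℚ} (hS : Few S) {v : ℕ → ℝ} {q : ℕ → ℕ} {τ θ c : ℝ} (hpos : ∀ k, 1 ≤ v k) (hτ : 0 ≤ τ)
    (hv : ExpLe v τ) (hθ : θ < 1) (hq : ∀ k, (q k : ℝ) ≤ (v k) ^ c) :
    ∃ E : Set ℝ, dimH E ≤ ENNReal.ofReal (τ / (1 - θ)) ∧ ∀ α : ℝ, 0 < α → α ∉ E →
      ∃ k₀ : ℕ, ∀ k : ℕ, k₀ ≤ k → ∀ t : ℚ, t.den = q k → |(t.num : ℝ) - α * v k| ≤ (v k) ^ θ → t ∉ S := by
  obtain ⟨C, s, hC⟩ := hS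
  have htv : Tendsto v atTop atTop :=
    Pool.Agent.Y854.GM.tendsto_of_expLe (fun k => lt_of_lt_of_le one_pos (hpos k)) hτ hv
  obtain ⟨E, hE1, hE2⟩ := Pool.Agent.Y854.GM.windowsV (fun k => {t : ℚ | t ∈ S ∧ t.den = q k ∧ 0 ≤ t.num})
    (fun _ t => (t.num : ℝ)) (v := v) (s := 0) (τ := τ) (θ := θ) 1 hpos hτ hv le_rfl hθ (by
      intro A ε hε
      have hA0 : (0 : ℝ) ≤ A := Nat.cast_nonneg A
      obtain ⟨C', hC'⟩ := log_pow_le C s ((A : ℝ) + 4) (max 1 c) ε (by linarith) (le_max_left _ _) hε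
      refine ⟨C', 0, fun k _ => ?_⟩
      rw [zero_add]
      have hk1 := hpos k
      set B : ℕ := max 2 (max ⌈((A : ℝ) + 1) * v k⌉₊ (q k)) with hB
      have hB1 : (1 : ℝ) ≤ B := by
        have : 1 ≤ B := le_trans (by norm_num) (le_max_left 2 _)
        exact_mod_cast this
      have hvc : v k ≤ (v k) ^ (max 1 c) := by
        calc v k = (v k) ^ (1 : ℝ) := (Real.rpow_one _).symm
          _ ≤ (v k) ^ (max 1 c) := Real.rpow_le_rpow_of_exponent_le hk1 (le_max_left _ _)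
      have hvc2 : (v k) ^ c ≤ (v k) ^ (max 1 c) := Real.rpow_le_rpow_of_exponent_le hk1 (le_max_right _ _)
      have hBle : (B : ℝ) ≤ ((A : ℝ) + 4) * (v k) ^ (max 1 c) := by
        have h1 : (⌈((A : ℝ) + 1) * v k⌉₊ : ℝ) ≤ ((A : ℝ) + 2) * v k := by
          have := Nat.ceil_lt_add_one (show 0 ≤ ((A : ℝ) + 1) * v k by positivity)
          nlinarith
        rw [hB]
        push_cast
        refine max_le ?_ (max_le ?_ ?_)
        · nlinarith
        · nlinarith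
        · have := hq k
          nlinarith
      have hM := hC' (v k) B hk1 hB1 hBle
      have hgoal := finite_of_card_le (S := {t : ℚ | t ∈ {t : ℚ | t ∈ S ∧ t.den = q k ∧ 0 ≤ t.num} ∧
        (t.num : ℝ) ≤ ((A : ℝ) + 1) * v k}) (M := C' * (v k) ^ ε) (by
          intro F hF
          refine (hC B (q k) (le_max_left _ _) ((le_max_right _ _).trans (le_max_right _ _)) F
            fun t ht => ?_).trans hM
          obtain ⟨⟨h1, h2, h3⟩, h4⟩ := hF ht
          refine ⟨h2, ?_, h1⟩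
          rw [abs_of_nonneg h3]
          have h5 : (t.num : ℝ) ≤ (⌈((A : ℝ) + 1) * v k⌉₊ : ℝ) := h4.trans (Nat.le_ceil _)
          have h6 : t.num ≤ ((⌈((A : ℝ) + 1) * v k⌉₊ : ℕ) : ℤ) := by exact_mod_cast h5
          have h7 : ⌈((A : ℝ) + 1) * v k⌉₊ ≤ B := (le_max_left _ _).trans (le_max_right _ _)
          exact h6.trans (Int.ofNat_le.2 h7))
      exact hgoal)
  refine ⟨E, by rwa [zero_add] at hE1, fun α hα hαE => ?_⟩
  obtain ⟨k₀, hk₀⟩ := hE2 α hα hαE
  have h1 : Tendsto (fun k => (v k) ^ (1 - θ)) atTop atTop := (tendsto_rpow_atTop (by linarith)).comp htv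
  obtain ⟨k₁, hk₁⟩ := (h1.eventually_ge_atTop (1 / α)).exists_forall_of_atTop
  refine ⟨max k₀ k₁, fun k hk t ht hw hmem => ?_⟩
  have hk0 : 0 < v k := lt_of_lt_of_le one_pos (hpos k)
  have h2 : 0 ≤ t.num := by
    have h3 := hk₁ k ((le_max_right _ _).trans hk)
    have h4 : (v k) ^ θ ≤ α * v k := by
      have h5 : (v k) ^ θ * (v k) ^ (1 - θ) = v k := by
        rw [← Real.rpow_add hk0]
        simp
      rw [div_le_iff₀ hα] at h3
      have h6 : 0 ≤ (v k) ^ θ := Real.rpow_nonneg hk0.le _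
      nlinarith
    have h7 := (abs_le.1 hw).1
    have h8 : (0 : ℝ) ≤ t.num := by linarith
    exact_mod_cast h8
  have h3 := hk₀ k ((le_max_left _ _).trans hk) t ⟨hmem, ht, h2⟩
  rw [one_mul] at h3
  exact absurd hw (not_le.2 h3)

/-- The property `P` of rational numbers has no exceptions in windows and among good approximations, for most `α > 0`:
(1) for all sequences `v ≥ 1` with exponent of convergence at most `τ` and denominators `q_k ≤ v_k ^ c`, for all `α`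
outside a set of dimension at most `τ / (1 - θ)` and all large `k`, all `t = u / q_k` in lowest terms with
`|u - α v_k| ≤ v_k ^ θ` have the property; (2) if `τ = 0` one set of dimension `0` serves all `θ < 1`; (3) for all `α`
outside a set of dimension at most `1 / β` all but finitely many `t = u / q` with `|α - t| ≤ q ^ (-β)` have the
property. -/
def AllWindows (P : ℚ → Prop) : Prop :=
  (∀ (v : ℕ → ℝ) (q : ℕ → ℕ) (τ θ c : ℝ), (∀ k, 1 ≤ v k) → 0 ≤ τ → ExpLe v τ → θ < 1 →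
    (∀ k, (q k : ℝ) ≤ (v k) ^ c) →
    ∃ E : Set ℝ, dimH E ≤ ENNReal.ofReal (τ / (1 - θ)) ∧ ∀ α : ℝ, 0 < α → α ∉ E →
      ∃ k₀ : ℕ, ∀ k : ℕ, k₀ ≤ k → ∀ t : ℚ, t.den = q k → |(t.num : ℝ) - α * v k| ≤ (v k) ^ θ → P t) ∧
  (∀ (v : ℕ → ℝ) (q : ℕ → ℕ) (c : ℝ), (∀ k, 1 ≤ v k) → ExpLe v 0 → (∀ k, (q k : ℝ) ≤ (v k) ^ c) →
    ∃ E : Set ℝ, dimH E = 0 ∧ ∀ α : ℝ, 0 < α → α ∉ E → ∀ θ : ℝ, θ < 1 →
      ∃ k₀ : ℕ, ∀ k : ℕ, k₀ ≤ k → ∀ t : ℚ, t.den = q k → |(t.num : ℝ) - α * v k| ≤ (v k) ^ θ → P t) ∧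
  (∀ β : ℝ, 1 < β → ∃ E : Set ℝ, dimH E ≤ ENNReal.ofReal (1 / β) ∧ ∀ α : ℝ, 0 < α → α ∉ E →
    {t : ℚ | |α - t| ≤ (t.den : ℝ) ^ (-β) ∧ ¬ P t}.Finite)

/-- **The windows and approximations of a property with few exceptions.** -/
theorem allWindows {P : ℚ → Prop} (h : Few {t | ¬ P t}) : AllWindows P := by
  refine ⟨fun v q τ θ c hpos hτ hv hθ hq => ?_, fun v q c hpos hv hq => ?_, fun β hβ => ?_⟩
  · obtain ⟨E, hE1, hE2⟩ := windows h hpos hτ hv hθ hq
    refine ⟨E, hE1, fun α hα hαE => ?_⟩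
    obtain ⟨k₀, hk₀⟩ := hE2 α hα hαE
    exact ⟨k₀, fun k hk t ht hw => not_not.1 (hk₀ k hk t ht hw)⟩
  · have hj1 : ∀ j : ℕ, 1 - 1 / ((j : ℝ) + 1) < 1 := fun j => by
      have : (0 : ℝ) < 1 / ((j : ℝ) + 1) := by positivity
      linarith
    have hall := fun j : ℕ => windows h (θ := 1 - 1 / ((j : ℝ) + 1)) hpos le_rfl hv (hj1 j) hq
    choose E hE1 hE2 using hall
    refine ⟨⋃ j, E j, ?_, fun α hα hαE θ hθ => ?_⟩
    · rw [dimH_iUnion]
      apply le_antisymm _ bot_le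
      refine iSup_le fun j => (hE1 j).trans ?_
      simp
    · obtain ⟨j, hj⟩ := exists_nat_ge (1 / (1 - θ))
      have h1 : 0 < 1 - θ := by linarith
      have hjθ : θ ≤ 1 - 1 / ((j : ℝ) + 1) := by
        have h2 : 1 / ((j : ℝ) + 1) ≤ 1 - θ := by
          rw [div_le_iff₀ h1] at hj
          rw [div_le_iff₀ (by positivity)]
          nlinarith
        linarith
      obtain ⟨k₀, hk₀⟩ := hE2 j α hα (fun h => hαE (Set.mem_iUnion.2 ⟨j, h⟩))
      exact ⟨k₀, fun k hk t ht hw => not_not.1 (hk₀ k hk t ht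
        (hw.trans (Real.rpow_le_rpow_of_exponent_le (hpos k) hjθ)))⟩
  · have hv1 : ∀ k : ℕ, (1 : ℝ) ≤ (k : ℝ) + 1 := fun k => by
      have : (0 : ℝ) ≤ k := Nat.cast_nonneg k
      linarith
    have hexp : ExpLe (fun k : ℕ => (k : ℝ) + 1) 1 := by
      have := Pool.Agent.Y854.GM.expLe_pow 1 one_pos
      intro t ht
      have h1 := this t (by simpa using ht)
      simpa using h1
    obtain ⟨E, hE1, hE2⟩ := windows h (v := fun k : ℕ => (k : ℝ) + 1) (q := fun k => k + 1) (τ := 1) (θ := 1 - β)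
      (c := 1) hv1 zero_le_one hexp (by linarith) (fun k => by simp)
    refine ⟨E, by rwa [sub_sub_cancel] at hE1, fun α hα hαE => ?_⟩
    obtain ⟨k₀, hk₀⟩ := hE2 α hα hαE
    -- the denominators of the exceptions are bounded
    have hden : ∀ t : ℚ, |α - t| ≤ (t.den : ℝ) ^ (-β) → ¬ P t → t.den ≤ k₀ := by
      intro t ht hPt
      by_contra hcon
      push Not at hcon
      have hd1 : 1 ≤ t.den := t.den_pos
      have hd0 : (0 : ℝ) < t.den := by exact_mod_cast t.den_pos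
      have hcast : ((t.den - 1 : ℕ) : ℝ) + 1 = t.den := by
        rw [Nat.cast_sub hd1]
        push_cast
        ring
      refine hk₀ (t.den - 1) (by omega) t (by omega) ?_ hPt
      rw [hcast]
      have h1 : (t.num : ℝ) = t * t.den := by
        have := Rat.mul_den_eq_num t
        exact_mod_cast this.symm
      have h2 : (t.num : ℝ) - α * t.den = -((α - t) * t.den) := by
        rw [h1]
        ring
      rw [h2, abs_neg, abs_mul, abs_of_pos hd0]
      calc |α - t| * (t.den : ℝ) ≤ (t.den : ℝ) ^ (-β) * (t.den : ℝ) := mul_le_mul_of_nonneg_right ht hd0.le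
        _ = (t.den : ℝ) ^ (1 - β) := by
            rw [Real.rpow_sub hd0, Real.rpow_one, Real.rpow_neg hd0.le]
            ring
    have hfin : (Set.Icc (-(⌈(α + 1) * k₀⌉ : ℤ)) ⌈(α + 1) * k₀⌉ ×ˢ Set.Icc 0 k₀ : Set (ℤ × ℕ)).Finite :=
      (Set.finite_Icc _ _).prod (Set.finite_Icc _ _)
    refine Set.Finite.of_finite_image (f := fun t : ℚ => (t.num, t.den)) (hfin.subset ?_) ?_
    · rintro _ ⟨t, ⟨ht, hPt⟩, rfl⟩
      have hd := hden t ht hPt
      have hd0 : (0 : ℝ) < t.den := by exact_mod_cast t.den_pos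
      have hd1 : (1 : ℝ) ≤ t.den := by exact_mod_cast t.den_pos
      have h1 : (t.num : ℝ) = t * t.den := by
        have := Rat.mul_den_eq_num t
        exact_mod_cast this.symm
      have h2 : |α - t| ≤ 1 := by
        refine ht.trans ?_
        rw [Real.rpow_neg hd0.le]
        exact inv_le_one_of_one_le₀ (Real.one_le_rpow hd1 (by linarith))
      have h3 : |(t : ℝ)| ≤ α + 1 := by
        have := abs_le.1 h2
        rw [abs_le]
        constructor <;> linarith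
      have h4 : |(t.num : ℝ)| ≤ (α + 1) * k₀ := by
        rw [h1, abs_mul, abs_of_pos hd0]
        have : (t.den : ℝ) ≤ k₀ := by exact_mod_cast hd
        exact mul_le_mul h3 this hd0.le (by linarith)
      have h5 := abs_le.1 (h4.trans (Int.le_ceil _))
      refine ⟨⟨?_, ?_⟩, Nat.zero_le _, hd⟩
      · have := h5.1
        exact_mod_cast this
      · have := h5.2
        exact_mod_cast this
    · intro t _ u _ htu
      simp only [Prod.mk.injEq] at htu
      exact Rat.ext htu.1 htu.2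

end Pool.Agent.V11285.FW
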