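import Pool.Agent.Y854.GM.Sets

/-!
# Densities along `⌊α n ^ c⌋`: equivalence

For every countable family of sets of natural numbers there is a set `E` of Hausdorff dimension less than `1` such that for all
`α > 0` outside `E` and every set `P` of the family: `P` has the natural density `L` if and only if `P` has the density `L` along
the sequence `⌊α n ^ c⌋`.
-/

set_option autoImplicit false

open Finset Filter Topology

namespace Pool.Agent.V11285.SP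

open Pool.Agent.Y854.PS Pool.Agent.Y854.GM
open Pool.Agent.Y854.ST (sum_wt_up abel_incr wsum)

/-- the weighted sums are small if the sums along the sequence are -/
lemma weighted {α c κ : ℝ} (hα : 0 < α) (hc : 1 < c) (hκ : 0 < κ) (u : ℕ → ℝ) (hu : ∀ m, |u m| ≤ 1) (N0 : ℕ)
    (hlaw : ∀ N : ℕ, N0 ≤ N →
      |∑ n ∈ Icc 1 N, u ⌊α * (n : ℝ) ^ c⌋₊ -
        α ^ (-(1 / c)) * ∑ t ∈ Ioc 0 ⌊α * (N : ℝ) ^ c⌋₊, wt c t * u t| ≤ (N : ℝ) ^ (1 - κ)) {L : ℝ}
    (hlim : Tendsto (fun N : ℕ => (∑ n ∈ Icc 1 N, u ⌊α * (n : ℝ) ^ c⌋₊) / N) atTop (𝓝 L)) (ε : ℝ) (hε : 0 < ε) :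
    ∃ C : ℝ, 0 ≤ C ∧ ∀ X : ℕ, |∑ t ∈ Ioc 0 X, wt c t * (u t - L)| ≤ ε * ∑ t ∈ Ioc 0 X, wt c t + C := by
  have hc0 : 0 < c := by linarith
  set a := α ^ (-(1 / c)) with ha
  have ha0 : 0 < a := Real.rpow_pos_of_pos hα _
  set W : ℕ → ℝ := fun X => ∑ t ∈ Ioc 0 X, wt c t with hW
  set e : ℕ → ℝ := fun X => ∑ t ∈ Ioc 0 X, wt c t * (u t - L) with he
  have hWmono : ∀ X Y : ℕ, X ≤ Y → W X ≤ W Y := fun X Y h =>
    Finset.sum_le_sum_of_subset_of_nonneg (Finset.Ioc_subset_Ioc_right h) (fun t _ _ => wt_nonneg hc t)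
  have hW0 : ∀ X, 0 ≤ W X := fun X => Finset.sum_nonneg fun t _ => wt_nonneg hc t
  -- differences
  have hdiff : ∀ X Y : ℕ, X ≤ Y → |e Y - e X| ≤ (1 + |L|) * (W Y - W X) := by
    intro X Y h
    have e1 : ∀ f : ℕ → ℝ, ∑ t ∈ Ioc 0 Y, f t - ∑ t ∈ Ioc 0 X, f t = ∑ t ∈ Ioc X Y, f t := by
      intro f
      rw [← Finset.sum_Ioc_consecutive f (Nat.zero_le X) h]
      ring
    have e2 : e Y - e X = ∑ t ∈ Ioc X Y, wt c t * (u t - L) := e1 _
    have e3 : W Y - W X = ∑ t ∈ Ioc X Y, wt c t := e1 _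
    rw [e2, e3, Finset.mul_sum]
    refine (Finset.abs_sum_le_sum_abs _ _).trans (Finset.sum_le_sum fun t _ => ?_)
    rw [abs_mul, abs_of_nonneg (wt_nonneg hc t), mul_comm]
    apply mul_le_mul_of_nonneg_right _ (wt_nonneg hc t)
    have := abs_sub (u t) L
    linarith [hu t]
  -- the points of the sequence
  have hpt : ∃ N1 : ℕ, ∀ N : ℕ, N1 ≤ N → |e ⌊α * (N : ℝ) ^ c⌋₊| ≤ ε * W ⌊α * (N : ℝ) ^ c⌋₊ + (ε + |L|) := by
    set η := ε / 2 with hη
    have hη0 : 0 < η := by positivity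
    have hlimκ : Tendsto (fun N : ℕ => (N : ℝ) ^ κ) atTop atTop :=
      (tendsto_rpow_atTop hκ).comp tendsto_natCast_atTop_atTop
    obtain ⟨N2, hN2⟩ := (hlimκ.eventually (eventually_ge_atTop (1 / η))).exists_forall_of_atTop
    obtain ⟨N3, hN3⟩ := (Metric.tendsto_atTop.1 hlim) η hη0
    refine ⟨max (max N0 1) (max N2 N3), fun N hN => ?_⟩
    have g0 : N0 ≤ N := ((le_max_left _ _).trans (le_max_left _ _)).trans hN
    have g1 : 1 ≤ N := ((le_max_right _ _).trans (le_max_left _ _)).trans hN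
    have g2 : N2 ≤ N := ((le_max_left _ _).trans (le_max_right _ _)).trans hN
    have g3 : N3 ≤ N := ((le_max_right _ _).trans (le_max_right _ _)).trans hN
    have hNpos : (0 : ℝ) < N := by exact_mod_cast g1
    have h1 := hlaw N g0
    have h2 := wsum hα hc N
    have h3 := hN3 N g3
    rw [Real.dist_eq] at h3
    have h7 : (N : ℝ) ^ (1 - κ) ≤ η * N := by
      have h8 := hN2 N g2
      have h9 : (N : ℝ) = (N : ℝ) ^ κ * (N : ℝ) ^ (1 - κ) := by
        rw [← Real.rpow_add hNpos]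
        simp
      have h10 : (0 : ℝ) ≤ (N : ℝ) ^ (1 - κ) := by positivity
      have h11 : 1 ≤ η * (N : ℝ) ^ κ := by
        rw [div_le_iff₀ hη0] at h8
        linarith
      calc (N : ℝ) ^ (1 - κ) = 1 * (N : ℝ) ^ (1 - κ) := (one_mul _).symm
        _ ≤ (η * (N : ℝ) ^ κ) * (N : ℝ) ^ (1 - κ) := mul_le_mul_of_nonneg_right h11 h10
        _ = η * ((N : ℝ) ^ κ * (N : ℝ) ^ (1 - κ)) := by ring
        _ = η * N := by rw [← h9]
    set S := ∑ n ∈ Icc 1 N, u ⌊α * (n : ℝ) ^ c⌋₊ with hS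
    set X := ⌊α * (N : ℝ) ^ c⌋₊ with hX
    have hms : ms α c N = X := rfl
    rw [hms] at h2
    have h4 : |S - L * N| ≤ η * N := by
      have : S - L * N = (S / N - L) * N := by field_simp
      rw [this, abs_mul, abs_of_pos hNpos]
      exact mul_le_mul_of_nonneg_right h3.le hNpos.le
    have h5 : e X = ∑ t ∈ Ioc 0 X, wt c t * u t - L * W X := by
      simp only [he, hW]
      rw [Finset.mul_sum, ← Finset.sum_sub_distrib]
      apply Finset.sum_congr rfl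
      intro m _
      ring
    have h6 : |L * N - L * (a * W X)| ≤ |L| * a := by
      rw [← mul_sub, abs_mul]
      apply mul_le_mul_of_nonneg_left _ (abs_nonneg _)
      rw [abs_le]
      constructor
      · have := h2.2
        linarith
      · have := h2.1
        linarith
    have h8 : |a * e X| ≤ 2 * η * N + |L| * a := by
      have e1 : a * e X = -(S - a * ∑ t ∈ Ioc 0 X, wt c t * u t) + (S - L * N) + (L * N - L * (a * W X)) := by
        rw [h5]; ring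
      rw [e1]
      refine (abs_add_le _ _).trans ?_
      have := abs_add_le (-(S - a * ∑ t ∈ Ioc 0 X, wt c t * u t)) (S - L * N)
      rw [abs_neg] at this
      linarith
    rw [abs_mul, abs_of_pos ha0] at h8
    have h9 : (N : ℝ) ≤ a * W X + a := by linarith [h2.1]
    have h10 : 2 * η * N ≤ ε * (a * W X + a) := by
      have : 2 * η * N = ε * N := by rw [hη]; ring
      rw [this]
      exact mul_le_mul_of_nonneg_left h9 hε.le
    have h11 : a * |e X| ≤ a * (ε * W X + (ε + |L|)) := by linarith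
    exact le_of_mul_le_mul_left h11 ha0
  obtain ⟨N1, hN1⟩ := hpt
  set C : ℝ := (1 + |L|) * W ⌊α * (N1 : ℝ) ^ c⌋₊ + (ε + |L|) + (1 + |L|) * ((1 + a) / a) with hC
  have hL0 : 0 ≤ |L| := abs_nonneg L
  have hWN1 := hW0 ⌊α * (N1 : ℝ) ^ c⌋₊
  have hC1 : 0 ≤ (1 + |L|) * W ⌊α * (N1 : ℝ) ^ c⌋₊ := by positivity
  have hC2 : 0 ≤ (1 + |L|) * ((1 + a) / a) := by positivity
  refine ⟨C, by positivity, fun X => ?_⟩
  change |e X| ≤ ε * W X + C
  have hWX := hW0 X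
  have hεW : 0 ≤ ε * W X := by positivity
  rcases lt_or_ge X ⌊α * (N1 : ℝ) ^ c⌋₊ with hlt | hge
  · have h1 := hdiff 0 X (Nat.zero_le X)
    have h2 : e 0 = 0 := by simp [he]
    have h3 : W 0 = 0 := by simp [hW]
    rw [h2, h3, sub_zero, sub_zero] at h1
    have h4 : (1 + |L|) * W X ≤ (1 + |L|) * W ⌊α * (N1 : ℝ) ^ c⌋₊ :=
      mul_le_mul_of_nonneg_left (hWmono _ _ hlt.le) (by positivity)
    linarith
  · -- the first index beyond `X`
    have htend : Tendsto (fun n : ℕ => ⌊α * (n : ℝ) ^ c⌋₊) atTop atTop := by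
      have h1 : Tendsto (fun n : ℕ => (n : ℝ) ^ c) atTop atTop :=
        (tendsto_rpow_atTop hc0).comp tendsto_natCast_atTop_atTop
      exact tendsto_nat_floor_atTop.comp (h1.const_mul_atTop hα)
    have hex : ∃ n : ℕ, N1 ≤ n ∧ X < ⌊α * (n : ℝ) ^ c⌋₊ := by
      obtain ⟨n, hn⟩ := ((eventually_ge_atTop N1).and (htend.eventually (eventually_gt_atTop X))).exists
      exact ⟨n, hn⟩
    classical
    have hs := Nat.find_spec hex
    have hm := fun k => Nat.find_min (H := hex) (m := k)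
    set n := Nat.find hex with hn
    have hnN : N1 < n := by
      rcases lt_or_eq_of_le hs.1 with h | h
      · exact h
      · exfalso
        rw [← h] at hs
        exact absurd hge (not_le.2 hs.2)
    clear_value n
    obtain ⟨k, rfl⟩ : ∃ k, n = k + 1 := ⟨n - 1, by omega⟩
    have hk : ⌊α * (k : ℝ) ^ c⌋₊ ≤ X := by
      by_contra hcon
      exact hm k (Nat.lt_succ_self k) ⟨by omega, by omega⟩
    have g1 := hN1 k (by omega)
    have g2 := hdiff _ _ hk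
    have g3 := hWmono _ _ hs.2.le
    have g4 := (wsum hα hc k).1
    have g5 := (wsum hα hc (k + 1)).2
    have e1 : ms α c k = ⌊α * (k : ℝ) ^ c⌋₊ := rfl
    have e2 : ms α c (k + 1) = ⌊α * ((k + 1 : ℕ) : ℝ) ^ c⌋₊ := rfl
    rw [e1] at g4
    rw [e2] at g5
    change (k : ℝ) - a ≤ a * W ⌊α * (k : ℝ) ^ c⌋₊ at g4
    change a * W ⌊α * ((k + 1 : ℕ) : ℝ) ^ c⌋₊ ≤ ((k + 1 : ℕ) : ℝ) at g5
    have g6 : W X - W ⌊α * (k : ℝ) ^ c⌋₊ ≤ (1 + a) / a := by
      rw [le_div_iff₀ ha0]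
      have := mul_le_mul_of_nonneg_left g3 ha0.le
      push_cast at g5 this
      nlinarith
    have g7 := mul_le_mul_of_nonneg_left g6 (show 0 ≤ 1 + |L| by positivity)
    have g8 : ε * W ⌊α * (k : ℝ) ^ c⌋₊ ≤ ε * W X := mul_le_mul_of_nonneg_left (hWmono _ _ hk) hε.le
    have g9 : |e X| ≤ |e ⌊α * (k : ℝ) ^ c⌋₊| + |e X - e ⌊α * (k : ℝ) ^ c⌋₊| := by
      have := abs_add_le (e ⌊α * (k : ℝ) ^ c⌋₊) (e X - e ⌊α * (k : ℝ) ^ c⌋₊)
      rwa [add_sub_cancel] at this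
    linarith

/-- from the weighted sums to the density -/
lemma unweighted {c : ℝ} (hc : 1 < c) (u : ℕ → ℝ) {L : ℝ}
    (h : ∀ ε : ℝ, 0 < ε → ∃ C : ℝ, 0 ≤ C ∧ ∀ X : ℕ, |∑ t ∈ Ioc 0 X, wt c t * (u t - L)| ≤ ε * ∑ t ∈ Ioc 0 X, wt c t + C) :
    Tendsto (fun X : ℕ => (∑ t ∈ Ioc 0 X, u t) / X) atTop (𝓝 L) := by
  have hc0 : 0 < c := by linarith
  rw [Metric.tendsto_atTop]
  intro ε hε
  obtain ⟨C, hC0, hC⟩ := h (ε / (8 * c)) (by positivity)
  -- `X ^ (1 / c)` is large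
  have hlim : Tendsto (fun X : ℕ => (X : ℝ) ^ (1 / c)) atTop atTop :=
    (tendsto_rpow_atTop (by positivity)).comp tendsto_natCast_atTop_atTop
  obtain ⟨X1, hX1⟩ := (hlim.eventually (eventually_ge_atTop (8 * c * C / ε))).exists_forall_of_atTop
  refine ⟨max X1 1, fun X hX => ?_⟩
  have hX1' := hX1 X ((le_max_left _ _).trans hX)
  have hX0 : 1 ≤ X := (le_max_right _ _).trans hX
  have hXp : (0 : ℝ) < X := by exact_mod_cast hX0
  set w : ℕ → ℝ := fun t => c * (t : ℝ) ^ (1 - 1 / c) with hw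
  have hs : 0 ≤ 1 - 1 / c := by
    have : 1 / c ≤ 1 := by rw [div_le_one hc0]; exact hc.le
    linarith
  have hwt : ∀ t : ℕ, 1 ≤ t → wt c t * w t = 1 := by
    intro t ht
    have htp : (0 : ℝ) < t := by exact_mod_cast ht
    simp only [hw, wt]
    have : (t : ℝ) ^ (1 / c - 1) * (t : ℝ) ^ (1 - 1 / c) = 1 := by
      rw [← Real.rpow_add htp]
      simp
    calc 1 / c * (t : ℝ) ^ (1 / c - 1) * (c * (t : ℝ) ^ (1 - 1 / c)) =
        (1 / c * c) * ((t : ℝ) ^ (1 / c - 1) * (t : ℝ) ^ (1 - 1 / c)) := by ring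
      _ = 1 := by rw [this, one_div_mul_cancel hc0.ne']; ring
  set B : ℝ := ε / (8 * c) * (X : ℝ) ^ (1 / c) + C with hB
  have hB0 : 0 ≤ B := by positivity
  have h1 := abel_incr (fun t => wt c t * (u t - L)) w B X hX0 hB0
    (fun m _ => by simp only [hw]; positivity)
    (fun m _ => by
      simp only [hw]
      apply mul_le_mul_of_nonneg_left _ hc0.le
      apply Real.rpow_le_rpow (Nat.cast_nonneg m) _ hs
      push_cast
      linarith)
    (fun t ht => by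
      refine (hC t).trans ?_
      rw [hB]
      have g1 := sum_wt_up hc t
      have g2 : (t : ℝ) ^ (1 / c) ≤ (X : ℝ) ^ (1 / c) :=
        Real.rpow_le_rpow (Nat.cast_nonneg t) (by exact_mod_cast ht) (by positivity)
      have g3 : ε / (8 * c) * ∑ t ∈ Ioc 0 t, wt c t ≤ ε / (8 * c) * (X : ℝ) ^ (1 / c) :=
        mul_le_mul_of_nonneg_left (g1.trans g2) (by positivity)
      linarith)
  have h2 : ∑ m ∈ Ioc 0 X, wt c m * (u m - L) * w m = ∑ m ∈ Ioc 0 X, u m - L * X := by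
    have : ∀ m ∈ Ioc 0 X, wt c m * (u m - L) * w m = u m - L := by
      intro m hm
      rw [mem_Ioc] at hm
      calc wt c m * (u m - L) * w m = (wt c m * w m) * (u m - L) := by ring
        _ = u m - L := by rw [hwt m hm.1, one_mul]
    rw [Finset.sum_congr rfl this, Finset.sum_sub_distrib, sum_const, Nat.card_Ioc, nsmul_eq_mul, Nat.sub_zero]
    ring
  rw [h2] at h1
  have h3 : (X : ℝ) ^ (1 / c) * (X : ℝ) ^ (1 - 1 / c) = X := by
    rw [← Real.rpow_add hXp]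
    simp
  have hp : 0 ≤ (X : ℝ) ^ (1 - 1 / c) := by positivity
  have h4 : 2 * B * w X ≤ ε / 2 * X := by
    have g1 : 8 * c * C ≤ ε * (X : ℝ) ^ (1 / c) := by
      rw [div_le_iff₀ hε] at hX1'
      linarith
    have g2 : 2 * B * w X = (ε / 4) * ((X : ℝ) ^ (1 / c) * (X : ℝ) ^ (1 - 1 / c)) + (2 * c * C) * (X : ℝ) ^ (1 - 1 / c) := by
      rw [hB]
      simp only [hw]
      field_simp
      ring
    have g3 : (2 * c * C) * (X : ℝ) ^ (1 - 1 / c) ≤ (ε / 4 * (X : ℝ) ^ (1 / c)) * (X : ℝ) ^ (1 - 1 / c) := by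
      apply mul_le_mul_of_nonneg_right _ hp
      linarith
    rw [g2]
    calc (ε / 4) * ((X : ℝ) ^ (1 / c) * (X : ℝ) ^ (1 - 1 / c)) + (2 * c * C) * (X : ℝ) ^ (1 - 1 / c) ≤
        (ε / 4) * ((X : ℝ) ^ (1 / c) * (X : ℝ) ^ (1 - 1 / c)) + (ε / 4 * (X : ℝ) ^ (1 / c)) * (X : ℝ) ^ (1 - 1 / c) := by
          linarith
      _ = ε / 2 * ((X : ℝ) ^ (1 / c) * (X : ℝ) ^ (1 - 1 / c)) := by ring
      _ = ε / 2 * X := by rw [h3]
  rw [Real.dist_eq]
  have h5 : (∑ t ∈ Ioc 0 X, u t) / X - L = (∑ m ∈ Ioc 0 X, u m - L * X) / X := by field_simp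
  rw [h5, abs_div, abs_of_pos hXp, div_lt_iff₀ hXp]
  have h6 : ε / 2 * (X : ℝ) < ε * X := by
    have : 0 < ε * (X : ℝ) := by positivity
    linarith
  linarith

open Classical in
/-- **Natural densities and densities along the sequence.** -/
theorem equi (c : ℝ) (hc : 1 < c) {ι : Type} [Countable ι] (P : ι → Set ℕ) :
    ∃ E : Set ℝ, dimH E < 1 ∧ ∀ α : ℝ, 0 < α → α ∉ E → ∀ k : ι,
      (∀ δ ε : ℝ, 0 < ε →
        ((∃ X0 : ℕ, ∀ X : ℕ, X0 ≤ X → (((Ioc 0 X).filter (fun t => t ∈ P k)).card : ℝ) ≤ δ * X) →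
          ∃ N0 : ℕ, ∀ N : ℕ, N0 ≤ N →
            (((Icc 1 N).filter (fun n : ℕ => ⌊α * (n : ℝ) ^ c⌋₊ ∈ P k)).card : ℝ) ≤ (δ + ε) * N) ∧
        ((∃ X0 : ℕ, ∀ X : ℕ, X0 ≤ X → δ * X ≤ (((Ioc 0 X).filter (fun t => t ∈ P k)).card : ℝ)) →
          ∃ N0 : ℕ, ∀ N : ℕ, N0 ≤ N →
            (δ - ε) * N ≤ (((Icc 1 N).filter (fun n : ℕ => ⌊α * (n : ℝ) ^ c⌋₊ ∈ P k)).card : ℝ))) ∧
      ∀ L : ℝ, Tendsto (fun X : ℕ => (((Ioc 0 X).filter (fun t => t ∈ P k)).card : ℝ) / X) atTop (𝓝 L) ↔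
        Tendsto (fun N : ℕ => (((Icc 1 N).filter (fun n : ℕ => ⌊α * (n : ℝ) ^ c⌋₊ ∈ P k)).card : ℝ) / N) atTop (𝓝 L) := by
  obtain ⟨κ, hκ, hκ1, h⟩ := mean2 c hc
  obtain ⟨E, hE, hlaw⟩ := h (fun k t => if t ∈ P k then (1 : ℝ) else 0)
  obtain ⟨E', hE', hsets⟩ := sets c hc P
  refine ⟨E ∪ E', ?_, fun α hα hαE k => ⟨fun δ ε hε => ?_, fun L => ?_⟩⟩
  · rw [dimH_union]
    exact max_lt hE hE'
  · exact hsets α hα (fun h => hαE (Or.inr h)) k δ ε hε
  have hgrow : ∃ C : ℝ, 0 < C ∧ ∀ m : ℕ, 1 ≤ m → |(if m ∈ P k then (1 : ℝ) else 0)| ≤ C * (m : ℝ) ^ κ := by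
    refine ⟨1, one_pos, fun m hm => ?_⟩
    have h1 : (1 : ℝ) ≤ (m : ℝ) ^ κ := Real.one_le_rpow (by exact_mod_cast hm) hκ.le
    split_ifs <;> simp <;> linarith
  obtain ⟨N0, hN0⟩ := hlaw α hα (fun h => hαE (Or.inl h)) k hgrow
  have e1 : ∀ X : ℕ, (((Ioc 0 X).filter (fun t => t ∈ P k)).card : ℝ) = ∑ t ∈ Ioc 0 X, (if t ∈ P k then (1 : ℝ) else 0) := by
    intro X
    rw [Finset.sum_boole]
  have e2 : ∀ N : ℕ, (((Icc 1 N).filter (fun n : ℕ => ⌊α * (n : ℝ) ^ c⌋₊ ∈ P k)).card : ℝ) =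
      ∑ n ∈ Icc 1 N, (fun t : ℕ => if t ∈ P k then (1 : ℝ) else 0) ⌊α * (n : ℝ) ^ c⌋₊ := by
    intro N
    simp only
    rw [Finset.sum_boole]
  simp only [e1, e2]
  constructor
  · intro hL
    exact seq_mean hα hc hκ (fun t : ℕ => if t ∈ P k then (1 : ℝ) else 0) hL N0 hN0
  · intro hL
    refine unweighted hc (fun t : ℕ => if t ∈ P k then (1 : ℝ) else 0) fun ε hε => ?_
    exact weighted hα hc hκ (fun t : ℕ => if t ∈ P k then (1 : ℝ) else 0)
      (fun m => by by_cases hm : m ∈ P k <;> simp [hm]) N0 hN0 hL ε hε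

end Pool.Agent.V11285.SP
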