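import Pool.Agent.Y854.GM.Mean2

/-!
# Slowly decreasing lower bounds along `⌊α n ^ c⌋`

If a set has at least `κ₀ x / φ x` elements up to `x`, where `φ` grows more slowly than every power, then at least
`κ₀ / (4 c) * N / φ ⌊α N ^ c⌋` of the numbers `⌊α n ^ c⌋`, `n ≤ N`, belong to the set, for all large `N`. The exceptional set of
the `α` has dimension less than `1` and is the same for a countable family of sets, and for all `φ`.
-/

set_option autoImplicit false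

open Finset Filter Topology

namespace Pool.Agent.V11285.SS

open Pool.Agent.Y854.PS Pool.Agent.Y854.GM

/-- eventually `A ≤ B N ^ κ` -/
lemma ev_pow (κ A B : ℝ) (hκ : 0 < κ) (hB : 0 < B) : ∀ᶠ N : ℕ in atTop, A ≤ B * (N : ℝ) ^ κ := by
  have h1 : Tendsto (fun N : ℕ => (N : ℝ) ^ κ) atTop atTop :=
    (tendsto_rpow_atTop hκ).comp tendsto_natCast_atTop_atTop
  filter_upwards [h1.eventually (eventually_ge_atTop (A / B))] with N hN
  rw [div_le_iff₀ hB] at hN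
  linarith

theorem slow (c : ℝ) (hc : 1 < c) {ι : Type} [Countable ι] (P : ι → ℕ → Prop) :
    ∃ E : Set ℝ, dimH E < 1 ∧ ∀ α : ℝ, 0 < α → α ∉ E → ∀ (k : ι) (κ₀ : ℝ) (φ : ℕ → ℝ), 0 < κ₀ →
      (∀ᶠ x : ℕ in atTop, 0 < φ x) → (∀ η : ℝ, 0 < η → ∀ᶠ x : ℕ in atTop, φ x ≤ (x : ℝ) ^ η) →
      (∀ᶠ x : ℕ in atTop, κ₀ * x / φ x ≤ (({n : ℕ | 1 ≤ n ∧ n ≤ x ∧ P k n}.ncard : ℕ) : ℝ)) →
      ∀ᶠ N : ℕ in atTop, κ₀ / (4 * c) * N / φ ⌊α * (N : ℝ) ^ c⌋₊ ≤
        (({n : ℕ | 1 ≤ n ∧ n ≤ N ∧ P k ⌊α * (n : ℝ) ^ c⌋₊}.ncard : ℕ) : ℝ) := by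
  classical
  obtain ⟨κ, hκ, hκ1, h⟩ := mean2 c hc
  obtain ⟨E, hE, hlaw⟩ := h (fun (k : ι) (t : ℕ) => if P k t then (1 : ℝ) else 0)
  refine ⟨E, hE, fun α hα hαE k κ₀ φ hκ₀ hφ0 hφ hcount => ?_⟩
  have hc0 : 0 < c := by linarith
  obtain ⟨N0, hN0⟩ := hlaw α hα hαE k ⟨1, one_pos, fun m hm => by
    have h1 : (1 : ℝ) ≤ (m : ℝ) ^ κ := Real.one_le_rpow (by exact_mod_cast hm) hκ.le
    split_ifs <;> simp <;> linarith⟩
  have hXlim : Tendsto (fun N : ℕ => ⌊α * (N : ℝ) ^ c⌋₊) atTop atTop :=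
    tendsto_nat_floor_atTop.comp
      (((tendsto_rpow_atTop hc0).comp tendsto_natCast_atTop_atTop).const_mul_atTop hα)
  have hη : 0 < κ / (2 * c) := by positivity
  filter_upwards [eventually_ge_atTop (max N0 1), hXlim.eventually hφ0, hXlim.eventually (hφ _ hη),
    hXlim.eventually hcount, ev_pow c 2 α hc0 hα, hXlim.eventually (eventually_ge_atTop 1),
    ev_pow (κ / 2) (α ^ (κ / (2 * c))) (κ₀ / (4 * c)) (by positivity) (by positivity)] with N hN g1 g2 g3 g4 g5 g6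
  have hN1 : N0 ≤ N := (le_max_left _ _).trans hN
  have hN2 : (1 : ℝ) ≤ N := by exact_mod_cast (le_max_right _ _).trans hN
  have hNpos : (0 : ℝ) < N := by linarith
  set X : ℕ := ⌊α * (N : ℝ) ^ c⌋₊ with hX
  have hlawN := hN0 N hN1
  have hX1 : (1 : ℝ) ≤ X := by exact_mod_cast g5
  have hX0 : (0 : ℝ) < X := by linarith
  have hXle : (X : ℝ) ≤ α * (N : ℝ) ^ c := Nat.floor_le (by positivity)
  have hXge : α * (N : ℝ) ^ c / 2 ≤ X := by
    have := Nat.lt_floor_add_one (α * (N : ℝ) ^ c)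
    rw [← hX] at this
    linarith
  -- the count along the sequence
  have e1 : (({n : ℕ | 1 ≤ n ∧ n ≤ N ∧ P k ⌊α * (n : ℝ) ^ c⌋₊}.ncard : ℕ) : ℝ) =
      ∑ n ∈ Icc 1 N, (fun t : ℕ => if P k t then (1 : ℝ) else 0) ⌊α * (n : ℝ) ^ c⌋₊ := by
    simp only
    rw [Finset.sum_boole, Nat.cast_inj, ← Set.ncard_coe_finset]
    congr 1
    ext n
    simp only [Finset.coe_filter, Finset.mem_Icc, Set.mem_ofPred_eq]
    tauto
  have e2 : (({n : ℕ | 1 ≤ n ∧ n ≤ X ∧ P k n}.ncard : ℕ) : ℝ) =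
      ∑ t ∈ Ioc 0 X, (if P k t then (1 : ℝ) else 0) := by
    rw [Finset.sum_boole, Nat.cast_inj, ← Set.ncard_coe_finset]
    congr 1
    ext n
    simp only [Finset.coe_filter, Finset.mem_Ioc, Set.mem_ofPred_eq]
    constructor
    · rintro ⟨q1, q2, q3⟩
      exact ⟨⟨by omega, q2⟩, q3⟩
    · rintro ⟨⟨q1, q2⟩, q3⟩
      exact ⟨by omega, q2, q3⟩
  rw [e2] at g3
  rw [e1]
  -- the weighted sum
  have hw : wt c X * ∑ t ∈ Ioc 0 X, (if P k t then (1 : ℝ) else 0) ≤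
      ∑ t ∈ Ioc 0 X, wt c t * (if P k t then (1 : ℝ) else 0) := by
    rw [Finset.mul_sum]
    refine Finset.sum_le_sum fun t ht => ?_
    rw [Finset.mem_Ioc] at ht
    have h2 := wt_anti hc ht.1 ht.2
    split_ifs
    · linarith
    · simp
  have hwt : wt c X = 1 / c * (X : ℝ) ^ (1 / c - 1) := rfl
  have hmain : κ₀ / c * (X : ℝ) ^ (1 / c) / φ X ≤ ∑ t ∈ Ioc 0 X, wt c t * (if P k t then (1 : ℝ) else 0) := by
    refine le_trans ?_ hw
    calc κ₀ / c * (X : ℝ) ^ (1 / c) / φ X = wt c X * (κ₀ * X / φ X) := by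
          have h3 : (X : ℝ) ^ (1 / c) = (X : ℝ) ^ (1 / c - 1) * X := by
            rw [Real.rpow_sub_one hX0.ne']
            field_simp
          rw [hwt, h3]
          field_simp
      _ ≤ wt c X * ∑ t ∈ Ioc 0 X, (if P k t then (1 : ℝ) else 0) :=
          mul_le_mul_of_nonneg_left g3 (wt_nonneg hc X)
  -- powers
  have hpow : (N : ℝ) / 2 ≤ α ^ (-(1 / c)) * (X : ℝ) ^ (1 / c) := by
    have h4 : (α * (N : ℝ) ^ c / 2) ^ (1 / c) ≤ (X : ℝ) ^ (1 / c) :=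
      Real.rpow_le_rpow (by positivity) hXge (by positivity)
    have h5 : (α * (N : ℝ) ^ c / 2) ^ (1 / c) = α ^ (1 / c) * N * (1 / 2 : ℝ) ^ (1 / c) := by
      rw [show α * (N : ℝ) ^ c / 2 = α * (N : ℝ) ^ c * (1 / 2) by ring,
        Real.mul_rpow (by positivity) (by norm_num), Real.mul_rpow hα.le (by positivity), ← Real.rpow_mul hNpos.le,
        mul_one_div_cancel hc0.ne', Real.rpow_one]
    have h6 : (1 / 2 : ℝ) ≤ (1 / 2 : ℝ) ^ (1 / c) := by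
      have : 1 / c ≤ 1 := by
        rw [div_le_one hc0]
        exact hc.le
      calc (1 / 2 : ℝ) = (1 / 2 : ℝ) ^ (1 : ℝ) := (Real.rpow_one _).symm
        _ ≤ (1 / 2 : ℝ) ^ (1 / c) := Real.rpow_le_rpow_of_exponent_ge (by norm_num) (by norm_num) this
    have h7 : α ^ (-(1 / c)) * α ^ (1 / c) = 1 := by
      rw [← Real.rpow_add hα]
      simp
    calc (N : ℝ) / 2 = (α ^ (-(1 / c)) * α ^ (1 / c)) * N * (1 / 2) := by rw [h7]; ring
      _ ≤ (α ^ (-(1 / c)) * α ^ (1 / c)) * N * (1 / 2 : ℝ) ^ (1 / c) :=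
          mul_le_mul_of_nonneg_left h6 (by rw [h7]; linarith)
      _ = α ^ (-(1 / c)) * (α * (N : ℝ) ^ c / 2) ^ (1 / c) := by rw [h5]; ring
      _ ≤ α ^ (-(1 / c)) * (X : ℝ) ^ (1 / c) := mul_le_mul_of_nonneg_left h4 (Real.rpow_nonneg hα.le _)
  have hmain2 : κ₀ / (2 * c) * N / φ X ≤
      α ^ (-(1 / c)) * ∑ t ∈ Ioc 0 X, wt c t * (if P k t then (1 : ℝ) else 0) := by
    calc κ₀ / (2 * c) * N / φ X = κ₀ / c / φ X * (N / 2) := by field_simp
      _ ≤ κ₀ / c / φ X * (α ^ (-(1 / c)) * (X : ℝ) ^ (1 / c)) :=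
          mul_le_mul_of_nonneg_left hpow (by positivity)
      _ = α ^ (-(1 / c)) * (κ₀ / c * (X : ℝ) ^ (1 / c) / φ X) := by ring
      _ ≤ _ := mul_le_mul_of_nonneg_left hmain (Real.rpow_nonneg hα.le _)
  -- the error
  have herr : (N : ℝ) ^ (1 - κ) ≤ κ₀ / (4 * c) * N / φ X := by
    rw [le_div_iff₀ g1]
    have h8 : φ X ≤ κ₀ / (4 * c) * (N : ℝ) ^ κ := by
      calc φ X ≤ (X : ℝ) ^ (κ / (2 * c)) := g2
        _ ≤ (α * (N : ℝ) ^ c) ^ (κ / (2 * c)) := Real.rpow_le_rpow hX0.le hXle hη.le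
        _ = α ^ (κ / (2 * c)) * (N : ℝ) ^ (κ / 2) := by
            rw [Real.mul_rpow hα.le (by positivity), ← Real.rpow_mul hNpos.le]
            congr 2
            field_simp
        _ ≤ κ₀ / (4 * c) * (N : ℝ) ^ (κ / 2) * (N : ℝ) ^ (κ / 2) :=
            mul_le_mul_of_nonneg_right g6 (by positivity)
        _ = κ₀ / (4 * c) * (N : ℝ) ^ κ := by
            rw [mul_assoc, ← Real.rpow_add hNpos]
            congr 2
            ring
    calc (N : ℝ) ^ (1 - κ) * φ X ≤ (N : ℝ) ^ (1 - κ) * (κ₀ / (4 * c) * (N : ℝ) ^ κ) :=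
          mul_le_mul_of_nonneg_left h8 (by positivity)
      _ = κ₀ / (4 * c) * ((N : ℝ) ^ (1 - κ) * (N : ℝ) ^ κ) := by ring
      _ = κ₀ / (4 * c) * N := by
          rw [← Real.rpow_add hNpos]
          simp
  have h9 := (abs_le.1 hlawN).1
  have h10 : κ₀ / (2 * c) * N / φ X = κ₀ / (4 * c) * N / φ X + κ₀ / (4 * c) * N / φ X := by
    field_simp
    norm_num
  rw [h10] at hmain2
  linarith

/-- one more logarithm -/
lemma log_step {u v : ℕ → ℝ} (hv : Tendsto v atTop atTop) (A : ℝ) (hu : ∀ᶠ n in atTop, 0 < u n)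
    (h : ∀ᶠ n in atTop, u n ≤ A * v n) : ∀ᶠ n in atTop, Real.log (u n) ≤ 2 * Real.log (v n) := by
  filter_upwards [hu, h, hv.eventually (eventually_ge_atTop A), hv.eventually (eventually_ge_atTop 1)] with n h1 h2 h3 h4
  have h5 : u n ≤ v n ^ 2 := by nlinarith
  calc Real.log (u n) ≤ Real.log (v n ^ 2) := Real.log_le_log h1 h5
    _ = 2 * Real.log (v n) := by rw [Real.log_pow]; norm_num

lemma tendsto_X {α c : ℝ} (hα : 0 < α) (hc : 0 < c) : Tendsto (fun N : ℕ => ⌊α * (N : ℝ) ^ c⌋₊) atTop atTop :=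
  tendsto_nat_floor_atTop.comp (((tendsto_rpow_atTop hc).comp tendsto_natCast_atTop_atTop).const_mul_atTop hα)

lemma tendsto_logN : Tendsto (fun N : ℕ => Real.log (N : ℝ)) atTop atTop :=
  Real.tendsto_log_atTop.comp tendsto_natCast_atTop_atTop

/-- `log ⌊α N ^ c⌋ ≤ (c + 1) log N` for large `N` -/
lemma log_X {α c : ℝ} (hα : 0 < α) (hc : 0 < c) :
    ∀ᶠ N : ℕ in atTop, Real.log (⌊α * (N : ℝ) ^ c⌋₊ : ℕ) ≤ (c + 1) * Real.log N := by
  filter_upwards [(tendsto_X hα hc).eventually (eventually_ge_atTop 1), eventually_ge_atTop (max 1 ⌈α⌉₊)] with N h1 h2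
  have hN1 : (1 : ℝ) ≤ N := by exact_mod_cast (le_max_left _ _).trans h2
  have hNα : α ≤ N := (Nat.le_ceil α).trans (by exact_mod_cast (le_max_right _ _).trans h2)
  have hNpos : (0 : ℝ) < N := by linarith
  have h3 : ((⌊α * (N : ℝ) ^ c⌋₊ : ℕ) : ℝ) ≤ (N : ℝ) ^ (c + 1) := by
    calc ((⌊α * (N : ℝ) ^ c⌋₊ : ℕ) : ℝ) ≤ α * (N : ℝ) ^ c := Nat.floor_le (by positivity)
      _ ≤ N * (N : ℝ) ^ c := mul_le_mul_of_nonneg_right hNα (by positivity)
      _ = (N : ℝ) ^ (c + 1) := by rw [Real.rpow_add_one hNpos.ne']; ring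
  have h4 : (0 : ℝ) < ((⌊α * (N : ℝ) ^ c⌋₊ : ℕ) : ℝ) := by exact_mod_cast h1
  calc Real.log (⌊α * (N : ℝ) ^ c⌋₊ : ℕ) ≤ Real.log ((N : ℝ) ^ (c + 1)) := Real.log_le_log h4 h3
    _ = (c + 1) * Real.log N := Real.log_rpow hNpos _

/-- two, three and four logarithms -/
lemma logs_X {α c : ℝ} (hα : 0 < α) (hc : 0 < c) : ∀ᶠ N : ℕ in atTop,
    Real.log (Real.log (⌊α * (N : ℝ) ^ c⌋₊ : ℕ)) ≤ 2 * Real.log (Real.log N) ∧
    Real.log (Real.log (Real.log (⌊α * (N : ℝ) ^ c⌋₊ : ℕ))) ≤ 2 * Real.log (Real.log (Real.log N)) ∧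
    Real.log (Real.log (Real.log (Real.log (⌊α * (N : ℝ) ^ c⌋₊ : ℕ)))) ≤
      2 * Real.log (Real.log (Real.log (Real.log N))) := by
  have hX := tendsto_X hα hc
  have t1 : Tendsto (fun N : ℕ => Real.log (N : ℝ)) atTop atTop := tendsto_logN
  have t2 : Tendsto (fun N : ℕ => Real.log (Real.log (N : ℝ))) atTop atTop := Real.tendsto_log_atTop.comp t1
  have t3 : Tendsto (fun N : ℕ => Real.log (Real.log (Real.log (N : ℝ)))) atTop atTop :=
    Real.tendsto_log_atTop.comp t2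
  have p1 := (t1.comp hX).eventually (eventually_gt_atTop 0)
  have p2 := (t2.comp hX).eventually (eventually_gt_atTop 0)
  have p3 := (t3.comp hX).eventually (eventually_gt_atTop 0)
  have s2 := log_step t1 (c + 1) p1 (log_X hα hc)
  have s3 := log_step t2 2 p2 s2
  have s4 := log_step t3 2 p3 s3
  filter_upwards [s2, s3, s4] with N h2 h3 h4
  exact ⟨h2, h3, h4⟩

/-- logarithms grow more slowly than powers -/
lemma log_le_pow (η : ℝ) (hη : 0 < η) : ∀ᶠ x : ℕ in atTop, Real.log (x : ℝ) ≤ (x : ℝ) ^ η := by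
  have h1 := (isLittleO_log_rpow_atTop hη).bound one_pos
  have h2 := tendsto_natCast_atTop_atTop.eventually h1
  filter_upwards [h2, eventually_ge_atTop 1] with x hx hx1
  have hx1' : (1 : ℝ) ≤ x := by exact_mod_cast hx1
  rw [Real.norm_of_nonneg (Real.log_nonneg hx1'), Real.norm_of_nonneg (by positivity), one_mul] at hx
  exact hx

end Pool.Agent.V11285.SS
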