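import Pool.Agent.V11285.SS

/-! Lower bounds for sets of positive integers: the integer zero may be dropped. -/

set_option autoImplicit false

open Finset Filter Topology

namespace Pool.Agent.V11285.SU

lemma drop_zero (P : ℕ → Prop) (κ₀ : ℝ) (φ : ℕ → ℝ) (hκ : 0 < κ₀) (hφ0 : ∀ᶠ x : ℕ in atTop, 0 < φ x)
    (hφ : ∀ η : ℝ, 0 < η → ∀ᶠ x : ℕ in atTop, φ x ≤ (x : ℝ) ^ η)
    (h : ∀ᶠ x : ℕ in atTop, κ₀ * x / φ x ≤ (({n : ℕ | n ≤ x ∧ P n}.ncard : ℕ) : ℝ)) :
    ∀ᶠ x : ℕ in atTop, κ₀ / 2 * x / φ x ≤ (({n : ℕ | 1 ≤ n ∧ n ≤ x ∧ P n}.ncard : ℕ) : ℝ) := by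
  filter_upwards [h, hφ0, hφ (1 / 2) (by norm_num), Pool.Agent.V11285.SS.ev_pow (1 / 2) 1 (κ₀ / 2) (by norm_num) (by positivity),
    eventually_ge_atTop 1] with x hx q1 q2 q5 q6
  have hx1 : (1 : ℝ) ≤ x := by exact_mod_cast q6
  have hl : (1 : ℝ) ≤ κ₀ / 2 * x / φ x := by
    rw [le_div_iff₀ q1, one_mul]
    calc φ x ≤ (x : ℝ) ^ (1 / 2 : ℝ) := q2
      _ = 1 * (x : ℝ) ^ (1 / 2 : ℝ) := (one_mul _).symm
      _ ≤ κ₀ / 2 * (x : ℝ) ^ (1 / 2 : ℝ) * (x : ℝ) ^ (1 / 2 : ℝ) :=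
          mul_le_mul_of_nonneg_right q5 (by positivity)
      _ = κ₀ / 2 * x := by
          rw [mul_assoc, ← Real.rpow_add (by linarith)]
          norm_num
  have hsub : (({n : ℕ | n ≤ x ∧ P n}.ncard : ℕ) : ℝ) ≤ (({n : ℕ | 1 ≤ n ∧ n ≤ x ∧ P n}.ncard : ℕ) : ℝ) + 1 := by
    have h2 : {n : ℕ | n ≤ x ∧ P n} ⊆ insert 0 {n : ℕ | 1 ≤ n ∧ n ≤ x ∧ P n} := by
      rintro n ⟨r1, r2⟩
      rcases Nat.eq_zero_or_pos n with h0 | h0
      · exact Or.inl h0
      · exact Or.inr ⟨h0, r1, r2⟩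
    have hfin : {n : ℕ | 1 ≤ n ∧ n ≤ x ∧ P n}.Finite :=
      (Set.finite_Icc 1 x).subset fun n hn => ⟨hn.1, hn.2.1⟩
    have h3 := (Set.ncard_le_ncard h2 (hfin.insert 0)).trans (Set.ncard_insert_le 0 _)
    exact_mod_cast h3
  have h5 : κ₀ * x / φ x = κ₀ / 2 * x / φ x + κ₀ / 2 * x / φ x := by
    ring
  linarith

/-- the iterated logarithms tend to infinity -/
lemma t1 : Tendsto (fun N : ℕ => Real.log (N : ℝ)) atTop atTop := Pool.Agent.V11285.SS.tendsto_logN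

lemma t2 : Tendsto (fun N : ℕ => Real.log (Real.log (N : ℝ))) atTop atTop := Real.tendsto_log_atTop.comp t1

lemma t3 : Tendsto (fun N : ℕ => Real.log (Real.log (Real.log (N : ℝ)))) atTop atTop :=
  Real.tendsto_log_atTop.comp t2

lemma t4 : Tendsto (fun N : ℕ => Real.log (Real.log (Real.log (Real.log (N : ℝ))))) atTop atTop :=
  Real.tendsto_log_atTop.comp t3

/-- all of them are below every power -/
lemma below (η : ℝ) (hη : 0 < η) : ∀ᶠ x : ℕ in atTop,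
    Real.log (Real.log (x : ℝ)) ≤ (x : ℝ) ^ η ∧ Real.log (Real.log (Real.log (x : ℝ))) ≤ (x : ℝ) ^ η ∧
      Real.log (Real.log (Real.log (Real.log (x : ℝ)))) ≤ (x : ℝ) ^ η := by
  filter_upwards [Pool.Agent.V11285.SS.log_le_pow η hη, t1.eventually (eventually_gt_atTop 0),
      t2.eventually (eventually_gt_atTop 0), t3.eventually (eventually_gt_atTop 0)] with x q1 q2 q3 q4
  have r1 := Real.log_le_sub_one_of_pos q2
  have r2 := Real.log_le_sub_one_of_pos q3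
  have r3 := Real.log_le_sub_one_of_pos q4
  exact ⟨by linarith, by linarith, by linarith⟩

/-- `exp (√(log x) log log x)` is below every power -/
lemma exp_below (η : ℝ) (hη : 0 < η) : ∀ᶠ x : ℕ in atTop,
    Real.exp (√(Real.log x) * Real.log (Real.log x)) ≤ (x : ℝ) ^ η := by
  have h1 : ∀ᶠ y : ℝ in atTop, Real.log y ≤ η * y ^ (1 / 2 : ℝ) := by
    have := (isLittleO_log_rpow_atTop (show (0 : ℝ) < 1 / 2 by norm_num)).bound hη
    filter_upwards [this, eventually_ge_atTop 1] with y hy hy1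
    rwa [Real.norm_of_nonneg (Real.log_nonneg hy1), Real.norm_of_nonneg (by positivity)] at hy
  filter_upwards [t1.eventually h1, t1.eventually (eventually_ge_atTop 0), eventually_ge_atTop 1] with x hx h0 hx1
  have hxpos : (0 : ℝ) < x := by exact_mod_cast hx1
  rw [← Real.sqrt_eq_rpow] at hx
  have h2 : √(Real.log x) * Real.log (Real.log x) ≤ η * Real.log x := by
    calc √(Real.log x) * Real.log (Real.log x) ≤ √(Real.log x) * (η * √(Real.log x)) :=
          mul_le_mul_of_nonneg_left hx (Real.sqrt_nonneg _)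
      _ = η * (√(Real.log x) * √(Real.log x)) := by ring
      _ = η * Real.log x := by rw [Real.mul_self_sqrt h0]
  calc Real.exp (√(Real.log x) * Real.log (Real.log x)) ≤ Real.exp (η * Real.log x) := Real.exp_le_exp.2 h2
    _ = (x : ℝ) ^ η := by rw [Real.rpow_def_of_pos hxpos, mul_comm]

end Pool.Agent.V11285.SU
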