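import Pool.Agent.Y854.GM.WinV

/-! Windows around the members `α v_n` of a thin sequence, `α` in `ℝ^d`, which contain no element of a thin set `S_n` of
points of `ℝ^d` depending on `n`: the exceptional `α` have dimension at most `(s + τ) / (1 - θ)`, where the set `S_n` has
`v_n ^ (s + ε)` elements with coordinates of absolute value at most `A v_n`, the sequence `v` has exponent of convergence
`τ`, and the windows have length `v_n ^ θ`. -/

set_option autoImplicit false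

open Finset Filter Topology MeasureTheory

namespace Pool.Agent.V11285.WD

open scoped ENNReal NNReal
open Pool.Agent.Y854.GM (ExpLe tendsto_of_expLe)

/-- one bounded range of amplitudes -/
theorem dim_winD {T : Type} {d : ℕ} (S : ℕ → Set T) (h : ℕ → T → (Fin d → ℝ)) {v : ℕ → ℝ} {s τ θ D : ℝ}
    (hpos : ∀ n, 1 ≤ v n) (hτ : 0 ≤ τ) (hv : ExpLe v τ) (hs : 0 ≤ s) (hθ1 : θ < 1) (hD : s + τ < D * (1 - θ))
    (K : ℝ) (hK0 : 0 ≤ K) (A : ℕ)
    (hS : ∀ n : ℕ, {t | t ∈ S n ∧ ∀ i, |h n t i| ≤ ((A : ℝ) + 1) * v n}.Finite ∧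
      ({t | t ∈ S n ∧ ∀ i, |h n t i| ≤ ((A : ℝ) + 1) * v n}.ncard : ℝ) ≤ K * (v n) ^ s) :
    dimH {α : Fin d → ℝ | (∀ i, |α i| ≤ A) ∧ ∀ n1 : ℕ, ∃ n : ℕ, n1 ≤ n ∧ ∃ t ∈ S n,
      ∀ i, |h n t i - α i * v n| ≤ (v n) ^ θ} ≤ ENNReal.ofReal D := by
  have h1θ : 0 < 1 - θ := by linarith
  have hD0 : 0 < D := by
    have h1 : 0 < D * (1 - θ) := lt_of_le_of_lt (by positivity) hD
    exact (pos_iff_pos_of_mul_pos h1).2 h1θ
  have hDn : ((Real.toNNReal D : ℝ≥0) : ℝ) = D := Real.coe_toNNReal D hD0.le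
  have hgoal : ENNReal.ofReal D = ((Real.toNNReal D : ℝ≥0) : ℝ≥0∞) := rfl
  rw [hgoal]
  apply dimH_le_of_hausdorffMeasure_ne_top
  rw [hDn]
  have hvp : ∀ n, 0 < v n := fun n => lt_of_lt_of_le one_pos (hpos n)
  set U : ℕ → Finset T := fun m => (hS m).1.toFinset with hU
  set p : ℝ := D * (1 - θ) - s with hp
  have hp1 : τ < p := by rw [hp]; linarith
  have hp0 : 0 < p := lt_of_le_of_lt hτ hp1
  have hcard : ∀ m : ℕ, ((U m).card : ℝ) ≤ K * (v m) ^ s := by
    intro m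
    have h2 := (hS m).2
    rw [Set.ncard_eq_toFinset_card _ (hS m).1] at h2
    exact h2
  set r0 : ℕ → ℝ := fun n => 2 * (v n) ^ (θ - 1) with hr0
  have hr0p : ∀ n, 0 < r0 n := fun n => mul_pos two_pos (Real.rpow_pos_of_pos (hvp n) _)
  have hsum : Summable (fun m : ℕ => (2 ^ D * K) * (v m) ^ (-p)) := (hv p hp1).mul_left _
  have hlev : ∀ m : ℕ, ((U m).card : ℝ) * (r0 m) ^ D ≤ (2 ^ D * K) * (v m) ^ (-p) := by
    intro m
    have hm0 := hvp m
    calc ((U m).card : ℝ) * (r0 m) ^ D ≤ (K * (v m) ^ s) * (r0 m) ^ D :=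
          mul_le_mul_of_nonneg_right (hcard m) (Real.rpow_nonneg (hr0p m).le _)
      _ = (2 ^ D * K) * ((v m) ^ s * (v m) ^ ((θ - 1) * D)) := by
          rw [hr0, Real.mul_rpow two_pos.le (Real.rpow_nonneg hm0.le _), ← Real.rpow_mul hm0.le]
          ring
      _ = (2 ^ D * K) * (v m) ^ (-p) := by
          rw [← Real.rpow_add hm0]
          congr 2
          rw [hp]
          ring
  have htv : Tendsto v atTop atTop := tendsto_of_expLe hvp hτ hv
  have hr0t : Tendsto r0 atTop (𝓝 0) := by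
    have h1 : Tendsto (fun n => (v n) ^ (-(1 - θ))) atTop (𝓝 0) := (tendsto_rpow_neg_atTop h1θ).comp htv
    have h2 := h1.const_mul 2
    rw [mul_zero] at h2
    refine h2.congr (fun n => ?_)
    rw [hr0]
    simp only
    congr 2
    ring
  have hr : ∀ ε : ℝ≥0∞, 0 < ε → ∃ N : ℕ, ∀ n : ℕ, N ≤ n → ENNReal.ofReal (r0 n) ≤ ε := by
    intro ε hε
    have h1 := ENNReal.tendsto_ofReal hr0t
    rw [ENNReal.ofReal_zero] at h1
    exact ((h1.eventually (ge_mem_nhds hε))).exists_forall_of_atTop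
  set r : ℕ → ℝ≥0∞ := fun n => ⨆ i : ℕ, ENNReal.ofReal (r0 (n + i)) with hrdef
  have hrt : Tendsto r atTop (𝓝 0) := by
    rw [ENNReal.tendsto_atTop_zero]
    intro ε hε
    obtain ⟨N, hN⟩ := hr ε hε
    exact ⟨N, fun n hn => iSup_le fun i => hN _ (by omega)⟩
  set W : (n : ℕ) → (Σ i : ℕ, (U (n + i))) → Set (Fin d → ℝ) := fun n q =>
    Metric.closedBall (fun i => h (n + q.1) (q.2 : T) i / v (n + q.1)) ((v (n + q.1)) ^ (θ - 1)) with hW
  have hd : ∀ (n : ℕ) (q : Σ i : ℕ, (U (n + i))), Metric.ediam (W n q) ≤ ENNReal.ofReal (r0 (n + q.1)) := by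
    intro n q
    have h0 : 0 ≤ (v (n + q.1)) ^ (θ - 1) := Real.rpow_nonneg (hvp _).le _
    refine Metric.ediam_le fun x hx y hy => ?_
    rw [edist_dist]
    apply ENNReal.ofReal_le_ofReal
    have h1 := dist_triangle_right x y (fun i => h (n + q.1) (q.2 : T) i / v (n + q.1))
    rw [hr0]
    simp only
    have h2 : dist x (fun i => h (n + q.1) (q.2 : T) i / v (n + q.1)) ≤ (v (n + q.1)) ^ (θ - 1) := hx
    have h3 : dist y (fun i => h (n + q.1) (q.2 : T) i / v (n + q.1)) ≤ (v (n + q.1)) ^ (θ - 1) := hy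
    linarith
  have key := Measure.hausdorffMeasure_le_liminf_tsum (X := Fin d → ℝ) (β := ℕ)
    (ι := fun n => Σ i : ℕ, (U (n + i))) D
    {α : Fin d → ℝ | (∀ i, |α i| ≤ A) ∧ ∀ n1 : ℕ, ∃ n : ℕ, n1 ≤ n ∧ ∃ t ∈ S n,
      ∀ i, |h n t i - α i * v n| ≤ (v n) ^ θ}
    (l := atTop) r hrt W
    (Eventually.of_forall fun n q => (hd n q).trans (le_iSup (fun i : ℕ => ENNReal.ofReal (r0 (n + i))) q.1))
    (Eventually.of_forall fun n α hα => by
      obtain ⟨hαA, hlim⟩ := hα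
      obtain ⟨m, hm1, t, ht, hm3⟩ := hlim n
      obtain ⟨i, rfl⟩ := Nat.exists_eq_add_of_le hm1
      have hmp : 0 < v (n + i) := hvp _
      have hw : (v (n + i)) ^ θ ≤ v (n + i) := by
        calc (v (n + i)) ^ θ ≤ (v (n + i)) ^ (1 : ℝ) := Real.rpow_le_rpow_of_exponent_le (hpos _) hθ1.le
          _ = v (n + i) := Real.rpow_one _
      have hmem : t ∈ U (n + i) := by
        rw [hU, Set.Finite.mem_toFinset]
        refine ⟨ht, fun j => ?_⟩
        have h1 : |α j * v (n + i)| ≤ A * v (n + i) := by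
          rw [abs_mul, abs_of_pos hmp]
          exact mul_le_mul_of_nonneg_right (hαA j) hmp.le
        have h2 : |h (n + i) t j| ≤ |h (n + i) t j - α j * v (n + i)| + |α j * v (n + i)| := by
          have := abs_add_le (h (n + i) t j - α j * v (n + i)) (α j * v (n + i))
          simpa using this
        linarith [hm3 j]
      rw [Set.mem_iUnion]
      refine ⟨⟨i, ⟨_, hmem⟩⟩, ?_⟩
      rw [hW]
      simp only
      rw [Metric.mem_closedBall, dist_pi_le_iff (Real.rpow_nonneg hmp.le _)]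
      intro j
      rw [Real.dist_eq]
      have h3 : α j - h (n + i) t j / v (n + i) = -(h (n + i) t j - α j * v (n + i)) / v (n + i) := by
        field_simp
        ring
      rw [h3, abs_div, abs_neg, abs_of_pos hmp, Real.rpow_sub_one hmp.ne']
      exact (div_le_div_iff_of_pos_right hmp).2 (hm3 j))
  refine ne_top_of_le_ne_top ?_ key
  have hnn : ∀ m : ℕ, 0 ≤ (2 ^ D * K) * (v m) ^ (-p) := fun m =>
    mul_nonneg (by positivity) (Real.rpow_nonneg (hvp m).le _)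
  have htot : (∑' m : ℕ, ENNReal.ofReal ((2 ^ D * K) * (v m) ^ (-p))) ≠ ⊤ := by
    rw [← ENNReal.ofReal_tsum_of_nonneg hnn hsum]
    exact ENNReal.ofReal_ne_top
  have hbound : ∀ n : ℕ, (∑' q : Σ i : ℕ, (U (n + i)), Metric.ediam (W n q) ^ D) ≤
      ∑' m : ℕ, ENNReal.ofReal ((2 ^ D * K) * (v m) ^ (-p)) := by
    intro n
    rw [ENNReal.tsum_sigma']
    calc (∑' i : ℕ, ∑' x : (U (n + i)), Metric.ediam (W n ⟨i, x⟩) ^ D)
        ≤ ∑' i : ℕ, ENNReal.ofReal ((2 ^ D * K) * (v (n + i)) ^ (-p)) := by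
          apply ENNReal.tsum_le_tsum
          intro i
          have h1 : ∀ x : (U (n + i)), Metric.ediam (W n ⟨i, x⟩) ^ D ≤ ENNReal.ofReal ((r0 (n + i)) ^ D) := by
            intro x
            rw [← ENNReal.ofReal_rpow_of_pos (hr0p _)]
            exact ENNReal.rpow_le_rpow (hd n ⟨i, x⟩) hD0.le
          refine (ENNReal.tsum_le_tsum h1).trans ?_
          rw [tsum_fintype]
          simp only [Finset.sum_const, Finset.card_univ, Fintype.card_coe, nsmul_eq_mul]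
          rw [← ENNReal.ofReal_natCast, ← ENNReal.ofReal_mul (by positivity)]
          apply ENNReal.ofReal_le_ofReal
          exact hlev (n + i)
      _ ≤ ∑' m : ℕ, ENNReal.ofReal ((2 ^ D * K) * (v m) ^ (-p)) :=
          ENNReal.tsum_comp_le_tsum_of_injective (f := fun i : ℕ => n + i)
            (fun a b h => by simpa using h) (fun m : ℕ => ENNReal.ofReal ((2 ^ D * K) * (v m) ^ (-p)))
  refine ne_top_of_le_ne_top htot ?_
  apply Filter.liminf_le_of_le
  · isBoundedDefault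
  · intro b hb
    obtain ⟨n, hn⟩ := hb.exists
    exact hn.trans (hbound n)

/-- **Windows in `ℝ^d` without elements of thin sets depending on the window.** -/
theorem windowsD {T : Type} {d : ℕ} (S : ℕ → Set T) (h : ℕ → T → (Fin d → ℝ)) {v : ℕ → ℝ} {s τ θ : ℝ}
    (hpos : ∀ n, 1 ≤ v n) (hτ : 0 ≤ τ) (hv : ExpLe v τ) (hs : 0 ≤ s) (hθ1 : θ < 1)
    (hS : ∀ (A : ℕ) (ε : ℝ), 0 < ε → ∃ (C : ℝ) (n₁ : ℕ), ∀ n : ℕ, n₁ ≤ n →
      {t | t ∈ S n ∧ ∀ i, |h n t i| ≤ ((A : ℝ) + 1) * v n}.Finite ∧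
      ({t | t ∈ S n ∧ ∀ i, |h n t i| ≤ ((A : ℝ) + 1) * v n}.ncard : ℝ) ≤ C * (v n) ^ (s + ε)) :
    ∃ E : Set (Fin d → ℝ), dimH E ≤ ENNReal.ofReal ((s + τ) / (1 - θ)) ∧ ∀ α : Fin d → ℝ, α ∉ E →
      ∃ n0 : ℕ, ∀ n : ℕ, n0 ≤ n → ∀ t ∈ S n, ¬ ∀ i, |h n t i - α i * v n| ≤ (v n) ^ θ := by
  have h1θ : 0 < 1 - θ := by linarith
  set F : ℕ → Set (Fin d → ℝ) := fun A => {α : Fin d → ℝ | (∀ i, |α i| ≤ A) ∧ ∀ n1 : ℕ, ∃ n : ℕ, n1 ≤ n ∧
    ∃ t ∈ S n, ∀ i, |h n t i - α i * v n| ≤ (v n) ^ θ} with hF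
  refine ⟨⋃ A, F A, ?_, fun α hαE => ?_⟩
  · rw [dimH_iUnion]
    apply iSup_le
    intro A
    apply ENNReal.le_of_forall_pos_le_add
    intro ε hε _
    have hε' : (0 : ℝ) < ε := by exact_mod_cast hε
    set D : ℝ := (s + τ) / (1 - θ) + ε with hD
    have hD0 : 0 < D := by positivity
    set ε1 : ℝ := ε * (1 - θ) / 2 with hε1
    have hε1p : 0 < ε1 := by positivity
    obtain ⟨C, n₁, hC⟩ := hS A ε1 hε1p
    set S' : ℕ → Set T := fun n => {t | t ∈ S n ∧ n₁ ≤ n} with hS'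
    have hC' : ∀ n : ℕ, {t | t ∈ S' n ∧ ∀ i, |h n t i| ≤ ((A : ℝ) + 1) * v n}.Finite ∧
        ({t | t ∈ S' n ∧ ∀ i, |h n t i| ≤ ((A : ℝ) + 1) * v n}.ncard : ℝ) ≤ |C| * (v n) ^ (s + ε1) := by
      intro n
      rcases le_or_gt n₁ n with hn | hn
      · have h0 : {t | t ∈ S' n ∧ ∀ i, |h n t i| ≤ ((A : ℝ) + 1) * v n} =
            {t | t ∈ S n ∧ ∀ i, |h n t i| ≤ ((A : ℝ) + 1) * v n} := by
          ext t
          constructor
          · rintro ⟨⟨a, -⟩, b⟩
            exact ⟨a, b⟩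
          · rintro ⟨a, b⟩
            exact ⟨⟨a, hn⟩, b⟩
        rw [h0]
        have h1 := hpos n
        exact ⟨(hC n hn).1, (hC n hn).2.trans (mul_le_mul_of_nonneg_right (le_abs_self C) (by positivity))⟩
      · have h0 : {t | t ∈ S' n ∧ ∀ i, |h n t i| ≤ ((A : ℝ) + 1) * v n} = ∅ := by
          ext t
          constructor
          · rintro ⟨⟨-, a⟩, -⟩
            omega
          · intro hf
            exact absurd hf (Set.notMem_empty t)
        rw [h0]
        have h1 := hpos n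
        refine ⟨Set.finite_empty, ?_⟩
        rw [Set.ncard_empty]
        push_cast
        positivity
    have h1 := dim_winD S' h hpos hτ hv (s := s + ε1) (θ := θ) (by positivity) hθ1
      (D := D) (by
        have h2 : D * (1 - θ) = s + τ + 2 * ε1 := by
          rw [hD, add_mul, div_mul_cancel₀ _ h1θ.ne', hε1]
          ring
        rw [h2]
        linarith) |C| (abs_nonneg C) A hC'
    rw [hD, ENNReal.ofReal_add (by positivity) (by positivity), ENNReal.ofReal_coe_nnreal] at h1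
    refine le_trans (dimH_mono ?_) h1
    rintro α ⟨ha, hc⟩
    refine ⟨ha, fun n1 => ?_⟩
    obtain ⟨n, hn, t, ht, hw⟩ := hc (max n1 n₁)
    exact ⟨n, (le_max_left _ _).trans hn, t, ⟨ht, (le_max_right _ _).trans hn⟩, hw⟩
  · obtain ⟨A, hA⟩ : ∃ A : ℕ, ∀ i, |α i| ≤ A := by
      obtain ⟨A, hA⟩ := exists_nat_ge (∑ i, |α i|)
      exact ⟨A, fun i => (single_le_sum (f := fun i => |α i|) (fun i _ => abs_nonneg _) (mem_univ i)).trans hA⟩
    have h1 : α ∉ F A := fun h => hαE (Set.mem_iUnion.2 ⟨_, h⟩)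
    by_contra hcon
    push Not at hcon
    apply h1
    refine ⟨hA, fun n1 => ?_⟩
    obtain ⟨n, hn, t, ht, hw⟩ := hcon n1
    exact ⟨n, hn, t, ht, hw⟩

end Pool.Agent.V11285.WD
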