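import Pool.Agent.V11285.W4

/-! Windows around `α v_n` for sets of integers which depend on the scale. -/

set_option autoImplicit false

open Finset Filter Topology MeasureTheory

namespace Pool.Agent.V11285.W5

open Pool.Agent.V11285.W4

/-- `Bad X N`: the integer `N ≤ X` is bad at the scale `X`. If for some power `P` of the logarithm with
`∑ (log v_n) ^ (B - P) < ∞` there are at most `C X / (log X) ^ P` bad integers at the scale `X`, then for almost all `α > 0`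
no integer `N ≥ 1` with `|N - α v_n| ≤ (log v_n) ^ B` is bad at the scale `⌈(A + 1) v_n⌉`, for all large `n`, where `A ≥ α`. -/
theorem ae_scale (Bad : ℕ → ℕ → Prop) (B P : ℕ) {v : ℕ → ℝ} (hv : ∀ n, 1 ≤ v n) (hf : Fast v)
    (hP : ∀ᶠ n : ℕ in atTop, ((Real.log (v n)) ^ P)⁻¹ ≤ ((n : ℝ) ^ (2 : ℝ))⁻¹)
    (hbad : ∃ (C : ℝ) (X₀ : ℕ), ∀ X : ℕ, X₀ ≤ X →
      ({N : ℕ | 1 ≤ N ∧ N ≤ X ∧ Bad X N}.ncard : ℝ) ≤ C * X / Real.log X ^ (P + B)) :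
    ∀ᵐ α : ℝ, 0 < α → ∃ A : ℕ, α ≤ A ∧ ∃ n₀ : ℕ, ∀ n : ℕ, n₀ ≤ n → ∀ N : ℕ, 1 ≤ N →
      |(N : ℝ) - α * v n| ≤ (Real.log (v n)) ^ B →
      N ≤ ⌈((A : ℝ) + 1) * v n⌉₊ ∧ ¬ Bad ⌈((A : ℝ) + 1) * v n⌉₊ N := by
  have hsum : Summable (fun n : ℕ => ((n : ℝ) ^ (2 : ℝ))⁻¹) := Real.summable_nat_rpow_inv.2 (by norm_num)
  obtain ⟨C, X₀, hX₀⟩ := hbad
  have key : ∀ A : ℕ, ∀ᵐ α : ℝ, ∃ n₀ : ℕ, ∀ n : ℕ, n₀ ≤ n →
      ∀ N ∈ {N : ℕ | 1 ≤ N ∧ N ≤ ⌈((A : ℝ) + 1) * v n⌉₊ ∧ Bad ⌈((A : ℝ) + 1) * v n⌉₊ N},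
        (Real.log (v n)) ^ B < |(N : ℝ) - α * v n| := by
    intro A
    have hA : (0 : ℝ) ≤ A := Nat.cast_nonneg A
    refine Pool.Agent.V11326.WA.ae_fin _ (fun n => (Set.finite_Icc 1 ⌈((A : ℝ) + 1) * v n⌉₊).subset
      fun N hN => ⟨hN.1, hN.2.1⟩) hv (fun n => pow_nonneg (Real.log_nonneg (hv n)) _)
      (c := fun n => (|C| * ((A : ℝ) + 2)) * ((n : ℝ) ^ (2 : ℝ))⁻¹) ?_ (hsum.mul_left _)
    filter_upwards [hP, (hf.tendsto hv).eventually_ge_atTop (X₀ : ℝ), hf.log_tendsto.eventually_gt_atTop 0]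
      with n h1 h2 h3
    have hv0 : 0 < v n := lt_of_lt_of_le one_pos (hv n)
    have hv1 := hv n
    set X : ℕ := ⌈((A : ℝ) + 1) * v n⌉₊ with hX
    have hXv : v n ≤ (X : ℝ) := by
      refine le_trans ?_ (Nat.le_ceil _)
      nlinarith
    have hX2 : (X : ℝ) ≤ ((A : ℝ) + 2) * v n := by
      have := Nat.ceil_lt_add_one (show 0 ≤ ((A : ℝ) + 1) * v n by positivity)
      nlinarith
    have h4 := hX₀ X (by exact_mod_cast h2.trans hXv)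
    have h5 : Real.log (v n) ≤ Real.log X := Real.log_le_log hv0 hXv
    have h6 : C * (X : ℝ) / Real.log X ^ (P + B) ≤ |C| * (((A : ℝ) + 2) * v n) / Real.log (v n) ^ (P + B) := by
      apply div_le_div₀ (by positivity) _ (by positivity)
      · exact pow_le_pow_left₀ h3.le h5 _
      · exact mul_le_mul (le_abs_self C) hX2 (Nat.cast_nonneg _) (abs_nonneg C)
    calc (({N : ℕ | 1 ≤ N ∧ N ≤ X ∧ Bad X N}.ncard : ℕ) : ℝ) * Real.log (v n) ^ B / v n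
        ≤ (|C| * (((A : ℝ) + 2) * v n) / Real.log (v n) ^ (P + B)) * Real.log (v n) ^ B / v n := by
          apply div_le_div_of_nonneg_right _ hv0.le
          exact mul_le_mul_of_nonneg_right (h4.trans h6) (by positivity)
      _ = (|C| * ((A : ℝ) + 2)) * (Real.log (v n) ^ P)⁻¹ := by
          have : Real.log (v n) ≠ 0 := h3.ne'
          rw [pow_add]
          field_simp
      _ ≤ (|C| * ((A : ℝ) + 2)) * ((n : ℝ) ^ (2 : ℝ))⁻¹ := mul_le_mul_of_nonneg_left h1 (by positivity)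
  have hall := ae_all_iff.2 key
  filter_upwards [hall] with α hα hα0
  obtain ⟨A, hA⟩ := exists_nat_ge α
  obtain ⟨n₀, hn₀⟩ := hα A
  obtain ⟨n₁, hn₁⟩ := (hf.log_pow_le hv B).exists_forall_of_atTop
  refine ⟨A, hA, max n₀ n₁, fun n hn N hN hw => ?_⟩
  have h1 := hn₁ n ((le_max_right _ _).trans hn)
  have h2 := (abs_le.1 hw).2
  have h3 : α * v n ≤ A * v n := mul_le_mul_of_nonneg_right hA (by linarith [hv n])
  have h4 : (N : ℝ) ≤ (⌈((A : ℝ) + 1) * v n⌉₊ : ℝ) := by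
    refine le_trans ?_ (Nat.le_ceil _)
    linarith
  have h5 : N ≤ ⌈((A : ℝ) + 1) * v n⌉₊ := by exact_mod_cast h4
  exact ⟨h5, fun hb => absurd (hn₀ n ((le_max_left _ _).trans hn) N ⟨hN, h5, hb⟩) (not_lt.2 hw)⟩

end Pool.Agent.V11285.W5
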