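import Mathlib

set_option autoImplicit false

namespace Pool.Agent.V11285.Hyp

open Finset

section Core

open Classical

variable {U : Type*} [CommGroup U]

/-- swap -/
def sg (a : U × U) : U × U := (a.2, a.1)
/-- the other involution -/
def ta (a : U × U) : U × U := (a.1⁻¹, a.1⁻¹ * a.2)

theorem sg_sg (a : U × U) : sg (sg a) = a := rfl

theorem ta_ta (a : U × U) : ta (ta a) = a := by
  unfold ta; ext <;> simp

theorem braid (a : U × U) : ta (sg (ta a)) = sg (ta (sg a)) := by
  unfold ta sg
  ext
  · simp
  · simp

/-- the orbit of a pair under the symmetric group of degree three -/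
noncomputable def orb (a : U × U) : Finset (U × U) :=
  {a, sg a, ta a, sg (ta a), ta (sg a), sg (ta (sg a))}

theorem card_orb_le (a : U × U) : (orb a).card ≤ 6 := Finset.card_le_six

theorem self_mem_orb (a : U × U) : a ∈ orb a := by simp [orb]

theorem sg_mem_orb {a b : U × U} (h : b ∈ orb a) : sg b ∈ orb a := by
  simp only [orb, mem_insert, mem_singleton] at h ⊢
  rcases h with rfl | rfl | rfl | rfl | rfl | rfl
  · simp
  · simp [sg_sg]
  · simp
  · simp [sg_sg]
  · simp
  · simp [sg_sg]

theorem ta_mem_orb {a b : U × U} (h : b ∈ orb a) : ta b ∈ orb a := by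
  simp only [orb, mem_insert, mem_singleton] at h ⊢
  rcases h with rfl | rfl | rfl | rfl | rfl | rfl
  · simp
  · simp
  · simp [ta_ta]
  · right; right; right; right; right; exact braid a
  · right; left; exact ta_ta _
  · right; right; right; left
    rw [← braid, ta_ta]

/-- invariance under both involutions -/
def Sym (B : Finset (U × U)) : Prop := ∀ a ∈ B, sg a ∈ B ∧ ta a ∈ B

theorem Sym.mem_iff {B : Finset (U × U)} (h : Sym B) {a b : U × U} (hb : b ∈ orb a) :
    b ∈ B ↔ a ∈ B := by
  constructor
  · intro hbB
    simp only [orb, mem_insert, mem_singleton] at hb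
    rcases hb with rfl | rfl | rfl | rfl | rfl | rfl
    · exact hbB
    · exact sg_sg a ▸ (h _ hbB).1
    · exact ta_ta a ▸ (h _ hbB).2
    · have h1 := (h _ hbB).1
      rw [sg_sg] at h1
      have h2 := (h _ h1).2
      rwa [ta_ta] at h2
    · have h1 := (h _ hbB).2
      rw [ta_ta] at h1
      have h2 := (h _ h1).1
      rwa [sg_sg] at h2
    · have h1 := (h _ hbB).1
      rw [sg_sg] at h1
      have h2 := (h _ h1).2
      rw [ta_ta] at h2
      have h3 := (h _ h2).1
      rwa [sg_sg] at h3
  · intro haB
    simp only [orb, mem_insert, mem_singleton] at hb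
    rcases hb with rfl | rfl | rfl | rfl | rfl | rfl
    · exact haB
    · exact (h _ haB).1
    · exact (h _ haB).2
    · exact (h _ (h _ haB).2).1
    · exact (h _ (h _ haB).1).2
    · exact (h _ (h _ (h _ haB).1).2).1

theorem Sym.orb_subset {B : Finset (U × U)} (h : Sym B) {a : U × U} (ha : a ∈ B) :
    orb a ⊆ B := fun _ hb => (h.mem_iff hb).2 ha

theorem sym_orb (a : U × U) : Sym (orb a) := fun _ hb => ⟨sg_mem_orb hb, ta_mem_orb hb⟩

theorem Sym.union {B C : Finset (U × U)} (h : Sym B) (h' : Sym C) : Sym (B ∪ C) := by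
  intro a ha
  rcases mem_union.1 ha with ha | ha
  · exact ⟨mem_union_left _ (h a ha).1, mem_union_left _ (h a ha).2⟩
  · exact ⟨mem_union_right _ (h' a ha).1, mem_union_right _ (h' a ha).2⟩

theorem Sym.sdiff {B C : Finset (U × U)} (h : Sym B) (h' : Sym C) : Sym (B \ C) := by
  intro a ha
  rw [mem_sdiff] at ha
  refine ⟨mem_sdiff.2 ⟨(h a ha.1).1, fun hc => ha.2 ?_⟩, mem_sdiff.2 ⟨(h a ha.1).2, fun hc => ha.2 ?_⟩⟩
  · exact sg_sg a ▸ (h' _ hc).1
  · exact ta_ta a ▸ (h' _ hc).2

/-- all invariant sets -/
noncomputable def SymS (U : Type*) [CommGroup U] [Fintype U] : Finset (Finset (U × U)) :=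
  univ.filter (fun B => Sym B)

theorem core2 [Fintype U] (ε : U) : ∀ (k : ℕ) (S : Finset U), 6 * k ≤ S.card →
    2 ^ k * ((SymS U).filter (fun B => ∀ c ∈ S, (ε, c) ∈ B)).card ≤ (SymS U).card := by
  intro k
  induction k with
  | zero =>
    intro S _
    simpa using Finset.card_filter_le _ _
  | succ k ih =>
    intro S hS
    have hne : S.Nonempty := by
      rw [← Finset.card_pos]; omega
    obtain ⟨c0, hc0⟩ := hne
    set O := orb (ε, c0) with hO
    set S' := S.filter (fun c => (ε, c) ∉ O) with hS'
    have hcard : S.card ≤ S'.card + 6 := by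
      have h1 : (S \ S').card + S'.card = S.card :=
        Finset.card_sdiff_add_card_eq_card (Finset.filter_subset _ _)
      have h2 : (S \ S').card ≤ O.card := by
        apply Finset.card_le_card_of_injOn (fun c => (ε, c))
        · intro c hc
          rw [mem_coe, mem_sdiff, hS', mem_filter] at hc
          rw [mem_coe]
          by_contra hcO
          exact hc.2 ⟨hc.1, hcO⟩
        · intro c _ c' _ h
          simpa using h
      have h3 := card_orb_le (ε, c0)
      rw [← hO] at h3
      omega
    have hih := ih S' (by omega)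
    set F := (SymS U).filter (fun B => ∀ c ∈ S, (ε, c) ∈ B) with hF
    set F' := (SymS U).filter (fun B => ∀ c ∈ S', (ε, c) ∈ B) with hF'
    have hsub : F ⊆ F' := by
      intro B hB
      rw [hF, mem_filter] at hB
      rw [hF', mem_filter]
      exact ⟨hB.1, fun c hc => hB.2 c (mem_of_mem_filter c hc)⟩
    have himg : F.image (fun B => B \ O) ⊆ F' := by
      intro B' hB'
      obtain ⟨B, hB, rfl⟩ := mem_image.1 hB'
      rw [hF, mem_filter] at hB
      rw [hF', mem_filter]
      refine ⟨?_, fun c hc => ?_⟩
      · have : Sym B := by simpa [SymS] using hB.1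
        simpa [SymS] using this.sdiff (sym_orb _)
      · rw [hS', mem_filter] at hc
        exact mem_sdiff.2 ⟨hB.2 c hc.1, hc.2⟩
    have hdisj : Disjoint F (F.image (fun B => B \ O)) := by
      rw [Finset.disjoint_left]
      intro B hB hB'
      obtain ⟨B₁, hB₁, h⟩ := mem_image.1 hB'
      rw [hF, mem_filter] at hB
      have h1 := hB.2 c0 hc0
      rw [← h, mem_sdiff] at h1
      exact h1.2 (self_mem_orb _)
    have hinj : (F.image (fun B => B \ O)).card = F.card := by
      apply Finset.card_image_of_injOn
      intro B hB B' hB' h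
      simp only at h
      rw [mem_coe, hF, mem_filter] at hB hB'
      have s1 : Sym B := by simpa [SymS] using hB.1
      have s2 : Sym B' := by simpa [SymS] using hB'.1
      have o1 : O ⊆ B := s1.orb_subset (hB.2 c0 hc0)
      have o2 : O ⊆ B' := s2.orb_subset (hB'.2 c0 hc0)
      rw [← Finset.sdiff_union_of_subset o1, ← Finset.sdiff_union_of_subset o2, h]
    have h2F : 2 * F.card ≤ F'.card := by
      calc 2 * F.card = F.card + (F.image (fun B => B \ O)).card := by rw [hinj]; ring
        _ = (F ∪ F.image (fun B => B \ O)).card := (Finset.card_union_of_disjoint hdisj).symm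
        _ ≤ F'.card := Finset.card_le_card (Finset.union_subset hsub himg)
    calc 2 ^ (k + 1) * F.card = 2 ^ k * (2 * F.card) := by ring
      _ ≤ 2 ^ k * F'.card := Nat.mul_le_mul_left _ h2F
      _ ≤ _ := hih

theorem core1_aux [Fintype U] (ρ s v : U) : ∀ (k : ℕ) (S : Finset U), 24 * k ≤ S.card →
    4 ^ k * ((SymS U).filter (fun B => ∀ u ∈ S, ¬ ((ρ, s * u) ∈ B ∧ (u, v) ∈ B))).card
      ≤ 3 ^ k * (SymS U).card := by
  intro k
  induction k with
  | zero =>
    intro S _
    simpa using Finset.card_filter_le _ _
  | succ k ih =>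
    intro S hS
    have hne : S.Nonempty := by
      rw [← Finset.card_pos]; omega
    obtain ⟨u0, hu0⟩ := hne
    set O := orb (ρ, s * u0) ∪ orb (u0, v) with hO
    have symO : Sym O := (sym_orb _).union (sym_orb _)
    have cardO : O.card ≤ 12 := by
      have h1 := Finset.card_union_le (orb (ρ, s * u0)) (orb (u0, v))
      have h2 := card_orb_le (ρ, s * u0)
      have h3 := card_orb_le (u0, v)
      rw [← hO] at h1
      omega
    set S' := S.filter (fun u => (ρ, s * u) ∉ O ∧ (u, v) ∉ O) with hS'
    have hcard : S.card ≤ S'.card + 24 := by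
      have h1 : (S \ S').card + S'.card = S.card :=
        Finset.card_sdiff_add_card_eq_card (Finset.filter_subset _ _)
      have h2 : (S \ S') ⊆
          S.filter (fun u => (ρ, s * u) ∈ O) ∪ S.filter (fun u => (u, v) ∈ O) := by
        intro u hu
        rw [mem_sdiff, hS', mem_filter] at hu
        rw [mem_union, mem_filter, mem_filter]
        by_cases h : (ρ, s * u) ∈ O
        · left; exact ⟨hu.1, h⟩
        · right; refine ⟨hu.1, ?_⟩
          by_contra h'
          exact hu.2 ⟨hu.1, h, h'⟩
      have h3 : (S.filter (fun u => (ρ, s * u) ∈ O)).card ≤ O.card := by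
        apply Finset.card_le_card_of_injOn (fun u => (ρ, s * u))
        · intro c hc
          simp only [coe_filter, Set.mem_ofPred_eq] at hc
          exact hc.2
        · intro c _ c' _ h
          simpa using h
      have h4 : (S.filter (fun u => (u, v) ∈ O)).card ≤ O.card := by
        apply Finset.card_le_card_of_injOn (fun u => (u, v))
        · intro c hc
          simp only [coe_filter, Set.mem_ofPred_eq] at hc
          exact hc.2
        · intro c _ c' _ h
          simpa using h
      have h5 := (Finset.card_le_card h2).trans (Finset.card_union_le _ _)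
      omega
    have hih := ih S' (by omega)
    set F := (SymS U).filter (fun B => ∀ u ∈ S, ¬ ((ρ, s * u) ∈ B ∧ (u, v) ∈ B)) with hF
    set X := (SymS U).filter (fun B => ∀ u ∈ S', ¬ ((ρ, s * u) ∈ B ∧ (u, v) ∈ B)) with hX
    set Y := X.filter (fun B => (ρ, s * u0) ∈ B ∧ (u0, v) ∈ B) with hY
    have hsub : F ⊆ X \ Y := by
      intro B hB
      rw [hF, mem_filter] at hB
      rw [mem_sdiff, hX, mem_filter]
      refine ⟨⟨hB.1, fun c hc => hB.2 c (mem_of_mem_filter c hc)⟩, fun h => ?_⟩
      rw [hY, mem_filter] at h
      exact hB.2 u0 hu0 h.2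
    have hYX : Y ⊆ X := Finset.filter_subset _ _
    have hXY : X.card ≤ 4 * Y.card := by
      have hmaps : ∀ B ∈ X, (B ∪ O) ∈ Y := by
        intro B hB
        rw [hX, mem_filter] at hB
        have hsym : Sym B := by simpa [SymS] using hB.1
        rw [hY, mem_filter, hX, mem_filter]
        refine ⟨⟨by simpa [SymS] using hsym.union symO, fun u hu => ?_⟩, ?_, ?_⟩
        · have hu' := hu
          rw [hS', mem_filter] at hu'
          intro h
          apply hB.2 u hu
          constructor
          · rcases mem_union.1 h.1 with h | h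
            · exact h
            · exact absurd h hu'.2.1
          · rcases mem_union.1 h.2 with h | h
            · exact h
            · exact absurd h hu'.2.2
        · exact mem_union_right _ (mem_union_left _ (self_mem_orb _))
        · exact mem_union_right _ (mem_union_right _ (self_mem_orb _))
      have h4 : (univ : Finset (Bool × Bool)).card = 4 := rfl
      calc X.card ≤ (Y ×ˢ (univ : Finset (Bool × Bool))).card := by
            apply Finset.card_le_card_of_injOn
              (fun B => (B ∪ O, decide ((ρ, s * u0) ∈ B), decide ((u0, v) ∈ B)))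
            · intro B hB
              simp only [coe_product, Set.mem_prod, mem_coe, mem_univ, and_true]
              exact hmaps B hB
            · intro B hB B' hB' h
              rw [mem_coe, hX, mem_filter] at hB hB'
              have s1 : Sym B := by simpa [SymS] using hB.1
              have s2 : Sym B' := by simpa [SymS] using hB'.1
              simp only [Prod.mk.injEq, decide_eq_decide] at h
              obtain ⟨h1, h2, h3⟩ := h
              ext z
              by_cases hz : z ∈ orb (ρ, s * u0)
              · rw [s1.mem_iff hz, s2.mem_iff hz, h2]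
              · by_cases hz' : z ∈ orb (u0, v)
                · rw [s1.mem_iff hz', s2.mem_iff hz', h3]
                · have hzO : z ∉ O := by
                    rw [hO, mem_union, not_or]; exact ⟨hz, hz'⟩
                  have : z ∈ B ∪ O ↔ z ∈ B' ∪ O := by rw [h1]
                  simpa [mem_union, hzO] using this
        _ = 4 * Y.card := by rw [Finset.card_product, h4]; ring
    have h4F : 4 * F.card ≤ 3 * X.card := by
      have h1 := Finset.card_le_card hsub
      rw [Finset.card_sdiff_of_subset hYX] at h1
      have h2 := Finset.card_le_card hYX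
      omega
    calc 4 ^ (k + 1) * F.card = 4 ^ k * (4 * F.card) := by ring
      _ ≤ 4 ^ k * (3 * X.card) := Nat.mul_le_mul_left _ h4F
      _ = 3 * (4 ^ k * X.card) := by ring
      _ ≤ 3 * (3 ^ k * (SymS U).card) := Nat.mul_le_mul_left _ hih
      _ = 3 ^ (k + 1) * (SymS U).card := by ring

/-- the strong covering property -/
def Good (B : Finset (U × U)) : Prop := ∀ ρ s v : U, ∃ u : U, (ρ, s * u) ∈ B ∧ (u, v) ∈ B

theorem core1 [Fintype U] (h : 2 * (Fintype.card U) ^ 3 * 3 ^ (Fintype.card U / 24) ≤ 4 ^ (Fintype.card U / 24)) :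
    (SymS U).card ≤ 2 * ((SymS U).filter (fun B => Good B)).card := by
  set r := Fintype.card U with hr
  set k := r / 24 with hk
  set Bad := (SymS U).filter (fun B => ¬ Good B) with hBad
  have hsub : Bad ⊆ (univ : Finset (U × U × U)).biUnion (fun t =>
      (SymS U).filter (fun B => ∀ u ∈ (univ : Finset U), ¬ ((t.1, t.2.1 * u) ∈ B ∧ (u, t.2.2) ∈ B))) := by
    intro B hB
    rw [hBad, mem_filter] at hB
    have hb := hB.2
    unfold Good at hb
    push Not at hb
    obtain ⟨ρ, s, v, hb⟩ := hb
    rw [mem_biUnion]
    refine ⟨(ρ, s, v), mem_univ _, ?_⟩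
    rw [mem_filter]
    exact ⟨hB.1, fun u _ h => hb u h.1 h.2⟩
  have hbad : 4 ^ k * Bad.card ≤ r ^ 3 * (3 ^ k * (SymS U).card) := by
    calc 4 ^ k * Bad.card ≤ 4 ^ k * (∑ t : U × U × U, ((SymS U).filter
            (fun B => ∀ u ∈ (univ : Finset U), ¬ ((t.1, t.2.1 * u) ∈ B ∧ (u, t.2.2) ∈ B))).card) :=
          Nat.mul_le_mul_left _ ((Finset.card_le_card hsub).trans Finset.card_biUnion_le)
      _ = ∑ t : U × U × U, 4 ^ k * ((SymS U).filter
            (fun B => ∀ u ∈ (univ : Finset U), ¬ ((t.1, t.2.1 * u) ∈ B ∧ (u, t.2.2) ∈ B))).card :=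
          Finset.mul_sum _ _ _
      _ ≤ ∑ _t : U × U × U, 3 ^ k * (SymS U).card := by
          apply Finset.sum_le_sum
          intro t _
          apply core1_aux
          rw [Finset.card_univ, ← hr, hk]
          omega
      _ = r ^ 3 * (3 ^ k * (SymS U).card) := by
          rw [Finset.sum_const, Finset.card_univ, smul_eq_mul, Fintype.card_prod, Fintype.card_prod, ← hr]
          ring
  have h2 : 4 ^ k * (2 * Bad.card) ≤ 4 ^ k * (SymS U).card := by
    calc 4 ^ k * (2 * Bad.card) = 2 * (4 ^ k * Bad.card) := by ring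
      _ ≤ 2 * (r ^ 3 * (3 ^ k * (SymS U).card)) := Nat.mul_le_mul_left _ hbad
      _ = (2 * r ^ 3 * 3 ^ k) * (SymS U).card := by ring
      _ ≤ 4 ^ k * (SymS U).card := Nat.mul_le_mul_right _ h
  have h3 : 2 * Bad.card ≤ (SymS U).card := Nat.le_of_mul_le_mul_left h2 (by positivity)
  have h4 : (SymS U).card ≤ ((SymS U).filter (fun B => Good B)).card + Bad.card := by
    refine (Finset.card_le_card ?_).trans (Finset.card_union_le _ _)
    intro B hB
    rw [mem_union, hBad, mem_filter, mem_filter]
    by_cases hg : Good B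
    · left; exact ⟨hB, hg⟩
    · right; exact ⟨hB, hg⟩
  omega

theorem card_symS_pos [Fintype U] : 2 ^ (Fintype.card U / 6) ≤ (SymS U).card := by
  have h := core2 (1 : U) (Fintype.card U / 6) univ (by rw [Finset.card_univ]; omega)
  have h1 : 1 ≤ ((SymS U).filter (fun B => ∀ c ∈ (univ : Finset U), ((1 : U), c) ∈ B)).card := by
    rw [Nat.one_le_iff_ne_zero, Finset.card_ne_zero]
    exact ⟨univ, by simp [SymS, Sym]⟩
  calc 2 ^ (Fintype.card U / 6) = 2 ^ (Fintype.card U / 6) * 1 := by ring
    _ ≤ _ := Nat.mul_le_mul_left _ h1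
    _ ≤ _ := h

end Core

end Pool.Agent.V11285.Hyp
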