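import Mathlib
import Pool.Agent.V11285.Hyp1

set_option autoImplicit false

namespace Pool.Agent.V11285.Hyp

open Finset

/-- pairs of operations on `Fin (r+1)` -/
abbrev Str (r : ℕ) := (Fin (r+1) → Fin (r+1) → Fin (r+1)) × (Fin (r+1) → Fin (r+1) → Set (Fin (r+1)))

/-- multiplicative axioms -/
def IsMul {r : ℕ} (m : Fin (r+1) → Fin (r+1) → Fin (r+1)) : Prop :=
  (∃ u : Fin (r+1), u ≠ 0 ∧ ∀ a, m u a = a) ∧
  (∀ a b, m a b = m b a) ∧
  (∀ a b c, m (m a b) c = m a (m b c)) ∧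
  (∀ a, m 0 a = 0) ∧
  (∀ a b, a ≠ 0 → b ≠ 0 → m a b ≠ 0) ∧
  (∀ a, a ≠ 0 → ∃ b, ∀ c, m (m a b) c = c)

/-- hyperfield structure on `Fin (r+1)` with zero `0` -/
def IsHyp {r : ℕ} (p : Str r) : Prop :=
  ((∃ u : Fin (r+1), u ≠ 0 ∧ ∀ a, p.1 u a = a) ∧
                (∀ a b, p.1 a b = p.1 b a) ∧
                (∀ a b c, p.1 (p.1 a b) c = p.1 a (p.1 b c)) ∧
                (∀ a, p.1 0 a = 0) ∧
                (∀ a b, a ≠ 0 → b ≠ 0 → p.1 a b ≠ 0) ∧
                (∀ a, a ≠ 0 → ∃ b, ∀ c, p.1 (p.1 a b) c = c) ∧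
                (∀ a b, (p.2 a b).Nonempty) ∧
                (∀ a b, p.2 a b = p.2 b a) ∧
                (∀ a b c, (⋃ x ∈ p.2 a b, p.2 x c) = ⋃ x ∈ p.2 b c, p.2 a x) ∧
                (∀ a, p.2 0 a = {a}) ∧
                (∀ a, ∃! b, (0 : Fin (r+1)) ∈ p.2 a b) ∧
                (∀ a b c d, a ∈ p.2 b c → (0 : Fin (r+1)) ∈ p.2 b d → c ∈ p.2 a d) ∧
                (∀ a b c, (fun x => p.1 a x) '' p.2 b c = p.2 (p.1 a b) (p.1 a c)))

/-- the axioms without hyper-associativity -/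
def IsPre {r : ℕ} (p : Str r) : Prop :=
  IsMul p.1 ∧
  (∀ a b, p.2 a b = p.2 b a) ∧
  (∀ a, p.2 0 a = {a}) ∧
  (∀ a, ∃! b, (0 : Fin (r+1)) ∈ p.2 a b) ∧
  (∀ a b c d, a ∈ p.2 b c → (0 : Fin (r+1)) ∈ p.2 b d → c ∈ p.2 a d) ∧
  (∀ a b c, (fun x => p.1 a x) '' p.2 b c = p.2 (p.1 a b) (p.1 a c))

/-- the difference of a nonzero element with itself is everything -/
def Full {r : ℕ} (p : Str r) : Prop := ∀ a b, a ≠ 0 → (0 : Fin (r+1)) ∈ p.2 a b → p.2 a b = Set.univ

/-- a multiplicative structure -/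
structure MulD (r : ℕ) where
  m : Fin (r+1) → Fin (r+1) → Fin (r+1)
  h : IsMul m

namespace MulD

/-- the nonzero elements -/
def U {r : ℕ} (_M : MulD r) : Type := {a : Fin (r+1) // a ≠ 0}

variable {r : ℕ} (M : MulD r)

/-- the underlying element -/
def val {M : MulD r} (x : M.U) : Fin (r+1) := x.1

theorem val_ne {M : MulD r} (x : M.U) : val x ≠ 0 := x.2

theorem val_inj {M : MulD r} {x y : M.U} (h : val x = val y) : x = y := Subtype.ext h

/-- the identity -/
noncomputable def e : Fin (r+1) := M.h.1.choose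

theorem e_ne : M.e ≠ 0 := M.h.1.choose_spec.1

theorem e_mul (a : Fin (r+1)) : M.m M.e a = a := M.h.1.choose_spec.2 a

theorem inv_ex (a : Fin (r+1)) (ha : a ≠ 0) : ∃ b, b ≠ 0 ∧ M.m b a = M.e := by
  obtain ⟨b, hb⟩ := M.h.2.2.2.2.2 a ha
  have h1 : M.m a b = M.e := by
    have := hb M.e
    rw [M.h.2.1, M.e_mul] at this
    exact this
  refine ⟨b, ?_, by rw [M.h.2.1, h1]⟩
  rintro rfl
  rw [M.h.2.1, M.h.2.2.2.1] at h1
  exact M.e_ne h1.symm

noncomputable instance : CommGroup M.U where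
  mul x y := ⟨M.m x.1 y.1, M.h.2.2.2.2.1 _ _ x.2 y.2⟩
  mul_assoc x y z := Subtype.ext (M.h.2.2.1 _ _ _)
  one := ⟨M.e, M.e_ne⟩
  one_mul x := Subtype.ext (M.e_mul _)
  mul_one x := Subtype.ext (by
    show M.m x.1 M.e = x.1
    rw [M.h.2.1]; exact M.e_mul _)
  inv x := ⟨(M.inv_ex x.1 x.2).choose, (M.inv_ex x.1 x.2).choose_spec.1⟩
  inv_mul_cancel x := Subtype.ext (M.inv_ex x.1 x.2).choose_spec.2
  mul_comm x y := Subtype.ext (M.h.2.1 _ _)

noncomputable instance : Fintype M.U := inferInstanceAs (Fintype {a : Fin (r+1) // a ≠ 0})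

theorem card_U : Fintype.card M.U = r := by
  have : Fintype.card M.U = Fintype.card {a : Fin (r+1) // a ≠ 0} := rfl
  rw [this, Fintype.card_subtype_compl]
  simp

theorem val_mul {M : MulD r} (x y : M.U) : val (x * y) = M.m (val x) (val y) := rfl

theorem cases (a : Fin (r+1)) : a = 0 ∨ ∃ x : M.U, val x = a := by
  by_cases h : a = 0
  · exact Or.inl h
  · exact Or.inr ⟨⟨a, h⟩, rfl⟩

theorem zero_m (a : Fin (r+1)) : M.m 0 a = 0 := M.h.2.2.2.1 a
theorem m_zero (a : Fin (r+1)) : M.m a 0 = 0 := by rw [M.h.2.1]; exact M.zero_m a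

/-- hyperaddition attached to a set of pairs -/
def addB (B : Finset (M.U × M.U)) (a b : Fin (r+1)) : Set (Fin (r+1)) :=
  {z | (a = 0 ∧ z = b) ∨ (b = 0 ∧ z = a) ∨
    (∃ x y : M.U, val x = a ∧ val y = b ∧
      ((z = 0 ∧ x = y) ∨ ∃ w : M.U, val w = z ∧ (x⁻¹ * y, x⁻¹ * w) ∈ B))}

variable (B : Finset (M.U × M.U))

theorem zero_addB (b : Fin (r+1)) : M.addB B 0 b = {b} := by
  ext z
  simp only [addB, Set.mem_ofPred_eq, Set.mem_singleton_iff]
  constructor
  · rintro (⟨-, h⟩ | ⟨h, h'⟩ | ⟨x, y, hx, -⟩)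
    · exact h
    · rw [h, h']
    · exact absurd hx (val_ne x)
  · intro h; left; exact ⟨trivial, h⟩

theorem addB_zero (b : Fin (r+1)) : M.addB B b 0 = {b} := by
  ext z
  simp only [addB, Set.mem_ofPred_eq, Set.mem_singleton_iff]
  constructor
  · rintro (⟨h, h'⟩ | ⟨-, h'⟩ | ⟨x, y, -, hy, -⟩)
    · rw [h, h']
    · exact h'
    · exact absurd hy (val_ne y)
  · intro h; right; left; exact ⟨trivial, h⟩

theorem zero_mem_addB (x y : M.U) : (0 : Fin (r+1)) ∈ M.addB B (val x) (val y) ↔ x = y := by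
  simp only [addB, Set.mem_ofPred_eq]
  constructor
  · rintro (⟨h, -⟩ | ⟨h, -⟩ | ⟨x', y', hx, hy, (⟨-, h⟩ | ⟨w, hw, -⟩)⟩)
    · exact absurd h (val_ne x)
    · exact absurd h (val_ne y)
    · rw [← val_inj hx, ← val_inj hy, h]
    · exact absurd hw (val_ne w)
  · intro h
    right; right
    exact ⟨x, y, rfl, rfl, Or.inl ⟨trivial, h⟩⟩

theorem mem_addB (x y w : M.U) : val w ∈ M.addB B (val x) (val y) ↔ (x⁻¹ * y, x⁻¹ * w) ∈ B := by
  simp only [addB, Set.mem_ofPred_eq]
  constructor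
  · rintro (⟨h, -⟩ | ⟨h, -⟩ | ⟨x', y', hx, hy, (⟨h, -⟩ | ⟨w', hw, h⟩)⟩)
    · exact absurd h (val_ne x)
    · exact absurd h (val_ne y)
    · exact absurd h (val_ne w)
    · rwa [val_inj hx, val_inj hy, val_inj hw] at h
  · intro h
    right; right
    exact ⟨x, y, rfl, rfl, Or.inr ⟨w, rfl, h⟩⟩

theorem addB_inj {B B' : Finset (M.U × M.U)} (h : M.addB B = M.addB B') : B = B' := by
  ext ⟨x, c⟩
  have h1 := M.mem_addB B 1 x c
  have h2 := M.mem_addB B' 1 x c
  simp only [inv_one, one_mul] at h1 h2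
  rw [← h1, ← h2, h]

variable {B} in
theorem isHyp_addB (hs : Sym B) (hg : Good B) : IsHyp ((M.m, M.addB B) : Str r) := by
  have hta : ∀ x y z : M.U, (x⁻¹ * y, x⁻¹ * z) ∈ B → (y⁻¹ * x, y⁻¹ * z) ∈ B := by
    intro x y z h
    have h1 := (hs _ h).2
    unfold ta at h1
    simp only at h1
    convert h1 using 2
    · group
    · rw [mul_inv_rev, inv_inv]; group
  have hsg : ∀ x y z : M.U, (x, y) ∈ B → (y, x) ∈ B := by
    intro x y z h
    exact (hs _ h).1
  have hcomm : ∀ a b, M.addB B a b = M.addB B b a := by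
    intro a b
    rcases M.cases a with rfl | ⟨x, rfl⟩
    · rw [zero_addB, addB_zero]
    rcases M.cases b with rfl | ⟨y, rfl⟩
    · rw [zero_addB, addB_zero]
    ext z
    rcases M.cases z with rfl | ⟨z, rfl⟩
    · rw [zero_mem_addB, zero_mem_addB]; exact eq_comm
    · rw [mem_addB, mem_addB]
      exact ⟨hta _ _ _, hta _ _ _⟩
  have hrev : ∀ x y z : M.U, (x⁻¹ * y, x⁻¹ * z) ∈ B → (x⁻¹ * z, x⁻¹ * y) ∈ B := by
    intro x y z h
    exact (hs _ h).1
  refine ⟨M.h.1, M.h.2.1, M.h.2.2.1, M.h.2.2.2.1, M.h.2.2.2.2.1, M.h.2.2.2.2.2, ?_, hcomm, ?_, ?_, ?_, ?_, ?_⟩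
  · intro a b
    rcases M.cases a with rfl | ⟨x, rfl⟩
    · simp only [zero_addB]; exact ⟨b, rfl⟩
    rcases M.cases b with rfl | ⟨y, rfl⟩
    · simp only [addB_zero]; exact ⟨_, rfl⟩
    obtain ⟨u, hu, -⟩ := hg (x⁻¹ * y) 1 1
    rw [one_mul] at hu
    refine ⟨val (x * u), ?_⟩
    show val (x * u) ∈ M.addB B (val x) (val y)
    rw [mem_addB]
    simpa using hu
  · intro a b c
    show (⋃ x ∈ M.addB B a b, M.addB B x c) = ⋃ x ∈ M.addB B b c, M.addB B a x
    rcases M.cases a with rfl | ⟨x, rfl⟩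
    · simp [zero_addB]
    rcases M.cases b with rfl | ⟨y, rfl⟩
    · simp [zero_addB, addB_zero]
    rcases M.cases c with rfl | ⟨z, rfl⟩
    · simp [addB_zero]
    ext w
    simp only [Set.mem_iUnion, exists_prop]
    rcases M.cases w with rfl | ⟨w, rfl⟩
    · constructor
      · rintro ⟨v, hv, h0⟩
        rcases M.cases v with rfl | ⟨v, rfl⟩
        · rw [zero_addB, Set.mem_singleton_iff] at h0
          exact absurd h0.symm (val_ne z)
        rw [zero_mem_addB] at h0
        subst h0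
        rw [mem_addB] at hv
        refine ⟨val x, ?_, (M.zero_mem_addB B x x).2 rfl⟩
        rw [mem_addB]
        exact hrev _ _ _ (hta _ _ _ hv)
      · rintro ⟨v, hv, h0⟩
        rcases M.cases v with rfl | ⟨v, rfl⟩
        · rw [addB_zero, Set.mem_singleton_iff] at h0
          exact absurd h0.symm (val_ne x)
        rw [zero_mem_addB] at h0
        subst h0
        rw [mem_addB] at hv
        refine ⟨val z, ?_, (M.zero_mem_addB B z z).2 rfl⟩
        rw [mem_addB]
        exact hta _ _ _ (hrev _ _ _ hv)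
    · constructor
      · intro _
        obtain ⟨u, hu1, hu2⟩ := hg (y⁻¹ * z) (y⁻¹ * x) (x⁻¹ * w)
        refine ⟨val (x * u), ?_, ?_⟩
        · rw [mem_addB]; simpa [mul_assoc] using hu1
        · rw [mem_addB]; simpa using hu2
      · intro _
        obtain ⟨u, hu1, hu2⟩ := hg (x⁻¹ * y) (x⁻¹ * z) (z⁻¹ * w)
        refine ⟨val (z * u), ?_, ?_⟩
        · rw [mem_addB]; simpa [mul_assoc] using hu1
        · rw [hcomm, mem_addB]; simpa using hu2
  · intro a
    exact M.zero_addB B a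
  · intro a
    rcases M.cases a with rfl | ⟨x, rfl⟩
    · refine ⟨0, ?_, ?_⟩
      · simp [zero_addB]
      · intro b hb
        simp only [zero_addB, Set.mem_singleton_iff] at hb
        exact hb.symm
    · refine ⟨val x, (M.zero_mem_addB B x x).2 rfl, ?_⟩
      intro b hb
      rcases M.cases b with rfl | ⟨y, rfl⟩
      · simp only [addB_zero, Set.mem_singleton_iff] at hb
        exact absurd hb.symm (val_ne x)
      · rw [(M.zero_mem_addB B x y).1 hb]
  · intro a b c d hac hbd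
    change a ∈ M.addB B b c at hac
    change 0 ∈ M.addB B b d at hbd
    show c ∈ M.addB B a d
    rcases M.cases b with rfl | ⟨y, rfl⟩
    · rw [zero_addB, Set.mem_singleton_iff] at hac hbd
      subst hac; subst hbd
      rw [addB_zero]; rfl
    rcases M.cases d with rfl | ⟨w, rfl⟩
    · rw [addB_zero, Set.mem_singleton_iff] at hbd
      exact absurd hbd.symm (val_ne y)
    rw [zero_mem_addB] at hbd
    subst hbd
    rcases M.cases c with rfl | ⟨z, rfl⟩
    · rw [addB_zero, Set.mem_singleton_iff] at hac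
      subst hac
      rw [zero_mem_addB]
    rcases M.cases a with rfl | ⟨x, rfl⟩
    · rw [zero_mem_addB] at hac
      subst hac
      rw [zero_addB]; rfl
    rw [mem_addB] at hac ⊢
    exact hta _ _ _ (hrev _ _ _ hac)
  · intro a b c
    show (fun x => M.m a x) '' M.addB B b c = M.addB B (M.m a b) (M.m a c)
    rcases M.cases a with rfl | ⟨x, rfl⟩
    · simp only [zero_m, zero_addB]
      rw [Set.Nonempty.image_const]
      rcases M.cases b with rfl | ⟨x, rfl⟩
      · simp only [zero_addB]; exact ⟨c, rfl⟩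
      rcases M.cases c with rfl | ⟨y, rfl⟩
      · simp only [addB_zero]; exact ⟨_, rfl⟩
      obtain ⟨u, hu, -⟩ := hg (x⁻¹ * y) 1 1
      rw [one_mul] at hu
      refine ⟨val (x * u), ?_⟩
      rw [mem_addB]
      simpa using hu
    rcases M.cases b with rfl | ⟨y, rfl⟩
    · simp [m_zero, zero_addB]
    rcases M.cases c with rfl | ⟨z, rfl⟩
    · simp [m_zero, addB_zero]
    rw [← val_mul, ← val_mul]
    ext w
    simp only [Set.mem_image]
    constructor
    · rintro ⟨v, hv, rfl⟩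
      rcases M.cases v with rfl | ⟨v, rfl⟩
      · rw [zero_mem_addB] at hv
        subst hv
        rw [m_zero, zero_mem_addB]
      · rw [mem_addB] at hv
        rw [← val_mul, mem_addB]
        convert hv using 2
        · group
        · group
    · intro hw
      rcases M.cases w with rfl | ⟨w, rfl⟩
      · rw [zero_mem_addB] at hw
        refine ⟨0, ?_, M.m_zero _⟩
        rw [zero_mem_addB]
        exact mul_left_cancel hw
      · rw [mem_addB] at hw
        refine ⟨val (x⁻¹ * w), ?_, ?_⟩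
        · rw [mem_addB]
          convert hw using 2
          · group
          · group
        · rw [← val_mul]; simp

end MulD

end Pool.Agent.V11285.Hyp
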