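import Mathlib
import Pool.Agent.V11285.Hyp2

set_option autoImplicit false

namespace Pool.Agent.V11285.Hyp

open Finset Classical

namespace MulD

variable {r : ℕ} (M : MulD r)

section enc

variable {M} {p : Str r} (hp : IsPre p) (hm : p.1 = M.m)

include hp hm in
theorem scale {x y z : M.U} (a : M.U) (h : val z ∈ p.2 (val x) (val y)) :
    val (a * z) ∈ p.2 (val (a * x)) (val (a * y)) := by
  have h1 := hp.2.2.2.2.2 (val a) (val x) (val y)
  rw [hm] at h1
  rw [val_mul, val_mul, val_mul, ← h1]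
  exact ⟨_, h, rfl⟩

include hp hm in
theorem scale0 {x y : M.U} (a : M.U) (h : (0 : Fin (r+1)) ∈ p.2 (val x) (val y)) :
    (0 : Fin (r+1)) ∈ p.2 (val (a * x)) (val (a * y)) := by
  have h1 := hp.2.2.2.2.2 (val a) (val x) (val y)
  rw [hm] at h1
  rw [val_mul, val_mul, ← h1]
  exact ⟨_, h, M.m_zero _⟩

include hp in
theorem pcomm {a b c : Fin (r+1)} (h : a ∈ p.2 b c) : a ∈ p.2 c b := by
  rw [hp.2.1]; exact h

include hp in
theorem puniq {x y y' : M.U} (h : (0 : Fin (r+1)) ∈ p.2 (val x) (val y))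
    (h' : (0 : Fin (r+1)) ∈ p.2 (val x) (val y')) : y = y' :=
  val_inj ((hp.2.2.2.1 (val x)).unique h h')

include hp in
theorem neg_ex : ∃ ε : M.U, (0 : Fin (r+1)) ∈ p.2 (val (1 : M.U)) (val ε) := by
  obtain ⟨b, hb, -⟩ := hp.2.2.2.1 (val (1 : M.U))
  rcases M.cases b with rfl | ⟨x, rfl⟩
  · rw [hp.2.1, hp.2.2.1, Set.mem_singleton_iff] at hb
    exact absurd hb.symm (val_ne (1 : M.U))
  · exact ⟨x, hb⟩

end enc

/-- the element minus one -/
noncomputable def epsP (p : Str r) : M.U :=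
  if h : ∃ ε : M.U, (0 : Fin (r+1)) ∈ p.2 (val (1 : M.U)) (val ε) then h.choose else 1

/-- the set of pairs attached to a hyperaddition -/
noncomputable def BP (p : Str r) : Finset (M.U × M.U) :=
  univ.filter (fun a => val (M.epsP p * a.2) ∈ p.2 (val (1 : M.U)) (val a.1))

variable {M}

theorem epsP_spec {p : Str r} (hp : IsPre p) :
    (0 : Fin (r+1)) ∈ p.2 (val (1 : M.U)) (val (M.epsP p)) := by
  unfold epsP
  rw [dif_pos (neg_ex hp)]
  exact (neg_ex hp).choose_spec

theorem eps_mul {p : Str r} (hp : IsPre p) (hm : p.1 = M.m) : M.epsP p * M.epsP p = 1 := by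
  have h1 := scale0 hp hm (M.epsP p) (epsP_spec hp)
  rw [mul_one] at h1
  exact puniq hp h1 (pcomm hp (epsP_spec hp))

theorem mem_BP {p : Str r} (x c : M.U) :
    (x, c) ∈ M.BP p ↔ val (M.epsP p * c) ∈ p.2 (val (1 : M.U)) (val x) := by
  simp [BP]

theorem sym_BP {p : Str r} (hp : IsPre p) (hm : p.1 = M.m) : Sym (M.BP p) := by
  rintro ⟨x, c⟩ h
  rw [mem_BP] at h
  constructor
  · show (c, x) ∈ M.BP p
    rw [mem_BP]
    have h1 : val x ∈ p.2 (val (M.epsP p * c)) (val (M.epsP p)) :=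
      hp.2.2.2.2.1 _ _ _ _ h (epsP_spec hp)
    have h2 := scale hp hm (M.epsP p) h1
    rw [eps_mul hp hm, ← mul_assoc, eps_mul hp hm, one_mul] at h2
    exact pcomm hp h2
  · show (x⁻¹, x⁻¹ * c) ∈ M.BP p
    rw [mem_BP]
    have h2 := scale hp hm x⁻¹ (pcomm hp h)
    rw [inv_mul_cancel, mul_one] at h2
    convert h2 using 2
    rw [mul_left_comm]

theorem full_BP {p : Str r} (hp : IsPre p) (hf : Full p) (c : M.U) :
    (M.epsP p, c) ∈ M.BP p := by
  rw [mem_BP, hf _ _ (val_ne (1 : M.U)) (epsP_spec hp)]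
  exact Set.mem_univ _

theorem enc_inj {p q : Str r} (hp : IsPre p) (hm : p.1 = M.m) (hq : IsPre q) (hm' : q.1 = M.m)
    (he : M.epsP p = M.epsP q) (hB : M.BP p = M.BP q) : p = q := by
  have key : ∀ (p : Str r) (_ : IsPre p) (_ : p.1 = M.m) (x y w : M.U),
      val w ∈ p.2 (val x) (val y) ↔ (x⁻¹ * y, M.epsP p * (x⁻¹ * w)) ∈ M.BP p := by
    intro p hp hm x y w
    rw [mem_BP, ← mul_assoc, eps_mul hp hm, one_mul]
    constructor
    · intro h
      have := scale hp hm x⁻¹ h
      rwa [inv_mul_cancel] at this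
    · intro h
      have := scale hp hm x h
      simpa using this
  have key0 : ∀ (p : Str r) (_ : IsPre p) (_ : p.1 = M.m) (x y : M.U),
      (0 : Fin (r+1)) ∈ p.2 (val x) (val y) ↔ y = x * M.epsP p := by
    intro p hp hm x y
    have h1 := scale0 hp hm x (epsP_spec hp)
    rw [mul_one] at h1
    constructor
    · intro h
      exact puniq hp h h1
    · rintro rfl
      exact h1
  refine Prod.ext (hm.trans hm'.symm) ?_
  funext a b
  rcases M.cases a with rfl | ⟨x, rfl⟩
  · rw [hp.2.2.1, hq.2.2.1]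
  rcases M.cases b with rfl | ⟨y, rfl⟩
  · rw [hp.2.1, hq.2.1, hp.2.2.1, hq.2.2.1]
  ext z
  rcases M.cases z with rfl | ⟨w, rfl⟩
  · rw [key0 p hp hm, key0 q hq hm', he]
  · rw [key p hp hm, key q hq hm', he, hB]

/-- number of labelled full structures with given multiplication -/
theorem card_full_le :
    2 ^ (r / 6) * (univ.filter (fun p : Str r => IsPre p ∧ p.1 = M.m ∧ Full p)).card
      ≤ r * (SymS M.U).card := by
  have h1 : (univ.filter (fun p : Str r => IsPre p ∧ p.1 = M.m ∧ Full p)).card ≤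
      ∑ ε : M.U, ((SymS M.U).filter (fun B => ∀ c ∈ (univ : Finset M.U), (ε, c) ∈ B)).card := by
    rw [← Finset.card_sigma]
    apply Finset.card_le_card_of_injOn (fun p => (⟨M.epsP p, M.BP p⟩ : Σ _ : M.U, Finset (M.U × M.U)))
    · intro p hp
      simp only [coe_filter, mem_univ, true_and, Set.mem_ofPred_eq] at hp
      simp only [coe_sigma, Set.mem_sigma_iff, mem_coe, mem_univ, true_and, mem_filter, forall_const]
      refine ⟨?_, fun c => full_BP hp.1 hp.2.2 c⟩
      simpa [SymS] using sym_BP hp.1 hp.2.1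
    · intro p hp q hq h
      simp only [coe_filter, mem_univ, true_and, Set.mem_ofPred_eq] at hp hq
      simp only [Sigma.mk.injEq, heq_eq_eq] at h
      exact enc_inj hp.1 hp.2.1 hq.1 hq.2.1 h.1 h.2
  calc 2 ^ (r / 6) * (univ.filter (fun p : Str r => IsPre p ∧ p.1 = M.m ∧ Full p)).card
      ≤ 2 ^ (r / 6) * ∑ ε : M.U, ((SymS M.U).filter (fun B => ∀ c ∈ (univ : Finset M.U), (ε, c) ∈ B)).card :=
        Nat.mul_le_mul_left _ h1
    _ = ∑ ε : M.U, 2 ^ (r / 6) * ((SymS M.U).filter (fun B => ∀ c ∈ (univ : Finset M.U), (ε, c) ∈ B)).card :=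
        Finset.mul_sum _ _ _
    _ ≤ ∑ _ε : M.U, (SymS M.U).card := by
        apply Finset.sum_le_sum
        intro ε _
        apply core2
        rw [Finset.card_univ, M.card_U]
        omega
    _ = r * (SymS M.U).card := by
        rw [Finset.sum_const, Finset.card_univ, M.card_U, smul_eq_mul]

/-- number of labelled hyperfields with given multiplication -/
theorem le_card_hyp (h : 2 * r ^ 3 * 3 ^ (r / 24) ≤ 4 ^ (r / 24)) :
    (SymS M.U).card ≤ 2 * (univ.filter (fun p : Str r => IsHyp p ∧ p.1 = M.m)).card := by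
  have h1 : (SymS M.U).card ≤ 2 * ((SymS M.U).filter (fun B => Good B)).card := by
    apply core1
    rw [M.card_U]; exact h
  refine h1.trans (Nat.mul_le_mul_left _ ?_)
  apply Finset.card_le_card_of_injOn (fun B => ((M.m, M.addB B) : Str r))
  · intro B hB
    rw [mem_coe, mem_filter] at hB
    have hs : Sym B := by simpa [SymS] using hB.1
    simp only [coe_filter, mem_univ, true_and, Set.mem_ofPred_eq, and_true]
    exact M.isHyp_addB hs hB.2
  · intro B _ B' _ h
    simp only [Prod.mk.injEq, true_and] at h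
    exact M.addB_inj h

theorem two_pow_le_symS : 2 ^ (r / 6) ≤ (SymS M.U).card := by
  have := card_symS_pos (U := M.U)
  rwa [M.card_U] at this

end MulD

end Pool.Agent.V11285.Hyp
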