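import Mathlib
import Pool.Agent.V11285.Hyp2

set_option autoImplicit false

namespace Pool.Agent.V11285.Hyp

open Finset

/-- data exhibiting `p` as a quotient hyperfield of the field `K` by `G` -/
def QData {r : ℕ} (p : Str r) (K : Type) [Field K] (G : Subgroup Kˣ) (f : K → Fin (r+1)) : Prop :=
  Function.Surjective f ∧ f 0 = 0 ∧
                (∀ x y : K, f x = f y ↔ ∃ g ∈ G, y = x * (g : K)) ∧
                (∀ x y : K, f (x * y) = p.1 (f x) (f y)) ∧
                (∀ x y : K, p.2 (f x) (f y) = {z | ∃ g ∈ G, ∃ h ∈ G, z = f (x * (g : K) + y * (h : K))})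

/-- quotient hyperfields -/
def IsQuot {r : ℕ} (p : Str r) : Prop :=
  ∃ (K : Type) (_ : Field K), ∃ G : Subgroup Kˣ, ∃ f : K → Fin (r+1),
                Function.Surjective f ∧ f 0 = 0 ∧
                (∀ x y : K, f x = f y ↔ ∃ g ∈ G, y = x * (g : K)) ∧
                (∀ x y : K, f (x * y) = p.1 (f x) (f y)) ∧
                (∀ x y : K, p.2 (f x) (f y) = {z | ∃ g ∈ G, ∃ h ∈ G, z = f (x * (g : K) + y * (h : K))})

section

variable {r : ℕ} {p : Str r} {K : Type} [Field K] {G : Subgroup Kˣ} {f : K → Fin (r+1)}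

theorem QData.eq_zero (h : QData p K G f) {x : K} (hx : f x = 0) : x = 0 := by
  have h1 : f 0 = f x := by rw [hx, h.2.1]
  obtain ⟨g, -, hg⟩ := (h.2.2.1 0 x).1 h1
  rw [hg, zero_mul]

theorem QData.mul_mem (h : QData p K G f) (x : K) {g : Kˣ} (hg : g ∈ G) : f (x * g) = f x :=
  ((h.2.2.1 x (x * g)).2 ⟨g, hg, rfl⟩).symm

theorem QData.zero_mem (h : QData p K G f) {x y : K} (hxy : (0 : Fin (r+1)) ∈ p.2 (f x) (f y)) :
    ∃ g ∈ G, y = -x * (g : K) := by
  rw [h.2.2.2.2] at hxy
  obtain ⟨g, hg, k, hk, he⟩ := hxy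
  have h0 := h.eq_zero he.symm
  refine ⟨g * k⁻¹, G.mul_mem hg (G.inv_mem hk), ?_⟩
  have hk0 : (k : K) ≠ 0 := k.ne_zero
  push_cast
  field_simp
  linear_combination h0

theorem QData.isPre (h : QData p K G f) : IsPre p := by
  have hsurj := h.1
  have hf0 := h.2.1
  have hmul := h.2.2.2.1
  have hadd := h.2.2.2.2
  refine ⟨⟨⟨f 1, fun h1 => one_ne_zero (h.eq_zero h1), ?_⟩, ?_, ?_, ?_, ?_, ?_⟩, ?_, ?_, ?_, ?_, ?_⟩
  · intro a
    obtain ⟨x, rfl⟩ := hsurj a
    rw [← hmul, one_mul]
  · intro a b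
    obtain ⟨x, rfl⟩ := hsurj a
    obtain ⟨y, rfl⟩ := hsurj b
    rw [← hmul, ← hmul, mul_comm]
  · intro a b c
    obtain ⟨x, rfl⟩ := hsurj a
    obtain ⟨y, rfl⟩ := hsurj b
    obtain ⟨z, rfl⟩ := hsurj c
    rw [← hmul, ← hmul, ← hmul, ← hmul, mul_assoc]
  · intro a
    obtain ⟨x, rfl⟩ := hsurj a
    rw [← hf0, ← hmul, zero_mul]
  · intro a b ha hb
    obtain ⟨x, rfl⟩ := hsurj a
    obtain ⟨y, rfl⟩ := hsurj b
    rw [← hmul]
    intro h0
    rcases mul_eq_zero.1 (h.eq_zero h0) with rfl | rfl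
    · exact ha hf0
    · exact hb hf0
  · intro a ha
    obtain ⟨x, rfl⟩ := hsurj a
    have hx : x ≠ 0 := by rintro rfl; exact ha hf0
    refine ⟨f x⁻¹, fun c => ?_⟩
    obtain ⟨z, rfl⟩ := hsurj c
    rw [← hmul, ← hmul, mul_inv_cancel₀ hx, one_mul]
  · intro a b
    obtain ⟨x, rfl⟩ := hsurj a
    obtain ⟨y, rfl⟩ := hsurj b
    rw [hadd, hadd]
    ext z
    constructor
    · rintro ⟨g, hg, k, hk, hz⟩
      exact ⟨k, hk, g, hg, by rw [hz]; congr 1; ring⟩
    · rintro ⟨g, hg, k, hk, hz⟩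
      exact ⟨k, hk, g, hg, by rw [hz]; congr 1; ring⟩
  · intro a
    obtain ⟨y, rfl⟩ := hsurj a
    have h1 := hadd 0 y
    rw [hf0] at h1
    rw [h1]
    ext z
    constructor
    · rintro ⟨g, hg, k, hk, hz⟩
      rw [zero_mul, zero_add, h.mul_mem y hk] at hz
      exact hz
    · rintro rfl
      exact ⟨1, G.one_mem, 1, G.one_mem, by simp⟩
  · intro a
    obtain ⟨x, rfl⟩ := hsurj a
    refine ⟨f (-x), ?_, ?_⟩
    · show 0 ∈ p.2 (f x) (f (-x))
      rw [hadd]
      exact ⟨1, G.one_mem, 1, G.one_mem, by simp [hf0]⟩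
    · intro b hb
      obtain ⟨y, rfl⟩ := hsurj b
      obtain ⟨g, hg, rfl⟩ := h.zero_mem hb
      exact h.mul_mem _ hg
  · intro a b c d hac hbd
    obtain ⟨y, rfl⟩ := hsurj b
    obtain ⟨z, rfl⟩ := hsurj c
    obtain ⟨w, rfl⟩ := hsurj d
    obtain ⟨k, hk, rfl⟩ := h.zero_mem hbd
    rw [hadd] at hac
    obtain ⟨g, hg, g', hg', rfl⟩ := hac
    rw [hadd]
    refine ⟨g'⁻¹, G.inv_mem hg', k⁻¹ * g * g'⁻¹,
      G.mul_mem (G.mul_mem (G.inv_mem hk) hg) (G.inv_mem hg'), ?_⟩
    congr 1
    have h1 : (k : K) ≠ 0 := k.ne_zero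
    have h2 : (g' : K) ≠ 0 := g'.ne_zero
    push_cast
    field_simp
    ring
  · intro a b c
    obtain ⟨x, rfl⟩ := hsurj a
    obtain ⟨y, rfl⟩ := hsurj b
    obtain ⟨z, rfl⟩ := hsurj c
    rw [← hmul, ← hmul, hadd, hadd]
    ext w
    constructor
    · rintro ⟨_, ⟨g, hg, k, hk, rfl⟩, rfl⟩
      refine ⟨g, hg, k, hk, ?_⟩
      simp only
      rw [← hmul]
      congr 1
      ring
    · rintro ⟨g, hg, k, hk, rfl⟩
      refine ⟨f (y * g + z * k), ⟨g, hg, k, hk, rfl⟩, ?_⟩
      simp only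
      rw [← hmul]
      congr 1
      ring

theorem QData.full (h : QData p K G f)
    (key : ∀ c : K, c ≠ 0 → ∃ g ∈ G, ∃ g' ∈ G, ∃ k ∈ G, (g : K) - g' = c * k) : Full p := by
  intro a b ha h0
  obtain ⟨x, rfl⟩ := h.1 a
  obtain ⟨y, rfl⟩ := h.1 b
  have hx : x ≠ 0 := by rintro rfl; exact ha h.2.1
  obtain ⟨l, hl, rfl⟩ := h.zero_mem h0
  rw [h.2.2.2.2, Set.eq_univ_iff_forall]
  intro w
  obtain ⟨t, rfl⟩ := h.1 w
  by_cases ht : t = 0
  · subst ht
    refine ⟨l, hl, 1, G.one_mem, ?_⟩
    congr 1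
    push_cast
    ring
  · obtain ⟨g, hg, g', hg', k, hk, hgk⟩ := key (t / x) (div_ne_zero ht hx)
    refine ⟨g, hg, l⁻¹ * g', G.mul_mem (G.inv_mem hl) hg', ?_⟩
    rw [← h.mul_mem t hk]
    congr 1
    have hl0 : (l : K) ≠ 0 := l.ne_zero
    push_cast
    field_simp
    field_simp at hgk
    linear_combination -hgk

/-- in an infinite field one can choose weights with nonvanishing subset sums -/
theorem exists_weights {K : Type} [Field K] [Infinite K] {ι : Type} [Fintype ι] :
    ∃ w : ι → K, ∀ I : Finset ι, I.Nonempty → ∑ i ∈ I, w i ≠ 0 := by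
  classical
  have main : ∀ s : Finset ι, ∃ w : ι → K, ∀ I ⊆ s, I.Nonempty → ∑ i ∈ I, w i ≠ 0 := by
    intro s
    induction s using Finset.induction_on with
    | empty =>
      refine ⟨fun _ => 0, fun I hI hne => ?_⟩
      rw [Finset.subset_empty] at hI
      exact absurd hI hne.ne_empty
    | insert a s ha ih =>
      obtain ⟨w, hw⟩ := ih
      obtain ⟨v, hv⟩ := Infinite.exists_notMem_finset (s.powerset.image (fun I => - ∑ i ∈ I, w i))
      refine ⟨Function.update w a v, fun I hI hne => ?_⟩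
      by_cases haI : a ∈ I
      · rw [← Finset.add_sum_erase I _ haI, Function.update_self]
        have h1 : ∑ i ∈ I.erase a, Function.update w a v i = ∑ i ∈ I.erase a, w i := by
          apply Finset.sum_congr rfl
          intro i hi
          rw [Function.update_of_ne (Finset.ne_of_mem_erase hi)]
        rw [h1]
        intro h0
        apply hv
        rw [Finset.mem_image]
        refine ⟨I.erase a, ?_, ?_⟩
        · rw [Finset.mem_powerset]
          intro i hi
          have h2 := hI (Finset.mem_of_mem_erase hi)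
          rw [Finset.mem_insert] at h2
          exact h2.resolve_left (Finset.ne_of_mem_erase hi)
        · linear_combination -h0
      · have h1 : ∑ i ∈ I, Function.update w a v i = ∑ i ∈ I, w i := by
          apply Finset.sum_congr rfl
          intro i hi
          rw [Function.update_of_ne]
          rintro rfl
          exact haI hi
        rw [h1]
        apply hw I _ hne
        intro i hi
        have h2 := hI hi
        rw [Finset.mem_insert] at h2
        rcases h2 with rfl | h2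
        · exact absurd hi haI
        · exact h2
  obtain ⟨w, hw⟩ := main Finset.univ
  exact ⟨w, fun I hI => hw I (Finset.subset_univ _) hI⟩

theorem QData.key_infinite [Infinite K] (h : QData p K G f) (c : K) (hc : c ≠ 0) :
    ∃ g ∈ G, ∃ g' ∈ G, ∃ k ∈ G, (g : K) - g' = c * k := by
  classical
  obtain ⟨t, ht⟩ := h.1.hasRightInverse
  have ht0 : t 0 = 0 := h.eq_zero (ht 0)
  obtain ⟨ι, _, hι⟩ := Combinatorics.Line.exists_mono_in_high_dimension (Fin (r+1)) (Fin (r+1))
  obtain ⟨w, hw⟩ := exists_weights (K := K) (ι := ι)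
  obtain ⟨l, γ, hl⟩ := hι (fun v => f (∑ i, w i * t (v i)))
  set I : Finset ι := Finset.univ.filter (fun i => l.idxFun i = none) with hI
  set d : K := ∑ i ∈ I, w i with hd
  have hIne : I.Nonempty := by
    obtain ⟨i, hi⟩ := l.proper
    exact ⟨i, by rw [hI, Finset.mem_filter]; exact ⟨Finset.mem_univ _, hi⟩⟩
  have hd0 : d ≠ 0 := hw I hIne
  set b : K := ∑ i ∈ Finset.univ.filter (fun i => ¬ l.idxFun i = none), w i * t ((l.idxFun i).getD 0) with hb
  have hline : ∀ x : Fin (r+1), ∑ i, w i * t (l x i) = b + d * t x := by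
    intro x
    rw [← Finset.sum_filter_add_sum_filter_not Finset.univ (fun i => l.idxFun i = none), add_comm]
    congr 1
    · rw [hb]
      apply Finset.sum_congr rfl
      intro i hi
      rw [Finset.mem_filter] at hi
      congr 2
      rw [Combinatorics.Line.apply_def]
      show (l.idxFun i).getD x = (l.idxFun i).getD 0
      cases hidx : l.idxFun i with
      | none => exact absurd hidx hi.2
      | some y => rfl
    · rw [hd, Finset.sum_mul]
      apply Finset.sum_congr rfl
      intro i hi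
      rw [Finset.mem_filter] at hi
      congr 2
      exact Combinatorics.Line.apply_none _ _ _ hi.2
  have hmono : ∀ x : Fin (r+1), f (b + d * t x) = f b := by
    intro x
    have h1 := hl x
    have h2 := hl 0
    simp only at h1 h2
    rw [hline] at h1 h2
    rw [ht0, mul_zero, add_zero] at h2
    rw [h1, h2]
  have hb0 : b ≠ 0 := by
    intro hb0
    have h1 := hmono (f 1)
    rw [hb0, zero_add, h.2.1] at h1
    have h2 := h.eq_zero h1
    rcases mul_eq_zero.1 h2 with h2 | h2
    · exact hd0 h2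
    · have h3 : f (t (f 1)) = f 1 := ht _
      rw [h2, h.2.1] at h3
      exact one_ne_zero (h.eq_zero h3.symm)
  set x := f (c * b / d) with hx
  obtain ⟨k, hk, hk'⟩ := (h.2.2.1 (c * b / d) (t x)).1 (ht x).symm
  obtain ⟨g, hg, hg'⟩ := (h.2.2.1 b (b + d * t x)).1 (hmono x).symm
  refine ⟨g, hg, 1, G.one_mem, k, hk, ?_⟩
  have h1 : b * (c * k) = b * (g - 1) := by
    have h2 : d * t x = c * b * k := by
      rw [hk']
      field_simp
    linear_combination hg' - h2
  have := mul_left_cancel₀ hb0 h1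
  push_cast
  exact this.symm

/-- point-line incidences in a finite plane -/
theorem incidence {K : Type} [Field K] [Fintype K] [DecidableEq K] (P L : Finset (K × K))
    (h : (Fintype.card K) ^ 3 < P.card * L.card) :
    ∃ a ∈ P, ∃ l ∈ L, a.2 = l.1 * a.1 + l.2 := by
  by_contra hcon
  push Not at hcon
  set q : ℤ := (Fintype.card K : ℤ) with hq
  set n : ℤ := (P.card : ℤ) with hn
  let i : K × K → ℤ := fun l => ((P.filter (fun a => a.2 = l.1 * a.1 + l.2)).card : ℤ)
  have hi : ∀ l, i l = ∑ a ∈ P, if a.2 = l.1 * a.1 + l.2 then (1 : ℤ) else 0 := by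
    intro l
    simp only [i]
    rw [Finset.card_filter]
    push_cast
    rfl
  have hfib : ∀ a : K × K, ∑ l : K × K, (if a.2 = l.1 * a.1 + l.2 then (1 : ℤ) else 0) = q := by
    intro a
    rw [Fintype.sum_prod_type]
    have : ∀ m : K, ∑ b : K, (if a.2 = m * a.1 + b then (1 : ℤ) else 0) = 1 := by
      intro m
      rw [Finset.sum_eq_single (a.2 - m * a.1)]
      · rw [if_pos (by ring)]
      · intro b _ hb
        rw [if_neg]
        intro h1
        apply hb
        rw [h1]; ring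
      · intro h1; exact absurd (Finset.mem_univ _) h1
    simp only [this]
    simp [hq]
  have S1 : ∑ l, i l = n * q := by
    simp only [hi]
    rw [Finset.sum_comm]
    simp only [hfib]
    rw [Finset.sum_const, nsmul_eq_mul]
  have hpair : ∀ a a' : K × K, ∑ l : K × K, (if a.2 = l.1 * a.1 + l.2 then (1 : ℤ) else 0) *
      (if a'.2 = l.1 * a'.1 + l.2 then (1 : ℤ) else 0) ≤ (if a = a' then q else 0) + 1 := by
    intro a a'
    by_cases haa : a = a'
    · subst haa
      rw [if_pos rfl]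
      have : ∀ l : K × K, (if a.2 = l.1 * a.1 + l.2 then (1 : ℤ) else 0) *
          (if a.2 = l.1 * a.1 + l.2 then (1 : ℤ) else 0) = (if a.2 = l.1 * a.1 + l.2 then (1 : ℤ) else 0) := by
        intro l
        split_ifs <;> simp
      simp only [this, hfib]
      linarith
    · rw [if_neg haa, zero_add]
      have h1 : ∀ l : K × K, (if a.2 = l.1 * a.1 + l.2 then (1 : ℤ) else 0) *
          (if a'.2 = l.1 * a'.1 + l.2 then (1 : ℤ) else 0) =
          if (a.2 = l.1 * a.1 + l.2 ∧ a'.2 = l.1 * a'.1 + l.2) then (1 : ℤ) else 0 := by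
        intro l
        by_cases h1 : a.2 = l.1 * a.1 + l.2 <;> by_cases h2 : a'.2 = l.1 * a'.1 + l.2 <;> simp [h1, h2]
      simp only [h1]
      rw [Finset.sum_boole]
      have : (Finset.univ.filter (fun l : K × K => a.2 = l.1 * a.1 + l.2 ∧ a'.2 = l.1 * a'.1 + l.2)).card ≤ 1 := by
        rw [Finset.card_le_one]
        rintro ⟨m, b⟩ h2 ⟨m', b'⟩ h3
        rw [Finset.mem_filter] at h2 h3
        obtain ⟨-, h2, h2'⟩ := h2
        obtain ⟨-, h3, h3'⟩ := h3
        simp only at h2 h2' h3 h3'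
        have h4 : (m - m') * (a.1 - a'.1) = 0 := by linear_combination -h2 + h2' + h3 - h3'
        rcases mul_eq_zero.1 h4 with h5 | h5
        · have h6 : m = m' := sub_eq_zero.1 h5
          subst h6
          rw [Prod.mk.injEq]
          exact ⟨rfl, by linear_combination h3 - h2⟩
        · exfalso
          apply haa
          have h6 : a.1 = a'.1 := sub_eq_zero.1 h5
          apply Prod.ext h6
          rw [h2, h2', h6]
      exact_mod_cast this
  have S2 : ∑ l, (i l) ^ 2 ≤ n * q + n ^ 2 := by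
    have h1 : ∑ l, (i l) ^ 2 = ∑ a ∈ P, ∑ a' ∈ P, ∑ l : K × K,
        (if a.2 = l.1 * a.1 + l.2 then (1 : ℤ) else 0) * (if a'.2 = l.1 * a'.1 + l.2 then (1 : ℤ) else 0) := by
      have h2 : ∀ l, (i l) ^ 2 = ∑ a ∈ P, ∑ a' ∈ P,
          (if a.2 = l.1 * a.1 + l.2 then (1 : ℤ) else 0) * (if a'.2 = l.1 * a'.1 + l.2 then (1 : ℤ) else 0) := by
        intro l
        rw [hi, sq, Finset.sum_mul_sum]
      simp only [h2]
      rw [Finset.sum_comm]
      apply Finset.sum_congr rfl
      intro a _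
      rw [Finset.sum_comm]
    rw [h1]
    calc _ ≤ ∑ a ∈ P, ∑ a' ∈ P, ((if a = a' then q else 0) + 1) :=
          Finset.sum_le_sum (fun a _ => Finset.sum_le_sum (fun a' _ => hpair a a'))
      _ = ∑ a ∈ P, (q + n) := by
          apply Finset.sum_congr rfl
          intro a ha
          rw [Finset.sum_add_distrib, Finset.sum_ite_eq, if_pos ha, Finset.sum_const, nsmul_eq_mul, mul_one]
      _ = n * q + n ^ 2 := by
          rw [Finset.sum_const, nsmul_eq_mul]; ring
  have hcardKK : ((Finset.univ : Finset (K × K)).card : ℤ) = q ^ 2 := by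
    rw [Finset.card_univ, Fintype.card_prod, hq]; push_cast; ring
  have hvar : ∑ l, (q * i l - n) ^ 2 ≤ q ^ 3 * n := by
    have h1 : ∑ l, (q * i l - n) ^ 2 = q ^ 2 * ∑ l, (i l) ^ 2 - 2 * q * n * ∑ l, i l + q ^ 2 * n ^ 2 := by
      have h2 : ∀ l, (q * i l - n) ^ 2 = q ^ 2 * (i l) ^ 2 - 2 * q * n * (i l) + n ^ 2 := by
        intro l; ring
      simp only [h2]
      rw [Finset.sum_add_distrib, Finset.sum_sub_distrib, ← Finset.mul_sum, ← Finset.mul_sum,
        Finset.sum_const, nsmul_eq_mul, hcardKK]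
    rw [h1, S1]
    have hq2 : 0 ≤ q ^ 2 := sq_nonneg q
    nlinarith [mul_le_mul_of_nonneg_left S2 hq2]
  have hlow : (L.card : ℤ) * n ^ 2 ≤ ∑ l, (q * i l - n) ^ 2 := by
    calc (L.card : ℤ) * n ^ 2 = ∑ l ∈ L, (q * i l - n) ^ 2 := by
          have h1 : ∀ l ∈ L, (q * i l - n) ^ 2 = n ^ 2 := by
            intro l hl
            have h2 : i l = 0 := by
              simp only [i]
              rw [Nat.cast_eq_zero, Finset.card_eq_zero, Finset.filter_eq_empty_iff]
              intro a ha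
              exact hcon a ha l hl
            rw [h2]; ring
          rw [Finset.sum_congr rfl h1, Finset.sum_const, nsmul_eq_mul]
      _ ≤ _ := Finset.sum_le_univ_sum_of_nonneg (fun l => sq_nonneg _)
  have hfin : (L.card : ℤ) * n ^ 2 ≤ q ^ 3 * n := hlow.trans hvar
  have hlt : q ^ 3 < n * L.card := by
    rw [hq, hn]; exact_mod_cast h
  have hn0 : 0 < n := by
    rcases Nat.eq_zero_or_pos P.card with h0 | h0
    · rw [h0] at h; omega
    · rw [hn]; exact_mod_cast h0
  have : q ^ 3 * n < (n * L.card) * n := mul_lt_mul_of_pos_right hlt hn0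
  nlinarith

theorem QData.card_eq [Fintype K] (h : QData p K G f) : Fintype.card K = r * Nat.card G + 1 := by
  classical
  have hfiber : ∀ a : Fin (r+1), a ≠ 0 → (Finset.univ.filter (fun x => f x = a)).card = Nat.card G := by
    intro a ha
    obtain ⟨x, rfl⟩ := h.1 a
    have hx : x ≠ 0 := by rintro rfl; exact ha h.2.1
    have : Fintype G := Fintype.ofFinite _
    rw [Nat.card_eq_fintype_card, ← Finset.card_univ]
    symm
    apply Finset.card_bij (fun (g : G) _ => x * ((g : Kˣ) : K))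
    · intro g _
      rw [Finset.mem_filter]
      exact ⟨Finset.mem_univ _, h.mul_mem x g.2⟩
    · intro g _ g' _ hgg
      exact Subtype.ext (Units.ext (mul_left_cancel₀ hx hgg))
    · intro y hy
      rw [Finset.mem_filter] at hy
      obtain ⟨g, hg, rfl⟩ := (h.2.2.1 x y).1 hy.2.symm
      exact ⟨⟨g, hg⟩, Finset.mem_univ _, rfl⟩
  have h0 : (Finset.univ.filter (fun x => f x = 0)).card = 1 := by
    rw [Finset.card_eq_one]
    refine ⟨0, ?_⟩
    ext x
    rw [Finset.mem_filter, Finset.mem_singleton]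
    constructor
    · intro hx; exact h.eq_zero hx.2
    · rintro rfl; exact ⟨Finset.mem_univ _, h.2.1⟩
  rw [← Finset.card_univ, Finset.card_eq_sum_card_fiberwise (f := f) (t := Finset.univ)
    (fun x _ => Finset.mem_univ _), Fin.sum_univ_succ, h0]
  have : ∀ a : Fin r, (Finset.univ.filter (fun x => f x = a.succ)).card = Nat.card G :=
    fun a => hfiber _ (Fin.succ_ne_zero a)
  simp only [this]
  rw [Finset.sum_const, Finset.card_univ, Fintype.card_fin, smul_eq_mul]
  ring

theorem QData.key_large [Fintype K] (h : QData p K G f) (hq : 16 * r ^ 4 < Fintype.card K)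
    (c : K) (hc : c ≠ 0) :
    ∃ g ∈ G, ∃ g' ∈ G, ∃ k ∈ G, (g : K) - g' = c * k := by
  classical
  have hcard := h.card_eq
  set q := Fintype.card K with hqdef
  set N := Nat.card G with hN
  have hq1 : 1 < q := Fintype.one_lt_card
  have hlt : q ^ 3 < N ^ 4 := by
    have h1 : q ≤ 2 * (r * N) := by omega
    have h2 : q ^ 4 ≤ 16 * (r ^ 4 * N ^ 4) := by
      calc q ^ 4 ≤ (2 * (r * N)) ^ 4 := Nat.pow_le_pow_left h1 4
        _ = 16 * (r ^ 4 * N ^ 4) := by ring
    have h3 : 16 * r ^ 4 * q ^ 3 < q ^ 4 := by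
      calc 16 * r ^ 4 * q ^ 3 < q * q ^ 3 := Nat.mul_lt_mul_of_pos_right hq (by positivity)
        _ = q ^ 4 := by ring
    have h4 : (16 * r ^ 4) * q ^ 3 < (16 * r ^ 4) * N ^ 4 := by
      calc 16 * r ^ 4 * q ^ 3 < q ^ 4 := h3
        _ ≤ _ := h2
        _ = _ := by ring
    exact lt_of_mul_lt_mul_left h4 (Nat.zero_le _)
  let Gs : Finset K := Finset.univ.filter (fun x => ∃ g ∈ G, (g : K) = x)
  have hGs : Gs.card = N := by
    have : Fintype G := Fintype.ofFinite _
    rw [hN, Nat.card_eq_fintype_card, ← Finset.card_univ]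
    symm
    apply Finset.card_bij (fun (g : G) _ => ((g : Kˣ) : K))
    · intro g _
      simp only [Gs, Finset.mem_filter]
      exact ⟨Finset.mem_univ _, g, g.2, rfl⟩
    · intro g _ g' _ hgg
      exact Subtype.ext (Units.ext hgg)
    · intro y hy
      simp only [Gs, Finset.mem_filter] at hy
      obtain ⟨-, g, hg, rfl⟩ := hy
      exact ⟨⟨g, hg⟩, Finset.mem_univ _, rfl⟩
  have hcGs : (Gs.image (fun x => c * x)).card = N := by
    rw [Finset.card_image_of_injective _ (mul_right_injective₀ hc), hGs]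
  obtain ⟨⟨x, y⟩, ha, ⟨m, b⟩, hl, hinc⟩ := incidence (Gs ×ˢ Gs) ((Gs.image (fun x => c * x)) ×ˢ Gs) (by
    rw [Finset.card_product, Finset.card_product, hGs, hcGs]
    calc q ^ 3 < N ^ 4 := hlt
      _ = N * N * (N * N) := by ring)
  rw [Finset.mem_product] at ha hl
  simp only [Gs, Finset.mem_filter, Finset.mem_image, Finset.mem_univ, true_and] at ha hl hinc
  obtain ⟨⟨x', hx', rfl⟩, ⟨y', hy', rfl⟩⟩ := ha
  obtain ⟨⟨_, ⟨k, hk, rfl⟩, rfl⟩, ⟨b', hb', rfl⟩⟩ := hl
  refine ⟨y', hy', b', hb', k * x', G.mul_mem hk hx', ?_⟩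
  rw [hinc]
  push_cast
  ring

theorem QData.full_or (h : QData p K G f) :
    Full p ∨ ∃ _ : Fintype K, Fintype.card K ≤ 16 * r ^ 4 := by
  by_cases hfin : Finite K
  · have : Fintype K := Fintype.ofFinite K
    by_cases hq : 16 * r ^ 4 < Fintype.card K
    · left
      exact h.full (fun c hc => h.key_large hq c hc)
    · right
      exact ⟨this, not_lt.1 hq⟩
  · left
    have : Infinite K := not_finite_iff_infinite.1 hfin
    exact h.full (fun c hc => h.key_infinite c hc)

end

end Pool.Agent.V11285.Hyp
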