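import Mathlib
import Pool.Agent.V11285.Hyp3
import Pool.Agent.V11285.Hyp4

set_option autoImplicit false

namespace Pool.Agent.V11285.Hyp

open Finset

/-- isomorphism of structures -/
def Iso {r : ℕ} (p q : Str r) : Prop :=
  ∃ e : Fin (r+1) ≃ Fin (r+1), ∀ a b, e (p.1 a b) = q.1 (e a) (e b) ∧ e '' p.2 a b = q.2 (e a) (e b)

theorem Iso.refl {r : ℕ} (p : Str r) : Iso p p := by
  refine ⟨Equiv.refl _, fun a b => ⟨rfl, ?_⟩⟩
  simp

theorem Iso.symm {r : ℕ} {p q : Str r} (h : Iso p q) : Iso q p := by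
  obtain ⟨e, he⟩ := h
  refine ⟨e.symm, fun a b => ⟨?_, ?_⟩⟩
  · rw [Equiv.symm_apply_eq, (he _ _).1, e.apply_symm_apply, e.apply_symm_apply]
  · have := (he (e.symm a) (e.symm b)).2
    rw [e.apply_symm_apply, e.apply_symm_apply] at this
    rw [← this, Set.image_image]
    simp

theorem Iso.trans {r : ℕ} {p q s : Str r} (h : Iso p q) (h' : Iso q s) : Iso p s := by
  obtain ⟨e, he⟩ := h
  obtain ⟨e', he'⟩ := h'
  refine ⟨e.trans e', fun a b => ⟨?_, ?_⟩⟩
  · simp only [Equiv.trans_apply]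
    rw [(he _ _).1, (he' _ _).1]
  · simp only [Equiv.trans_apply]
    rw [← (he' _ _).2, ← (he _ _).2, Set.image_image]

section

variable {r : ℕ} {p : Str r} {K : Type} [Field K] {G : Subgroup Kˣ} {f : K → Fin (r+1)}

theorem QData.r_pos (h : QData p K G f) : 0 < r := by
  rcases Nat.eq_zero_or_pos r with rfl | h0
  · exfalso
    have h1 : f 1 = 0 := Fin.ext (by have := (f 1).2; omega)
    exact one_ne_zero (h.eq_zero h1)
  · exact h0

theorem eq_rootsOfUnity {K : Type} [Field K] [Finite K] (G : Subgroup Kˣ) :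
    G = rootsOfUnity (Nat.card G) K := by
  have hpos : 0 < Nat.card G := Nat.card_pos
  have : NeZero (Nat.card G) := ⟨hpos.ne'⟩
  apply Subgroup.eq_of_le_of_card_ge
  · intro g hg
    rw [mem_rootsOfUnity]
    have h2 : (⟨g, hg⟩ : G) ^ Nat.card G = 1 := pow_card_eq_one'
    exact congrArg Subtype.val h2
  · exact card_rootsOfUnity K (Nat.card G)

theorem QData.iso_of_card [Fintype K] (h : QData p K G f)
    {p' : Str r} {K' : Type} [Field K'] [Fintype K'] {G' : Subgroup K'ˣ} {f' : K' → Fin (r+1)}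
    (h' : QData p' K' G' f') (hc : Fintype.card K = Fintype.card K') : Iso p p' := by
  have hr := h.r_pos
  have hcG : Nat.card G = Nat.card G' := by
    have h1 := h.card_eq
    have h2 := h'.card_eq
    have h3 : r * Nat.card G = r * Nat.card G' := by omega
    exact Nat.eq_of_mul_eq_mul_left hr h3
  let φ : K ≃+* K' := FiniteField.ringEquivOfCardEq hc
  have hG : ∀ g : Kˣ, g ∈ G ↔ Units.map (φ : K →* K') g ∈ G' := by
    intro g
    rw [eq_rootsOfUnity G, eq_rootsOfUnity G', ← hcG, mem_rootsOfUnity, mem_rootsOfUnity, ← map_pow]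
    constructor
    · intro h1; rw [h1, map_one]
    · intro h1
      apply Units.ext
      have h2 := congrArg Units.val h1
      simp only [Units.coe_map, Units.val_one] at h2
      have : φ ((g ^ Nat.card G : Kˣ) : K) = φ 1 := by rw [map_one]; exact h2
      exact φ.injective this
  have hG' : ∀ g' ∈ G', ∃ g ∈ G, φ (g : K) = g' := by
    intro g' hg'
    refine ⟨Units.map (φ.symm : K' →* K) g', ?_, ?_⟩
    · rw [hG]
      convert hg' using 1
      apply Units.ext
      simp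
    · simp
  have hker : ∀ x y : K, f x = f y ↔ f' (φ x) = f' (φ y) := by
    intro x y
    rw [h.2.2.1, h'.2.2.1]
    constructor
    · rintro ⟨g, hg, rfl⟩
      refine ⟨Units.map (φ : K →* K') g, (hG g).1 hg, ?_⟩
      simp
    · rintro ⟨g', hg', hy⟩
      obtain ⟨g, hg, hgg⟩ := hG' g' hg'
      refine ⟨g, hg, ?_⟩
      apply φ.injective
      rw [hy, map_mul, hgg]
  obtain ⟨t, ht⟩ := h.1.hasRightInverse
  have hinj : Function.Injective (fun a => f' (φ (t a))) := by
    intro a b hab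
    simp only at hab
    rw [← hker, ht, ht] at hab
    exact hab
  let e : Fin (r+1) ≃ Fin (r+1) := Equiv.ofBijective _ (Finite.injective_iff_bijective.1 hinj)
  have he : ∀ x, e (f x) = f' (φ x) := by
    intro x
    show f' (φ (t (f x))) = f' (φ x)
    rw [← hker, ht]
  refine ⟨e, fun a b => ?_⟩
  obtain ⟨x, rfl⟩ := h.1 a
  obtain ⟨y, rfl⟩ := h.1 b
  constructor
  · rw [← h.2.2.2.1, he, he, he, map_mul, h'.2.2.2.1]
  · rw [he, he, h.2.2.2.2, h'.2.2.2.2]
    ext z
    constructor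
    · rintro ⟨_, ⟨g, hg, k, hk, rfl⟩, rfl⟩
      refine ⟨Units.map (φ : K →* K') g, (hG g).1 hg, Units.map (φ : K →* K') k, (hG k).1 hk, ?_⟩
      rw [he]
      simp
    · rintro ⟨g', hg', k', hk', rfl⟩
      obtain ⟨g, hg, hgg⟩ := hG' g' hg'
      obtain ⟨k, hk, hkk⟩ := hG' k' hk'
      refine ⟨f (x * g + y * k), ⟨g, hg, k, hk, rfl⟩, ?_⟩
      rw [he, map_add, map_mul, map_mul, hgg, hkk]

end

/-- the identity `e 0 = 0` for isomorphisms -/
theorem iso_zero {r : ℕ} {m m' : Fin (r+1) → Fin (r+1) → Fin (r+1)} (hm : IsMul m) (hm' : IsMul m')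
    {e : Fin (r+1) ≃ Fin (r+1)} (he : ∀ a b, e (m a b) = m' (e a) (e b)) : e 0 = 0 := by
  have h1 := he 0 (e.symm 0)
  rw [hm.2.2.2.1, e.apply_symm_apply, hm'.2.1, hm'.2.2.2.1] at h1
  exact h1

/-- relabelling -/
def relab {r : ℕ} (p : Str r) (e : Fin (r+1) ≃ Fin (r+1)) : Str r :=
  (fun a b => e (p.1 (e.symm a) (e.symm b)), fun a b => e '' p.2 (e.symm a) (e.symm b))

theorem iso_relab {r : ℕ} (p : Str r) (e : Fin (r+1) ≃ Fin (r+1)) : Iso p (relab p e) := by
  refine ⟨e, fun a b => ⟨?_, ?_⟩⟩ <;> simp [relab]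

theorem eq_relab {r : ℕ} {p q : Str r} {e : Fin (r+1) ≃ Fin (r+1)}
    (h : ∀ a b, e (p.1 a b) = q.1 (e a) (e b) ∧ e '' p.2 a b = q.2 (e a) (e b)) : q = relab p e := by
  refine Prod.ext ?_ ?_
  · funext a b
    simp only [relab]
    rw [(h _ _).1, e.apply_symm_apply, e.apply_symm_apply]
  · funext a b
    simp only [relab]
    rw [(h _ _).2, e.apply_symm_apply, e.apply_symm_apply]

theorem QData.relab {r : ℕ} {p : Str r} {K : Type} [Field K] {G : Subgroup Kˣ} {f : K → Fin (r+1)}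
    (h : QData p K G f) {e : Fin (r+1) ≃ Fin (r+1)} (he : e 0 = 0) :
    QData (relab p e) K G (fun x => e (f x)) := by
  refine ⟨e.surjective.comp h.1, by simp [h.2.1, he], ?_, ?_, ?_⟩
  · intro x y
    rw [← h.2.2.1]
    exact e.injective.eq_iff
  · intro x y
    simp [Hyp.relab, h.2.2.2.1]
  · intro x y
    simp only [Hyp.relab, e.symm_apply_apply, h.2.2.2.2]
    ext z
    constructor
    · rintro ⟨_, ⟨g, hg, k, hk, rfl⟩, rfl⟩
      exact ⟨g, hg, k, hk, rfl⟩
    · rintro ⟨g, hg, k, hk, rfl⟩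
      exact ⟨_, ⟨g, hg, k, hk, rfl⟩, rfl⟩

theorem Full.relab {r : ℕ} {p : Str r} (h : Full p) {e : Fin (r+1) ≃ Fin (r+1)} (he : e 0 = 0) :
    Full (relab p e) := by
  have he' : e.symm 0 = 0 := by rw [Equiv.symm_apply_eq, he]
  intro a b ha h0
  simp only [Hyp.relab] at h0 ⊢
  obtain ⟨z, hz, hz0⟩ := h0
  have hz1 : z = 0 := by
    apply e.injective
    rw [hz0, he]
  subst hz1
  rw [h _ _ ?_ hz]
  · simp
  · intro h1
    apply ha
    rw [← he', Equiv.apply_eq_iff_eq] at h1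
    exact h1

end Pool.Agent.V11285.Hyp
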