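import Mathlib
import Pool.Agent.V11285.Hyp5

set_option autoImplicit false

namespace Pool.Agent.V11285.Hyp

open Finset

open scoped Classical in
/-- a group of order `n` has a generating set with at most `log₂ n` elements -/
theorem exists_gen {U : Type} [Group U] [Finite U] :
    ∃ S : Finset U, Subgroup.closure (S : Set U) = ⊤ ∧ 2 ^ S.card ≤ Nat.card U := by
  have : Fintype U := Fintype.ofFinite U
  let T : Finset (Finset U) := univ.filter (fun S => 2 ^ S.card ≤ Nat.card (Subgroup.closure (S : Set U)))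
  have hT : T.Nonempty := by
    refine ⟨∅, ?_⟩
    simp only [T, mem_filter, mem_univ, true_and]
    simp
  obtain ⟨S, hS, hmax⟩ := T.exists_max_image Finset.card hT
  simp only [T, mem_filter, mem_univ, true_and] at hS hmax
  refine ⟨S, ?_, ?_⟩
  · by_contra hne
    obtain ⟨x, hx⟩ : ∃ x, x ∉ Subgroup.closure (S : Set U) := by
      by_contra hcon
      push Not at hcon
      exact hne ((Subgroup.eq_top_iff' _).2 hcon)
    have hxS : x ∉ S := fun h => hx (Subgroup.subset_closure h)
    have hle : Subgroup.closure (S : Set U) ≤ Subgroup.closure ((insert x S : Finset U) : Set U) :=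
      Subgroup.closure_mono (by simp)
    have hlt : Subgroup.closure (S : Set U) < Subgroup.closure ((insert x S : Finset U) : Set U) := by
      refine lt_of_le_of_ne hle ?_
      intro h
      apply hx
      rw [h]
      exact Subgroup.subset_closure (by simp)
    have hdvd := Subgroup.card_dvd_of_le hle
    have hne2 : Nat.card (Subgroup.closure (S : Set U)) ≠ Nat.card (Subgroup.closure ((insert x S : Finset U) : Set U)) := by
      intro h
      exact hlt.ne (Subgroup.eq_of_le_of_card_ge hle h.ge)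
    have h2 : 2 * Nat.card (Subgroup.closure (S : Set U)) ≤ Nat.card (Subgroup.closure ((insert x S : Finset U) : Set U)) := by
      obtain ⟨k, hk⟩ := hdvd
      rw [hk]
      have hpos : 0 < Nat.card (Subgroup.closure ((insert x S : Finset U) : Set U)) := Nat.card_pos
      have hk2 : 2 ≤ k := by
        rcases k with _ | _ | k
        · rw [hk] at hpos; simp at hpos
        · exfalso; apply hne2; rw [hk]; simp
        · omega
      calc 2 * Nat.card (Subgroup.closure (S : Set U)) ≤ k * Nat.card (Subgroup.closure (S : Set U)) :=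
            Nat.mul_le_mul_right _ hk2
        _ = _ := mul_comm _ _
    have h3 := hmax (insert x S) (by
      rw [card_insert_of_notMem hxS, pow_succ]
      calc 2 ^ S.card * 2 ≤ Nat.card (Subgroup.closure (S : Set U)) * 2 := Nat.mul_le_mul_right _ hS
        _ = 2 * Nat.card (Subgroup.closure (S : Set U)) := mul_comm _ _
        _ ≤ _ := h2)
    rw [card_insert_of_notMem hxS] at h3
    omega
  · exact hS.trans (Subgroup.card_le_card_group _)

open scoped Classical in
/-- number of automorphisms -/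
theorem MulD.card_aut_le {r : ℕ} (M : MulD r) :
    (univ.filter (fun e : Fin (r+1) ≃ Fin (r+1) => ∀ a b, e (M.m a b) = M.m (e a) (e b))).card
      ≤ (r + 1) ^ (Nat.log 2 r) := by
  obtain ⟨S, hS, hcard⟩ := exists_gen (U := M.U)
  rw [Nat.card_eq_fintype_card, M.card_U] at hcard
  have hlog : S.card ≤ Nat.log 2 r := Nat.le_log_of_pow_le (by norm_num) hcard
  have h1 : (univ.filter (fun e : Fin (r+1) ≃ Fin (r+1) => ∀ a b, e (M.m a b) = M.m (e a) (e b))).card
      ≤ Fintype.card (S → Fin (r+1)) := by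
    rw [← Finset.card_univ]
    apply Finset.card_le_card_of_injOn (fun e (s : S) => e (val (s : M.U)))
    · intro e _; exact Finset.mem_coe.2 (Finset.mem_univ _)
    · intro e he e' he' hee
      simp only [coe_filter, mem_univ, true_and, Set.mem_ofPred_eq] at he he'
      have h0 := iso_zero M.h M.h he
      have h0' := iso_zero M.h M.h he'
      have hne : ∀ (e : Fin (r+1) ≃ Fin (r+1)) (_ : e 0 = 0) (x : M.U), e (val x) ≠ 0 := by
        intro e h0 x hx
        rw [← h0] at hx
        exact val_ne x (e.injective hx)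
      let φ : M.U →* M.U := MonoidHom.mk' (fun x => (⟨e (val x), hne e h0 x⟩ : M.U)) (by
        intro x y
        exact Subtype.ext (he _ _))
      let φ' : M.U →* M.U := MonoidHom.mk' (fun x => (⟨e' (val x), hne e' h0' x⟩ : M.U)) (by
        intro x y
        exact Subtype.ext (he' _ _))
      have hφ : φ = φ' := by
        apply MonoidHom.eq_of_eqOn_dense hS
        intro x hx
        exact Subtype.ext (congrFun hee ⟨x, hx⟩)
      apply Equiv.ext
      intro a
      rcases M.cases a with rfl | ⟨x, rfl⟩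
      · rw [h0, h0']
      · have := congrArg (fun ψ : M.U →* M.U => val (ψ x)) hφ
        exact this
  refine h1.trans ?_
  rw [Fintype.card_fun, Fintype.card_coe, Fintype.card_fin]
  exact Nat.pow_le_pow_right (by omega) hlog

/-- isomorphism of multiplications fixing zero -/
def mSetoid (r : ℕ) : Setoid (Fin (r+1) → Fin (r+1) → Fin (r+1)) where
  r m m' := ∃ e : Fin (r+1) ≃ Fin (r+1), e 0 = 0 ∧ ∀ a b, e (m a b) = m' (e a) (e b)
  iseqv := by
    refine ⟨fun m => ⟨Equiv.refl _, rfl, fun a b => rfl⟩, ?_, ?_⟩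
    · rintro m m' ⟨e, h0, he⟩
      refine ⟨e.symm, ?_, fun a b => ?_⟩
      · rw [Equiv.symm_apply_eq, h0]
      · rw [Equiv.symm_apply_eq, he, e.apply_symm_apply, e.apply_symm_apply]
    · rintro m m' m'' ⟨e, h0, he⟩ ⟨e', h0', he'⟩
      refine ⟨e.trans e', ?_, fun a b => ?_⟩
      · simp [h0, h0']
      · simp only [Equiv.trans_apply]
        rw [he, he']

/-- chosen representative of a class of multiplications -/
noncomputable def rep {r : ℕ} (m : Fin (r+1) → Fin (r+1) → Fin (r+1)) : Fin (r+1) → Fin (r+1) → Fin (r+1) :=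
  (Quotient.mk (mSetoid r) m).out

theorem rep_spec {r : ℕ} (m : Fin (r+1) → Fin (r+1) → Fin (r+1)) :
    ∃ e : Fin (r+1) ≃ Fin (r+1), e 0 = 0 ∧ ∀ a b, e (m a b) = rep m (e a) (e b) := by
  have h : (mSetoid r).r m (rep m) := by
    have := Quotient.mk_out (s := mSetoid r) m
    exact (mSetoid r).symm this
  exact h

theorem rep_eq {r : ℕ} {m m' : Fin (r+1) → Fin (r+1) → Fin (r+1)} {e : Fin (r+1) ≃ Fin (r+1)}
    (h0 : e 0 = 0) (he : ∀ a b, e (m a b) = m' (e a) (e b)) : rep m = rep m' := by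
  unfold rep
  have : Quotient.mk (mSetoid r) m = Quotient.mk (mSetoid r) m' := Quotient.sound ⟨e, h0, he⟩
  rw [this]

theorem IsHyp.isMul {r : ℕ} {p : Str r} (h : IsHyp p) : IsMul p.1 :=
  ⟨h.1, h.2.1, h.2.2.1, h.2.2.2.1, h.2.2.2.2.1, h.2.2.2.2.2.1⟩

/-- the classes of quotient hyperfields -/
def QC (r : ℕ) : Set (Set (Str r)) := {C | ∃ p, IsQuot p ∧ C = {q | IsQuot q ∧ Iso p q}}

/-- the classes of hyperfields -/
def HC (r : ℕ) : Set (Set (Str r)) := {C | ∃ p, IsHyp p ∧ C = {q | IsHyp q ∧ Iso p q}}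

open scoped Classical in
/-- normalized hyperfields -/
noncomputable def NH (r : ℕ) : Finset (Str r) := univ.filter (fun p => IsHyp p ∧ rep p.1 = p.1)

open scoped Classical in
/-- normalized full pre-hyperfields -/
noncomputable def NF (r : ℕ) : Finset (Str r) := univ.filter (fun p => IsPre p ∧ Full p ∧ rep p.1 = p.1)

theorem class_eq {r : ℕ} {P : Str r → Prop} {p p' : Str r} (h : Iso p p') :
    {q | P q ∧ Iso p q} = {q | P q ∧ Iso p' q} := by
  ext q
  constructor
  · rintro ⟨h1, h2⟩; exact ⟨h1, h.symm.trans h2⟩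
  · rintro ⟨h1, h2⟩; exact ⟨h1, h.trans h2⟩

/-- every quotient class has a normalized member -/
theorem exists_norm {r : ℕ} {C : Set (Str r)} (hC : C ∈ QC r) :
    ∃ p : Str r, (∃ (K : Type) (_ : Field K) (G : Subgroup Kˣ) (f : K → Fin (r+1)), QData p K G f) ∧
      rep p.1 = p.1 ∧ C = {q | IsQuot q ∧ Iso p q} := by
  obtain ⟨p, ⟨K, _, G, f, h⟩, rfl⟩ := hC
  have h : QData p K G f := h
  obtain ⟨e, h0, he⟩ := rep_spec p.1
  have hrel : (relab p e).1 = rep p.1 := by
    funext a b
    simp only [relab]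
    rw [he, e.apply_symm_apply, e.apply_symm_apply]
  refine ⟨relab p e, ⟨K, _, G, _, h.relab h0⟩, ?_, class_eq (iso_relab p e)⟩
  rw [hrel]
  unfold rep
  rw [Quotient.out_eq]

open scoped Classical in
theorem card_NF_le {r : ℕ} (hr : 2 * r ^ 3 * 3 ^ (r / 24) ≤ 4 ^ (r / 24)) :
    2 ^ (r / 6) * (NF r).card ≤ 2 * r * (NH r).card := by
  have h1 : (NF r).card = ∑ m : Fin (r+1) → Fin (r+1) → Fin (r+1), ((NF r).filter (fun p => p.1 = m)).card :=
    Finset.card_eq_sum_card_fiberwise (fun _ _ => Finset.mem_coe.2 (Finset.mem_univ _))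
  have h2 : (NH r).card = ∑ m : Fin (r+1) → Fin (r+1) → Fin (r+1), ((NH r).filter (fun p => p.1 = m)).card :=
    Finset.card_eq_sum_card_fiberwise (fun _ _ => Finset.mem_coe.2 (Finset.mem_univ _))
  rw [h1, h2, Finset.mul_sum, Finset.mul_sum]
  apply Finset.sum_le_sum
  intro m _
  by_cases hm : IsMul m ∧ rep m = m
  · let M : MulD r := ⟨m, hm.1⟩
    have e1 : (NF r).filter (fun p => p.1 = m) = univ.filter (fun p : Str r => IsPre p ∧ p.1 = M.m ∧ Full p) := by
      ext p
      simp only [NF, mem_filter, mem_univ, true_and]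
      constructor
      · rintro ⟨⟨a, b, c⟩, d⟩; exact ⟨a, d, b⟩
      · rintro ⟨a, d, b⟩
        refine ⟨⟨a, b, ?_⟩, d⟩
        rw [d]; exact hm.2
    have e2 : (NH r).filter (fun p => p.1 = m) = univ.filter (fun p : Str r => IsHyp p ∧ p.1 = M.m) := by
      ext p
      simp only [NH, mem_filter, mem_univ, true_and]
      constructor
      · rintro ⟨⟨a, b⟩, d⟩; exact ⟨a, d⟩
      · rintro ⟨a, d⟩
        refine ⟨⟨a, ?_⟩, d⟩
        rw [d]; exact hm.2
    rw [e1, e2]
    calc _ ≤ r * (SymS M.U).card := M.card_full_le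
      _ ≤ r * (2 * (univ.filter (fun p : Str r => IsHyp p ∧ p.1 = M.m)).card) :=
        Nat.mul_le_mul_left _ (M.le_card_hyp hr)
      _ = _ := by ring
  · have e1 : (NF r).filter (fun p => p.1 = m) = ∅ := by
      rw [Finset.filter_eq_empty_iff]
      intro p hp hpm
      simp only [NF, mem_filter, mem_univ, true_and] at hp
      apply hm
      rw [← hpm]
      exact ⟨hp.1.1, hp.2.2⟩
    rw [e1]
    simp

open scoped Classical in
theorem card_NH_le (r : ℕ) : (NH r).card ≤ (r + 1) ^ (Nat.log 2 r) * (HC r).ncard := by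
  have hfin : (HC r).Finite := Set.toFinite _
  let c : Str r → Set (Str r) := fun p => {q | IsHyp q ∧ Iso p q}
  have h1 : (NH r).card ≤ (r + 1) ^ (Nat.log 2 r) * ((NH r).image c).card := by
    apply Finset.card_le_mul_card_image
    intro C hC
    obtain ⟨p, hp, rfl⟩ := Finset.mem_image.1 hC
    simp only [NH, mem_filter, mem_univ, true_and] at hp
    let M : MulD r := ⟨p.1, hp.1.isMul⟩
    refine le_trans ?_ M.card_aut_le
    have key : ∀ q ∈ (NH r).filter (fun q => c q = c p), ∃ e : Fin (r+1) ≃ Fin (r+1),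
        (∀ a b, e (M.m a b) = M.m (e a) (e b)) ∧ q = relab p e := by
      intro q hq
      simp only [NH, mem_filter, mem_univ, true_and] at hq
      have hpq : q ∈ c p := by
        rw [← hq.2]
        exact ⟨hq.1.1, Iso.refl q⟩
      obtain ⟨-, e, he⟩ := hpq
      have h0 : e 0 = 0 := iso_zero hp.1.isMul hq.1.1.isMul (fun a b => (he a b).1)
      have h2 : q.1 = p.1 := by
        rw [← hq.1.2, ← hp.2]
        exact (rep_eq h0 (fun a b => (he a b).1)).symm
      refine ⟨e, ?_, eq_relab he⟩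
      intro a b
      have := (he a b).1
      rw [h2] at this
      exact this
    choose! g hg1 hg2 using key
    apply Finset.card_le_card_of_injOn g
    · intro q hq
      simp only [coe_filter, mem_univ, true_and, Set.mem_ofPred_eq]
      exact hg1 q hq
    · intro q hq q' hq' h
      rw [hg2 q hq, hg2 q' hq', h]
  refine h1.trans (Nat.mul_le_mul_left _ ?_)
  rw [← Set.ncard_coe_finset]
  apply Set.ncard_le_ncard _ hfin
  intro C hC
  rw [mem_coe, mem_image] at hC
  obtain ⟨p, hp, rfl⟩ := hC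
  simp only [NH, mem_filter, mem_univ, true_and] at hp
  exact ⟨p, hp.1, rfl⟩

/-- classes with a full member / classes from small finite fields -/
theorem QC_sub (r : ℕ) : QC r ⊆
    {C | ∃ p ∈ NF r, C = {q | IsQuot q ∧ Iso p q}} ∪
    {C | ∃ p : Str r, (∃ (K : Type) (_ : Field K) (_ : Fintype K) (G : Subgroup Kˣ) (f : K → Fin (r+1)),
      QData p K G f ∧ Fintype.card K ≤ 16 * r ^ 4) ∧ rep p.1 = p.1 ∧ C = {q | IsQuot q ∧ Iso p q}} := by
  intro C hC
  obtain ⟨p, ⟨K, _, G, f, h⟩, hrep, rfl⟩ := exists_norm hC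
  rcases h.full_or with hf | ⟨_, hK⟩
  · left
    refine ⟨p, ?_, rfl⟩
    simp only [NF, mem_filter, mem_univ, true_and]
    exact ⟨h.isPre, hf, hrep⟩
  · right
    exact ⟨p, ⟨K, _, _, G, f, h, hK⟩, hrep, rfl⟩

/-- the classes from small finite fields -/
def QS (r : ℕ) : Set (Set (Str r)) := {C | ∃ p : Str r, (∃ (K : Type) (_ : Field K) (_ : Fintype K) (G : Subgroup Kˣ) (f : K → Fin (r+1)),
      QData p K G f ∧ Fintype.card K ≤ 16 * r ^ 4) ∧ rep p.1 = p.1 ∧ C = {q | IsQuot q ∧ Iso p q}}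

open scoped Classical in
theorem ncard_QS_le (r : ℕ) : (QS r).ncard ≤ 16 * r ^ 4 + 1 := by
  have key : ∀ C ∈ QS r, ∃ n : ℕ, n ≤ 16 * r ^ 4 ∧ ∃ p : Str r, (∃ (K : Type) (_ : Field K) (_ : Fintype K)
      (G : Subgroup Kˣ) (f : K → Fin (r+1)),
      QData p K G f ∧ Fintype.card K = n) ∧ C = {q | IsQuot q ∧ Iso p q} := by
    rintro C ⟨p, ⟨K, _, _, G, f, h, hK⟩, -, hC⟩
    exact ⟨_, hK, p, ⟨K, _, _, G, f, h, rfl⟩, hC⟩
  choose! n hn hn' using key
  have : (QS r).ncard ≤ (↑(Finset.range (16 * r ^ 4 + 1)) : Set ℕ).ncard := by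
    apply Set.ncard_le_ncard_of_injOn n
    · intro C hC
      simp only [coe_range, Set.mem_Iio]
      have := hn C hC
      omega
    · intro C hC C' hC' hCC
      obtain ⟨p, ⟨K, _, _, G, f, h, hK⟩, hp⟩ := hn' C hC
      obtain ⟨p', ⟨K', _, _, G', f', h', hK'⟩, hp'⟩ := hn' C' hC'
      rw [hp, hp']
      exact class_eq (h.iso_of_card h' (by rw [hK, hK', hCC]))
  rw [Set.ncard_coe_finset, Finset.card_range] at this
  exact this

open scoped Classical in
theorem main_bound {r : ℕ} (hr : 2 * r ^ 3 * 3 ^ (r / 24) ≤ 4 ^ (r / 24)) :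
    2 ^ (r / 6) * (QC r).ncard ≤
      (2 * r + 2 * (16 * r ^ 4 + 1)) * ((r + 1) ^ (Nat.log 2 r) * (HC r).ncard) := by
  let QF : Set (Set (Str r)) := {C | ∃ p ∈ NF r, C = {q | IsQuot q ∧ Iso p q}}
  have h1 : (QC r).ncard ≤ QF.ncard + (QS r).ncard :=
    (Set.ncard_le_ncard (QC_sub r) (Set.toFinite _)).trans (Set.ncard_union_le _ _)
  have h2 : QF.ncard ≤ (NF r).card := by
    have : QF = (fun p : Str r => {q | IsQuot q ∧ Iso p q}) '' (↑(NF r) : Set (Str r)) := by
      ext C
      constructor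
      · rintro ⟨p, hp, rfl⟩; exact ⟨p, hp, rfl⟩
      · rintro ⟨p, hp, rfl⟩; exact ⟨p, hp, rfl⟩
    rw [this, ← Set.ncard_coe_finset (NF r)]
    exact Set.ncard_image_le (Finset.finite_toSet _)
  have h3 := card_NF_le hr
  have h4 := ncard_QS_le r
  have h5 : 2 ^ (r / 6) * (QS r).ncard ≤ (16 * r ^ 4 + 1) * (2 * (NH r).card) := by
    rcases (QS r).eq_empty_or_nonempty with he | ⟨C, p, ⟨K, _, _, G, f, h, -⟩, hrep, -⟩
    · rw [he]; simp
    · let M : MulD r := ⟨p.1, h.isPre.1⟩
      have e1 : 2 ^ (r / 6) ≤ 2 * (NH r).card := by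
        calc 2 ^ (r / 6) ≤ (SymS M.U).card := M.two_pow_le_symS
          _ ≤ 2 * (univ.filter (fun p : Str r => IsHyp p ∧ p.1 = M.m)).card := M.le_card_hyp hr
          _ ≤ 2 * (NH r).card := by
            apply Nat.mul_le_mul_left
            apply Finset.card_le_card
            intro q hq
            simp only [NH, mem_filter, mem_univ, true_and] at hq ⊢
            refine ⟨hq.1, ?_⟩
            rw [hq.2]; exact hrep
      calc 2 ^ (r / 6) * (QS r).ncard ≤ (2 * (NH r).card) * (16 * r ^ 4 + 1) := Nat.mul_le_mul e1 h4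
        _ = _ := mul_comm _ _
  calc 2 ^ (r / 6) * (QC r).ncard ≤ 2 ^ (r / 6) * (QF.ncard + (QS r).ncard) := Nat.mul_le_mul_left _ h1
    _ ≤ 2 ^ (r / 6) * ((NF r).card + (QS r).ncard) := Nat.mul_le_mul_left _ (Nat.add_le_add_right h2 _)
    _ = 2 ^ (r / 6) * (NF r).card + 2 ^ (r / 6) * (QS r).ncard := by ring
    _ ≤ 2 * r * (NH r).card + (16 * r ^ 4 + 1) * (2 * (NH r).card) := Nat.add_le_add h3 h5
    _ = (2 * r + 2 * (16 * r ^ 4 + 1)) * (NH r).card := by ring
    _ ≤ _ := Nat.mul_le_mul_left _ (card_NH_le r)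

end Pool.Agent.V11285.Hyp
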