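import Mathlib
import Pool.Agent.V11285.Hyp6

set_option autoImplicit false

namespace Pool.Agent.V11285.Hyp

open Finset

theorem pow_cond_aux : ∀ k : ℕ, 27648 * (k + 101) ^ 3 * 3 ^ (k + 100) ≤ 4 ^ (k + 100) := by
  intro k
  induction k with
  | zero => norm_num
  | succ k ih =>
    have h1 : 3 * (k + 1 + 101) ^ 3 ≤ 4 * (k + 101) ^ 3 := by
      nlinarith [sq_nonneg k, Nat.zero_le (k^3), Nat.zero_le k, Nat.zero_le (k^2)]
    calc 27648 * (k + 1 + 101) ^ 3 * 3 ^ (k + 1 + 100)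
        = 27648 * 3 ^ (k + 100) * (3 * (k + 1 + 101) ^ 3) := by ring
      _ ≤ 27648 * 3 ^ (k + 100) * (4 * (k + 101) ^ 3) := Nat.mul_le_mul_left _ h1
      _ = 4 * (27648 * (k + 101) ^ 3 * 3 ^ (k + 100)) := by ring
      _ ≤ 4 * 4 ^ (k + 100) := Nat.mul_le_mul_left _ ih
      _ = 4 ^ (k + 1 + 100) := by ring

theorem pow_cond {r : ℕ} (hr : 2400 ≤ r) : 2 * r ^ 3 * 3 ^ (r / 24) ≤ 4 ^ (r / 24) := by
  obtain ⟨k, hk⟩ : ∃ k, r / 24 = k + 100 := ⟨r / 24 - 100, by omega⟩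
  have h1 : r ≤ 24 * (k + 101) := by omega
  rw [hk]
  calc 2 * r ^ 3 * 3 ^ (k + 100) ≤ 2 * (24 * (k + 101)) ^ 3 * 3 ^ (k + 100) := by gcongr
    _ = 27648 * (k + 101) ^ 3 * 3 ^ (k + 100) := by ring
    _ ≤ _ := pow_cond_aux k

theorem log_cond : ∀ L : ℕ, 11 ≤ L → 6 * (L ^ 2 + 6 * L + 10) ≤ 2 ^ L := by
  intro L hL
  induction L, hL using Nat.le_induction with
  | base => norm_num
  | succ L hL ih =>
    have h1 : 6 * ((L + 1) ^ 2 + 6 * (L + 1) + 10) ≤ 2 * (6 * (L ^ 2 + 6 * L + 10)) := by nlinarith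
    calc _ ≤ _ := h1
      _ ≤ 2 * 2 ^ L := Nat.mul_le_mul_left _ ih
      _ = 2 ^ (L + 1) := by ring

theorem main_bound2 {r : ℕ} (hr : 2400 ≤ r) :
    2 ^ (Nat.log 2 r) * (QC r).ncard ≤ (HC r).ncard := by
  have h := main_bound (pow_cond hr)
  set L := Nat.log 2 r with hL
  have hL1 : 2 ^ L ≤ r := Nat.pow_log_le_self 2 (by omega)
  have hL2 : r < 2 ^ (L + 1) := Nat.lt_pow_succ_log_self (by norm_num) r
  have hL11 : 11 ≤ L := by
    by_contra hcon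
    have h1 : L + 1 ≤ 11 := by omega
    have h2 : 2 ^ (L + 1) ≤ 2 ^ 11 := Nat.pow_le_pow_right (by norm_num) h1
    norm_num at h2
    omega
  have hexp : L ^ 2 + 6 * L + 10 ≤ r / 6 := by
    rw [Nat.le_div_iff_mul_le (by norm_num)]
    have := log_cond L hL11
    omega
  have hb1 : 2 * r + 2 * (16 * r ^ 4 + 1) ≤ 2 ^ (6 + 4 * (L + 1)) := by
    have h1 : 2 * r + 2 * (16 * r ^ 4 + 1) ≤ 64 * r ^ 4 := by
      have h2 : r ≤ r ^ 4 := Nat.le_self_pow (by norm_num) r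
      have h3 : 1 ≤ r ^ 4 := Nat.one_le_pow _ _ (by omega)
      omega
    calc _ ≤ 64 * r ^ 4 := h1
      _ ≤ 64 * (2 ^ (L + 1)) ^ 4 := by gcongr
      _ = 2 ^ (6 + 4 * (L + 1)) := by
        rw [← pow_mul, pow_add 2 6, mul_comm 4 (L+1)]
        norm_num
  have hb2 : (r + 1) ^ L ≤ 2 ^ ((L + 1) * L) := by
    rw [pow_mul]
    exact Nat.pow_le_pow_left hL2 L
  have hpos : 0 < 2 ^ (L ^ 2 + 5 * L + 10) := by positivity
  have hfin : 2 ^ (L ^ 2 + 5 * L + 10) * (2 ^ L * (QC r).ncard) ≤ 2 ^ (L ^ 2 + 5 * L + 10) * (HC r).ncard := by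
    calc 2 ^ (L ^ 2 + 5 * L + 10) * (2 ^ L * (QC r).ncard)
        = 2 ^ (L ^ 2 + 6 * L + 10) * (QC r).ncard := by
          rw [← mul_assoc, ← pow_add]; ring_nf
      _ ≤ 2 ^ (r / 6) * (QC r).ncard :=
          Nat.mul_le_mul_right _ (Nat.pow_le_pow_right (by norm_num) hexp)
      _ ≤ _ := h
      _ ≤ 2 ^ (6 + 4 * (L + 1)) * (2 ^ ((L + 1) * L) * (HC r).ncard) := by gcongr
      _ = 2 ^ (L ^ 2 + 5 * L + 10) * (HC r).ncard := by
          rw [← mul_assoc, ← pow_add]; ring_nf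
  exact Nat.le_of_mul_le_mul_left hfin hpos

theorem tendsto_ratio :
    Filter.Tendsto (fun r : ℕ => (((QC r).ncard : ℕ) : ℝ) / (((HC r).ncard : ℕ) : ℝ))
      Filter.atTop (nhds 0) := by
  have hlim : Filter.Tendsto (fun r : ℕ => 2 / ((r : ℝ))) Filter.atTop (nhds 0) :=
    tendsto_const_div_atTop_nhds_zero_nat 2
  apply squeeze_zero' (g := fun r : ℕ => 2 / ((r : ℝ))) _ _ hlim
  · exact Filter.Eventually.of_forall (fun r => by positivity)
  · rw [Filter.eventually_atTop]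
    refine ⟨2400, fun r hr => ?_⟩
    have hr0 : (0 : ℝ) < r := by
      have : (0 : ℕ) < r := by omega
      exact_mod_cast this
    have h := main_bound2 hr
    have hL2 : r < 2 ^ (Nat.log 2 r + 1) := Nat.lt_pow_succ_log_self (by norm_num) r
    rcases Nat.eq_zero_or_pos (HC r).ncard with h0 | h0
    · rw [h0]
      simp only [Nat.cast_zero, div_zero]
      positivity
    · rw [div_le_div_iff₀ (by exact_mod_cast h0) hr0]
      have h1 : (QC r).ncard * r ≤ 2 * (HC r).ncard := by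
        calc (QC r).ncard * r ≤ (QC r).ncard * 2 ^ (Nat.log 2 r + 1) := Nat.mul_le_mul_left _ hL2.le
          _ = 2 * (2 ^ (Nat.log 2 r) * (QC r).ncard) := by ring
          _ ≤ _ := Nat.mul_le_mul_left _ h
      exact_mod_cast h1

end Pool.Agent.V11285.Hyp
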