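import Pool.Agent.V11285.WD

/-! Properties of integral vectors with few exceptions: no exceptions in windows around `x v_k`, `x` in `ℝ^n`. -/

set_option autoImplicit false

open Finset Filter Topology MeasureTheory

namespace Pool.Agent.V11285.LW

open scoped ENNReal NNReal

/-- the exponent of convergence of the sequence `v` is at most `τ` -/
def ExpLe (v : ℕ → ℝ) (τ : ℝ) : Prop := ∀ t : ℝ, τ < t → Summable (fun k : ℕ => (v k) ^ (-t))

/-- at most `C T ^ (n - c)` integral vectors in the box of side `T` do not have the property -/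
def FewVectors {n : ℕ} (P : (Fin n → ℤ) → Prop) (c : ℝ) : Prop := ∃ C : ℝ, ∀ T : ℕ, 1 ≤ T →
  ({a : Fin n → ℤ | (∀ i, |a i| ≤ (T : ℤ)) ∧ ¬ P a}.ncard : ℝ) ≤ C * (T : ℝ) ^ ((n : ℝ) - c)

/-- the windows of the dimension `(n - c + τ) / (1 - θ)` -/
def LatticeWindows {n : ℕ} (P : (Fin n → ℤ) → Prop) (c : ℝ) : Prop :=
  ∀ (v : ℕ → ℝ) (τ θ : ℝ), (∀ k, 1 ≤ v k) → 0 ≤ τ → ExpLe v τ → θ < 1 →
    ∃ E : Set (Fin n → ℝ), dimH E ≤ ENNReal.ofReal (((n : ℝ) - c + τ) / (1 - θ)) ∧ ∀ x : Fin n → ℝ, x ∉ E →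
      ∃ k₀ : ℕ, ∀ k : ℕ, k₀ ≤ k → ∀ a : Fin n → ℤ, (∀ i, |(a i : ℝ) - x i * v k| ≤ (v k) ^ θ) → P a

theorem finite_box (n : ℕ) (X : ℝ) : {a : Fin n → ℤ | ∀ i, |(a i : ℝ)| ≤ X}.Finite := by
  have h1 : {a : Fin n → ℤ | ∀ i, |(a i : ℝ)| ≤ X} ⊆ Set.pi Set.univ fun _ : Fin n => Set.Icc (-⌊X⌋) ⌊X⌋ := by
    intro a ha i _
    have h2 := abs_le.1 (ha i)
    rw [Set.mem_Icc]
    constructor
    · have : -a i ≤ ⌊X⌋ := by
        rw [Int.le_floor]
        push_cast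
        linarith [h2.1]
      linarith
    · rw [Int.le_floor]
      exact h2.2
  exact (Set.Finite.pi' fun _ => Set.finite_Icc _ _).subset fun a ha i => h1 ha i trivial

/-- **Windows.** -/
theorem latticeWindows {n : ℕ} {P : (Fin n → ℤ) → Prop} {c : ℝ} (hc : c ≤ n) (h : FewVectors P c) :
    LatticeWindows P c := by
  intro v τ θ hpos hτ hv hθ
  obtain ⟨C, hC⟩ := h
  have hnc : 0 ≤ (n : ℝ) - c := by linarith
  obtain ⟨E, hE1, hE2⟩ := Pool.Agent.V11285.WD.windowsD (fun _ => {a : Fin n → ℤ | ¬ P a})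
    (fun _ a i => (a i : ℝ)) (v := v) (s := (n : ℝ) - c) (τ := τ) (θ := θ) hpos hτ hv hnc hθ (by
      intro A ε hε
      refine ⟨|C| * ((A : ℝ) + 2) ^ ((n : ℝ) - c), 0, fun k _ => ?_⟩
      have hk1 := hpos k
      have hA0 : (0 : ℝ) ≤ A := Nat.cast_nonneg A
      have hfin : {a : Fin n → ℤ | a ∈ {a : Fin n → ℤ | ¬ P a} ∧ ∀ i, |(a i : ℝ)| ≤ ((A : ℝ) + 1) * v k}.Finite :=
        (finite_box n _).subset fun a ha => ha.2
      refine ⟨hfin, ?_⟩
      set T : ℕ := ⌈((A : ℝ) + 1) * v k⌉₊ with hT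
      have hT1 : 1 ≤ T := by
        rw [hT, Nat.one_le_ceil_iff]
        positivity
      have hTle : (T : ℝ) ≤ ((A : ℝ) + 2) * v k := by
        have := Nat.ceil_lt_add_one (show 0 ≤ ((A : ℝ) + 1) * v k by positivity)
        nlinarith
      have hsub : {a : Fin n → ℤ | a ∈ {a : Fin n → ℤ | ¬ P a} ∧ ∀ i, |(a i : ℝ)| ≤ ((A : ℝ) + 1) * v k} ⊆
          {a : Fin n → ℤ | (∀ i, |a i| ≤ (T : ℤ)) ∧ ¬ P a} := by
        rintro a ⟨h1, h2⟩
        refine ⟨fun i => ?_, h1⟩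
        have h3 : |(a i : ℝ)| ≤ (T : ℝ) := (h2 i).trans (Nat.le_ceil _)
        rw [← Int.cast_abs] at h3
        exact_mod_cast h3
      have hfin2 : {a : Fin n → ℤ | (∀ i, |a i| ≤ (T : ℤ)) ∧ ¬ P a}.Finite := by
        refine (finite_box n T).subset fun a ha i => ?_
        have := ha.1 i
        have h4 : ((|a i| : ℤ) : ℝ) ≤ ((T : ℤ) : ℝ) := by exact_mod_cast this
        rw [Int.cast_abs] at h4
        exact_mod_cast h4
      have hT0 : (0 : ℝ) < T := by exact_mod_cast hT1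
      have hv0 : 0 < v k := by linarith
      calc ({a : Fin n → ℤ | a ∈ {a : Fin n → ℤ | ¬ P a} ∧ ∀ i, |(a i : ℝ)| ≤ ((A : ℝ) + 1) * v k}.ncard : ℝ)
          ≤ ({a : Fin n → ℤ | (∀ i, |a i| ≤ (T : ℤ)) ∧ ¬ P a}.ncard : ℝ) := by
            exact_mod_cast Set.ncard_le_ncard hsub hfin2
        _ ≤ C * (T : ℝ) ^ ((n : ℝ) - c) := hC T hT1
        _ ≤ |C| * (((A : ℝ) + 2) * v k) ^ ((n : ℝ) - c) := by
            apply mul_le_mul (le_abs_self C) _ (Real.rpow_nonneg hT0.le _) (abs_nonneg C)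
            exact Real.rpow_le_rpow hT0.le hTle hnc
        _ = |C| * ((A : ℝ) + 2) ^ ((n : ℝ) - c) * (v k) ^ ((n : ℝ) - c) := by
            rw [Real.mul_rpow (by positivity) hv0.le, mul_assoc]
        _ ≤ |C| * ((A : ℝ) + 2) ^ ((n : ℝ) - c) * (v k) ^ ((n : ℝ) - c + ε) := by
            apply mul_le_mul_of_nonneg_left _ (by positivity)
            exact Real.rpow_le_rpow_of_exponent_le hk1 (by linarith))
  refine ⟨E, hE1, fun x hx => ?_⟩
  obtain ⟨k₀, hk₀⟩ := hE2 x hx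
  refine ⟨k₀, fun k hk a ha => ?_⟩
  by_contra hcon
  exact hk₀ k hk a hcon ha

/-- **Almost all `x`, countably many properties.** -/
theorem ae_windows {n : ℕ} (hn : 1 ≤ n) {ι : Type} [Countable ι] {P : ι → (Fin n → ℤ) → Prop} {c : ι → ℝ}
    (hc0 : ∀ i, 0 < c i) (h : ∀ i, LatticeWindows (P i) (c i)) (hcn : ∀ i, c i ≤ n) {v : ℕ → ℝ}
    (hpos : ∀ k, 1 ≤ v k) (hv : ExpLe v 0) :
    ∀ᵐ x : Fin n → ℝ, ∀ i, ∃ k₀ : ℕ, ∀ k : ℕ, k₀ ≤ k → ∀ a : Fin n → ℤ,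
      (∀ j, |(a j : ℝ) - x j * v k| ≤ (v k) ^ (c i / (2 * n))) → P i a := by
  rw [ae_all_iff]
  intro i
  have hn0 : (0 : ℝ) < n := by exact_mod_cast (by omega : 0 < n)
  set θ : ℝ := c i / (2 * n) with hθ
  have hθ0 : 0 < θ := by
    have := hc0 i
    positivity
  have hθ1 : θ ≤ 1 / 2 := by
    rw [hθ, div_le_iff₀ (by positivity)]
    have := hcn i
    nlinarith
  obtain ⟨E, hE1, hE2⟩ := h i v 0 θ hpos le_rfl hv (by linarith)
  have hlt : dimH E < ((n : ℝ≥0) : ℝ≥0∞) := by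
    refine lt_of_le_of_lt hE1 ?_
    have h1 : ((n : ℝ) - c i + 0) / (1 - θ) < n := by
      rw [div_lt_iff₀ (by linarith)]
      have h2 : (n : ℝ) * θ = c i / 2 := by
        rw [hθ]
        field_simp
      have := hc0 i
      nlinarith
    rw [ENNReal.ofReal_lt_iff_lt_toReal]
    · simpa using h1
    · have := hcn i
      apply div_nonneg
      · linarith
      · linarith
    · simp
  have hvol : volume E = 0 := by
    have h1 := hausdorffMeasure_of_dimH_lt hlt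
    have h2 : (((n : ℝ≥0) : ℝ)) = (Fintype.card (Fin n) : ℝ) := by simp
    rw [h2, hausdorffMeasure_pi_real] at h1
    exact h1
  have hae : ∀ᵐ x : Fin n → ℝ, x ∉ E := measure_eq_zero_iff_ae_notMem.1 hvol
  filter_upwards [hae] with x hx
  exact hE2 x hx

/-- The algebraic integers of degree at most `m` all of whose conjugates have absolute value at most `T`. -/
def integers (m T : ℕ) : Set ℂ :=
  {α | IsIntegral ℤ α ∧ (minpoly ℚ α).natDegree ≤ m ∧ ∀ z : ℂ, Polynomial.aeval z (minpoly ℚ α) = 0 → ‖z‖ ≤ T}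

theorem mem_integers_one (a : ℤ) (T : ℕ) (h : |a| ≤ (T : ℤ)) : (a : ℂ) ∈ integers 1 T := by
  have e : (a : ℂ) = algebraMap ℚ ℂ (a : ℚ) := by simp
  have hmin : minpoly ℚ (a : ℂ) = Polynomial.X - Polynomial.C (a : ℚ) := by
    rw [e]
    exact minpoly.eq_X_sub_C ℂ (a : ℚ)
  refine ⟨?_, ?_, ?_⟩
  · have : (a : ℂ) = algebraMap ℤ ℂ a := by simp
    rw [this]
    exact isIntegral_algebraMap
  · rw [hmin, Polynomial.natDegree_X_sub_C]
  · intro z hz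
    rw [hmin, map_sub, Polynomial.aeval_X, Polynomial.aeval_C, sub_eq_zero] at hz
    rw [hz, eq_ratCast]
    have h1 : ‖((a : ℚ) : ℂ)‖ = |(a : ℝ)| := by
      rw [Rat.cast_intCast, Complex.norm_intCast]
    rw [h1, ← Int.cast_abs]
    exact_mod_cast h

theorem integers_one_subset (T : ℕ) : integers 1 T ⊆ (fun a : ℤ => (a : ℂ)) '' (Set.Icc (-(T : ℤ)) T) := by
  rintro α ⟨h1, h2, h3⟩
  have hint : IsIntegral ℚ α := h1.tower_top
  have hdeg : (minpoly ℚ α).natDegree = 1 :=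
    le_antisymm h2 (Nat.one_le_iff_ne_zero.2 (minpoly.natDegree_pos hint).ne')
  obtain ⟨q, hq⟩ : ∃ q : ℚ, algebraMap ℚ ℂ q = α := by
    have : α ∈ (algebraMap ℚ ℂ).range := minpoly.natDegree_eq_one_iff.1 hdeg
    exact this
  have hqi : IsIntegral ℤ q := by
    rw [← hq] at h1
    exact (isIntegral_algebraMap_iff (algebraMap ℚ ℂ).injective).1 h1
  obtain ⟨a, ha⟩ := IsIntegrallyClosed.isIntegral_iff.1 hqi
  have hα : α = (a : ℂ) := by
    rw [← hq, ← ha]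
    simp
  refine ⟨a, ?_, hα.symm⟩
  have h4 := h3 α (minpoly.aeval ℚ α)
  rw [hα, Complex.norm_intCast, ← Int.cast_abs] at h4
  have h5 : |a| ≤ (T : ℤ) := by exact_mod_cast h4
  exact abs_le.1 h5

theorem ncard_integers_one (T : ℕ) (hT : 1 ≤ T) : ((integers 1 T).ncard : ℝ) ≤ 3 * T := by
  have h1 := Set.ncard_le_ncard (integers_one_subset T) ((Set.finite_Icc _ _).image _)
  have h2 := h1.trans (Set.ncard_image_le (Set.finite_Icc (-(T : ℤ)) T))
  have h3 : (Set.Icc (-(T : ℤ)) T).ncard = 2 * T + 1 := by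
    rw [← Finset.coe_Icc, Set.ncard_coe_finset, Int.card_Icc]
    omega
  rw [h3] at h2
  have h4 : ((integers 1 T).ncard : ℝ) ≤ 2 * T + 1 := by exact_mod_cast h2
  have h5 : (1 : ℝ) ≤ T := by exact_mod_cast hT
  linarith

/-- from a proportion of the tuples of algebraic integers of degree `m = 1` -/
theorem few_of_proportion {n : ℕ} {Q : (Fin n → ℂ) → Prop} {c C : ℝ} (hc1 : 0 ≤ C)
    (h : ∀ T : ℕ, 1 ≤ T → (integers 1 T).Finite ∧ ({α : Fin n → ℂ | (∀ i, α i ∈ integers 1 T) ∧ ¬ Q α}.ncard : ℝ) ≤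
      C * (T : ℝ) ^ (-c) * ((integers 1 T).ncard : ℝ) ^ n) :
    FewVectors (fun a : Fin n → ℤ => Q fun i => (a i : ℂ)) c := by
  refine ⟨C * 3 ^ n, fun T hT => ?_⟩
  obtain ⟨hfin, hle⟩ := h T hT
  have hT0 : (0 : ℝ) < T := by exact_mod_cast hT
  have hfin2 : {α : Fin n → ℂ | (∀ i, α i ∈ integers 1 T) ∧ ¬ Q α}.Finite :=
    (Set.Finite.pi' fun _ => hfin).subset fun α hα i => hα.1 i
  have hinj : Set.InjOn (fun (a : Fin n → ℤ) (i : Fin n) => (a i : ℂ))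
      {a : Fin n → ℤ | (∀ i, |a i| ≤ (T : ℤ)) ∧ ¬ Q fun i => (a i : ℂ)} := by
    intro a _ b _ hab
    ext i
    have h0 : ((a i : ℤ) : ℂ) = ((b i : ℤ) : ℂ) := congrFun hab i
    exact_mod_cast h0
  have hmaps : ∀ a ∈ {a : Fin n → ℤ | (∀ i, |a i| ≤ (T : ℤ)) ∧ ¬ Q fun i => (a i : ℂ)},
      (fun (i : Fin n) => (a i : ℂ)) ∈ {α : Fin n → ℂ | (∀ i, α i ∈ integers 1 T) ∧ ¬ Q α} := by
    rintro a ⟨h1, h2⟩
    exact ⟨fun i => mem_integers_one (a i) T (h1 i), h2⟩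
  have h1 := Set.ncard_le_ncard_of_injOn _ hmaps hinj hfin2
  calc ({a : Fin n → ℤ | (∀ i, |a i| ≤ (T : ℤ)) ∧ ¬ Q fun i => (a i : ℂ)}.ncard : ℝ)
      ≤ ({α : Fin n → ℂ | (∀ i, α i ∈ integers 1 T) ∧ ¬ Q α}.ncard : ℝ) := by exact_mod_cast h1
    _ ≤ C * (T : ℝ) ^ (-c) * ((integers 1 T).ncard : ℝ) ^ n := hle
    _ ≤ C * (T : ℝ) ^ (-c) * (3 * T) ^ n := by
        apply mul_le_mul_of_nonneg_left _ (mul_nonneg hc1 (Real.rpow_nonneg hT0.le _))
        exact pow_le_pow_left₀ (Nat.cast_nonneg _) (ncard_integers_one T hT) n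
    _ = C * 3 ^ n * (T : ℝ) ^ ((n : ℝ) - c) := by
        rw [mul_pow, Real.rpow_sub hT0, Real.rpow_natCast, Real.rpow_neg hT0.le]
        ring

/-- smaller exponents -/
theorem FewVectors.mono {n : ℕ} {P : (Fin n → ℤ) → Prop} {c c' : ℝ} (h : FewVectors P c) (hc : c' ≤ c) :
    FewVectors P c' := by
  obtain ⟨C, hC⟩ := h
  refine ⟨|C|, fun T hT => (hC T hT).trans ?_⟩
  have hT1 : (1 : ℝ) ≤ T := by exact_mod_cast hT
  apply mul_le_mul (le_abs_self C) _ (Real.rpow_nonneg (by linarith) _) (abs_nonneg C)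
  exact Real.rpow_le_rpow_of_exponent_le hT1 (by linarith)

end Pool.Agent.V11285.LW
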