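import Mathlib

set_option autoImplicit false
set_option linter.all false

namespace Pool.Agent.V11285.OI

/-- The order isomorphism of the complement of `i` onto the complement of `j` maps `a` to `b`. -/
def E (i j a b : ℕ) : Prop :=
  a ≠ i ∧ b ≠ j ∧ ((a < i ∧ b < j ∧ a = b) ∨ (a < i ∧ j < b ∧ a + 1 = b) ∨
    (i < a ∧ b < j ∧ a = b + 1) ∨ (i < a ∧ j < b ∧ a = b))

def S (n : ℕ) (π : ℕ → ℕ) (x y : Bool × ℕ × ℕ) : Prop :=
  ∃ i < n, ∃ a b c d, E i (π i) a c ∧ E i (π i) b d ∧
    ((x = (false, a, b) ∧ y = (true, c, d)) ∨ (x = (true, c, d) ∧ y = (false, a, b)))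

def Conn (n : ℕ) (π : ℕ → ℕ) (x y : Bool × ℕ × ℕ) : Prop := Relation.ReflTransGen (S n π) x y

variable {n : ℕ} {π : ℕ → ℕ}

theorem S.symm {x y : Bool × ℕ × ℕ} (h : S n π x y) : S n π y x := by
  obtain ⟨i, hi, a, b, c, d, h1, h2, h3⟩ := h
  refine ⟨i, hi, a, b, c, d, h1, h2, ?_⟩
  rcases h3 with ⟨h3, h4⟩ | ⟨h3, h4⟩
  · exact Or.inr ⟨h4, h3⟩
  · exact Or.inl ⟨h4, h3⟩

theorem Conn.symm {x y : Bool × ℕ × ℕ} (h : Conn n π x y) : Conn n π y x := by
  unfold Conn at h ⊢
  induction h with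
  | refl => exact Relation.ReflTransGen.refl
  | tail _ h ih => exact (Relation.ReflTransGen.single (S.symm h)).trans ih

theorem Conn.trans {x y z : Bool × ℕ × ℕ} (h : Conn n π x y) (h' : Conn n π y z) :
    Conn n π x z := Relation.ReflTransGen.trans h h'

theorem edge {i j a b c d : ℕ} (hi : i < n) (hj : π i = j) (h1 : E i j a c) (h2 : E i j b d) :
    Conn n π (false, a, b) (true, c, d) :=
  Relation.ReflTransGen.single ⟨i, hi, a, b, c, d, hj ▸ h1, hj ▸ h2, Or.inl ⟨rfl, rfl⟩⟩

/-- A path of length three. -/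
theorem path3 {u v : ℕ} {i₁ j₁ i₂ j₂ i₃ j₃ : ℕ} (p₁ p₂ q₁ q₂ : ℕ)
    (a₁ : i₁ < n ∧ π i₁ = j₁) (a₂ : i₂ < n ∧ π i₂ = j₂) (a₃ : i₃ < n ∧ π i₃ = j₃)
    (h : E i₁ j₁ u p₁ ∧ E i₁ j₁ v p₂ ∧ E i₂ j₂ q₁ p₁ ∧ E i₂ j₂ q₂ p₂ ∧ E i₃ j₃ q₁ u ∧
      E i₃ j₃ q₂ v) : Conn n π (false, u, v) (true, u, v) :=
  (edge a₁.1 a₁.2 h.1 h.2.1).trans
    ((edge a₂.1 a₂.2 h.2.2.1 h.2.2.2.1).symm.trans (edge a₃.1 a₃.2 h.2.2.2.2.1 h.2.2.2.2.2))

/-- A path of length five. -/
theorem path5 {u v : ℕ} {i₁ j₁ i₂ j₂ i₃ j₃ i₄ j₄ i₅ j₅ : ℕ} (p₁ p₂ q₁ q₂ r₁ r₂ s₁ s₂ : ℕ)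
    (a₁ : i₁ < n ∧ π i₁ = j₁) (a₂ : i₂ < n ∧ π i₂ = j₂) (a₃ : i₃ < n ∧ π i₃ = j₃)
    (a₄ : i₄ < n ∧ π i₄ = j₄) (a₅ : i₅ < n ∧ π i₅ = j₅)
    (h : E i₁ j₁ u p₁ ∧ E i₁ j₁ v p₂ ∧ E i₂ j₂ q₁ p₁ ∧ E i₂ j₂ q₂ p₂ ∧ E i₃ j₃ q₁ r₁ ∧
      E i₃ j₃ q₂ r₂)
    (h' : E i₄ j₄ s₁ r₁ ∧ E i₄ j₄ s₂ r₂ ∧ E i₅ j₅ s₁ u ∧ E i₅ j₅ s₂ v) :
    Conn n π (false, u, v) (true, u, v) :=
  (edge a₁.1 a₁.2 h.1 h.2.1).trans
    ((edge a₂.1 a₂.2 h.2.2.1 h.2.2.2.1).symm.trans
      ((edge a₃.1 a₃.2 h.2.2.2.2.1 h.2.2.2.2.2).trans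
        ((edge a₄.1 a₄.2 h'.1 h'.2.1).symm.trans (edge a₅.1 a₅.2 h'.2.2.1 h'.2.2.2))))

/-- Two-cycle between the left part and the middle part. -/
theorem cycLM {u v i₁ j₁ i₂ j₂ w z : ℕ} (huv : u < v) (hv : v < n)
    (a₁ : i₁ < n ∧ π i₁ = j₁) (a₂ : i₂ < n ∧ π i₂ = j₂) (aw : u < n ∧ π u = w)
    (az : z < n ∧ π z = u) (h₁ : i₁ < u ∧ u < j₁ ∧ j₁ < v)
    (h₂ : u < i₂ ∧ i₂ < v ∧ j₂ < u ∧ i₂ ≠ v - 1) : Conn n π (false, u, v) (true, u, v) := by
  by_cases c1 : w ≤ u
  · refine path3 (u + 1) v (u + 1) v a₂ aw a₁ ?_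
    unfold E; omega
  by_cases c2 : z ≤ u
  · refine path3 (u + 1) v (u + 1) v a₂ az a₁ ?_
    unfold E; omega
  by_cases c3 : w < v
  · refine path3 (u - 1) v (u - 1) v a₁ aw a₂ ?_
    unfold E; omega
  by_cases c4 : z < v
  · refine path3 (u - 1) v (u - 1) v a₁ az a₂ ?_
    unfold E; omega
  refine path5 (u - 1) v (u - 1) (v - 1) u (v - 1) (u + 1) v a₁ az a₂ aw a₁ ?_ ?_ <;>
    (unfold E; omega)

/-- Two-cycle between the right part and the middle part. -/
theorem cycRM {u v i₁ j₁ i₂ j₂ w z : ℕ} (huv : u < v) (hv : v < n)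
    (a₁ : i₁ < n ∧ π i₁ = j₁) (a₂ : i₂ < n ∧ π i₂ = j₂) (aw : v < n ∧ π v = w)
    (az : z < n ∧ π z = v) (h₁ : v < i₁ ∧ u < j₁ ∧ j₁ < v)
    (h₂ : u < i₂ ∧ i₂ < v ∧ v < j₂ ∧ i₂ ≠ u + 1) : Conn n π (false, u, v) (true, u, v) := by
  by_cases c1 : v ≤ w
  · refine path3 u (v - 1) u (v - 1) a₂ aw a₁ ?_
    unfold E; omega
  by_cases c2 : v ≤ z
  · refine path3 u (v - 1) u (v - 1) a₂ az a₁ ?_
    unfold E; omega
  by_cases c3 : u < w
  · refine path3 u (v + 1) u (v + 1) a₁ aw a₂ ?_
    unfold E; omega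
  by_cases c4 : u < z
  · refine path3 u (v + 1) u (v + 1) a₁ az a₂ ?_
    unfold E; omega
  refine path5 u (v + 1) (u + 1) (v + 1) (u + 1) v u (v - 1) a₁ az a₂ aw a₁ ?_ ?_ <;>
    (unfold E; omega)

/-- Arcs between any two of the three parts. -/
theorem triples {u v i₁ j₁ i₂ j₂ i₃ j₃ w z : ℕ} (huv : u < v) (hv : v < n)
    (a₁ : i₁ < n ∧ π i₁ = j₁) (a₂ : i₂ < n ∧ π i₂ = j₂) (a₃ : i₃ < n ∧ π i₃ = j₃)
    (aw : u < n ∧ π u = w) (az : z < n ∧ π z = u)
    (h₁ : (i₁ < u ∧ u < j₁ ∧ j₁ < v) ∨ (u < i₁ ∧ i₁ < v ∧ j₁ < u))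
    (h₂ : (u < i₂ ∧ i₂ < v ∧ v < j₂) ∨ (v < i₂ ∧ u < j₂ ∧ j₂ < v))
    (h₃ : (i₃ < u ∧ v < j₃) ∨ (v < i₃ ∧ j₃ < u)) : Conn n π (false, u, v) (true, u, v) := by
  rcases h₁ with h₁ | h₁ <;> rcases h₂ with h₂ | h₂ <;> rcases h₃ with h₃ | h₃
  · -- LM, MR, LR
    refine path3 (u - 1) v u (v + 1) a₁ a₃ a₂ ?_
    unfold E; omega
  · -- LM, MR, RL
    by_cases c1 : w < u
    · refine path3 u (v - 1) (u - 1) (v - 1) a₂ aw a₃ ?_
      unfold E; omega
    by_cases c2 : v ≤ w
    · refine path3 u (v - 1) (u + 1) v a₂ aw a₁ ?_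
      unfold E; omega
    refine path5 (u - 1) v (u - 1) (v + 1) (u - 1) (v + 1) u (v + 1) a₁ a₂ aw a₁ a₂ ?_ ?_ <;>
      (unfold E; omega)
  · -- LM, RM, LR
    refine path3 u (v + 1) (u + 1) (v + 1) a₂ a₁ a₃ ?_
    unfold E; omega
  · -- LM, RM, RL
    refine path3 (u - 1) v (u - 1) (v - 1) a₁ a₂ a₃ ?_
    unfold E; omega
  · -- ML, MR, LR
    refine path3 (u - 1) (v - 1) (u - 1) v a₃ a₂ a₁ ?_
    unfold E; omega
  · -- ML, MR, RL
    refine path3 (u + 1) (v + 1) u (v + 1) a₃ a₁ a₂ ?_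
    unfold E; omega
  · -- ML, RM, LR
    by_cases c1 : z < u
    · refine path3 (u - 1) (v - 1) u (v - 1) a₃ az a₂ ?_
      unfold E; omega
    by_cases c2 : v ≤ z
    · refine path3 (u + 1) v u (v - 1) a₁ az a₂ ?_
      unfold E; omega
    refine path5 u (v + 1) (u - 1) (v + 1) (u - 1) (v + 1) (u - 1) v a₂ a₁ az a₂ a₁ ?_ ?_ <;>
      (unfold E; omega)
  · -- ML, RM, RL
    refine path3 u (v + 1) (u - 1) v a₂ a₃ a₁ ?_
    unfold E; omega

/-- Translations, when the middle part is small. -/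
theorem small {u v i₁ j₁ i₂ j₂ w : ℕ} (huv : u < v) (hv : v < n) (hm : v ≤ u + 4)
    (a₁ : i₁ < n ∧ π i₁ = j₁) (a₂ : i₂ < n ∧ π i₂ = j₂) (aw : u < n ∧ π u = w)
    (h₁ : i₁ + 5 ≤ u ∧ v < j₁) (h₂ : v < i₂ ∧ j₂ + 5 ≤ u) :
    Conn n π (false, u, v) (true, u, v) := by
  by_cases c1 : w ≤ u
  · refine path3 (u + 1) (v + 1) (u + 1) (v + 1) a₂ aw a₁ ?_
    unfold E; omega
  have key : ∀ t : ℕ, t ≤ v - u + 1 → ∃ b : Bool, Conn n π (false, u, v) (b, u - t, v - t) ∧
      Conn n π (true, u, v) (!b, u - t, v - t) := by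
    intro t
    induction t with
    | zero => intro _; exact ⟨false, Relation.ReflTransGen.refl, Relation.ReflTransGen.refl⟩
    | succ t ih =>
      intro ht
      obtain ⟨b, hb1, hb2⟩ := ih (by omega)
      have e1 : Conn n π (false, u - t, v - t) (true, u - (t + 1), v - (t + 1)) := by
        refine edge a₁.1 a₁.2 ?_ ?_ <;> (unfold E; omega)
      have e2 : Conn n π (false, u - (t + 1), v - (t + 1)) (true, u - t, v - t) := by
        refine edge a₂.1 a₂.2 ?_ ?_ <;> (unfold E; omega)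
      cases b with
      | false => exact ⟨true, hb1.trans e1, hb2.trans e2.symm⟩
      | true => exact ⟨false, hb1.trans e2.symm, hb2.trans e1⟩
  obtain ⟨b, hb1, hb2⟩ := key (v - u + 1) le_rfl
  have e : Conn n π (false, u - (v - u + 1), v - (v - u + 1))
      (true, u - (v - u + 1), v - (v - u + 1)) := by
    refine edge aw.1 aw.2 ?_ ?_ <;> (unfold E; omega)
  cases b with
  | false => exact hb1.trans (e.trans hb2.symm)
  | true => exact hb1.trans (e.symm.trans hb2.symm)

theorem card_le (hinj : ∀ i < n, ∀ j < n, π i = π j → i = j) (A B : Finset ℕ)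
    (hA : ∀ i ∈ A, i < n) (h : ∀ i ∈ A, π i ∈ B) : A.card ≤ B.card :=
  Finset.card_le_card_of_injOn π h fun _ hi _ hj e => hinj _ (hA _ hi) _ (hA _ hj) e

/-- The positions `u < v` cut `{0, ..., n - 1}` in three parts, and `ρ` is inverse to `π`. -/
theorem conn_main (hn : 40 ≤ n) {ρ : ℕ → ℕ} (hπ : ∀ i < n, π i < n) (hρ : ∀ j < n, ρ j < n)
    (h1 : ∀ i < n, ρ (π i) = i) (h2 : ∀ j < n, π (ρ j) = j) {u v : ℕ} (huv : u < v) (hv : v < n) :
    Conn n π (false, u, v) (true, u, v) := by
  have hu : u < n := huv.trans hv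
  have injπ : ∀ i < n, ∀ j < n, π i = π j → i = j := fun i hi j hj e => by
    rw [← h1 i hi, ← h1 j hj, e]
  have injρ : ∀ i < n, ∀ j < n, ρ i = ρ j → i = j := fun i hi j hj e => by
    rw [← h2 i hi, ← h2 j hj, e]
  have arc : ∀ i < n, i < n ∧ π i = π i := fun i hi => ⟨hi, rfl⟩
  have arc' : ∀ j < n, ρ j < n ∧ π (ρ j) = j := fun j hj => ⟨hρ j hj, h2 j hj⟩
  -- an arc inside one part
  by_cases hbad : ∃ i < n, (i < u ∧ π i < u) ∨ (u < i ∧ i < v ∧ u < π i ∧ π i < v) ∨
      (v < i ∧ v < π i)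
  · obtain ⟨i, hi, h⟩ := hbad
    have h3 := hπ i hi
    refine edge (arc i hi).1 (arc i hi).2 ?_ ?_ <;> (unfold E; omega)
  push Not at hbad
  have bad : ∀ i < n, ¬ (i < u ∧ π i < u) ∧ ¬ (u < i ∧ i < v ∧ u < π i ∧ π i < v) ∧
      ¬ (v < i ∧ v < π i) := by
    intro i hi
    obtain ⟨h3, h4, h5⟩ := hbad i hi
    refine ⟨fun h => ?_, fun h => ?_, fun h => ?_⟩
    · have := h3 h.1; omega
    · have := h4 h.1 h.2.1 h.2.2.1; omega
    · have := h5 h.1; omega
  -- the right part
  have hR : n - 1 - v ≤ v + 1 := by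
    have h3 := card_le injπ (Finset.Ioo v n) (Finset.range (v + 1))
      (fun i hi => (Finset.mem_Ioo.1 hi).2) (fun i hi => by
        have h4 := Finset.mem_Ioo.1 hi
        have h5 := bad i h4.2
        rw [Finset.mem_range]; omega)
    simp only [Nat.card_Ioo, Finset.card_range] at h3
    omega
  by_cases hm : v ≤ u + 4
  · -- small middle part
    have hu' : 10 ≤ u := by omega
    have e1 : ∃ i, i + 5 ≤ u ∧ v < π i := by
      by_contra hcon
      push Not at hcon
      have h3 := card_le injπ (Finset.range (u - 4)) (Finset.Icc u v)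
        (fun i hi => by have := Finset.mem_range.1 hi; omega) (fun i hi => by
          have h4 := Finset.mem_range.1 hi
          have h5 := bad i (by omega)
          have h6 := hcon i (by omega)
          rw [Finset.mem_Icc]; omega)
      simp only [Nat.card_Icc, Finset.card_range] at h3
      omega
    have e2 : ∃ j, j + 5 ≤ u ∧ v < ρ j := by
      by_contra hcon
      push Not at hcon
      have h3 := card_le injρ (Finset.range (u - 4)) (Finset.Icc u v)
        (fun i hi => by have := Finset.mem_range.1 hi; omega) (fun i hi => by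
          have h4 := Finset.mem_range.1 hi
          have h7 := hρ i (by omega)
          have h5 := bad (ρ i) h7
          rw [h2 i (by omega)] at h5
          have h6 := hcon i (by omega)
          rw [Finset.mem_Icc]; omega)
      simp only [Nat.card_Icc, Finset.card_range] at h3
      omega
    obtain ⟨i₁, h3, h4⟩ := e1
    obtain ⟨j₂, h5, h6⟩ := e2
    exact small huv hv hm (arc i₁ (by omega)) (arc' j₂ (by omega)) (arc u hu) ⟨h3, h4⟩ ⟨h6, h5⟩
  by_cases cLR : ∃ i < n, (i < u ∧ v < π i) ∨ (v < i ∧ π i < u)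
  · by_cases cMR : ∃ i < n, (u < i ∧ i < v ∧ v < π i) ∨ (v < i ∧ u < π i ∧ π i < v)
    · by_cases cLM : ∃ i < n, (i < u ∧ u < π i ∧ π i < v) ∨ (u < i ∧ i < v ∧ π i < u)
      · obtain ⟨i₁, hi₁, g₁⟩ := cLM
        obtain ⟨i₂, hi₂, g₂⟩ := cMR
        obtain ⟨i₃, hi₃, g₃⟩ := cLR
        exact triples huv hv (arc i₁ hi₁) (arc i₂ hi₂) (arc i₃ hi₃) (arc u hu) (arc' u hu) g₁ g₂ g₃
      · -- no arcs between the left and the middle part
        push Not at cLM
        have noLM : ∀ i < n, ¬ (i < u ∧ u < π i ∧ π i < v) ∧ ¬ (u < i ∧ i < v ∧ π i < u) := by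
          intro i hi
          have h3 := cLM i hi
          refine ⟨fun h => ?_, fun h => ?_⟩
          · have := h3.1 h.1 h.2.1; omega
          · have := h3.2 h.1 h.2.1; omega
        have e1 : ∃ i, u + 1 < i ∧ i < v ∧ v < π i := by
          by_contra hcon
          push Not at hcon
          have h3 := card_le injπ {u + 2, u + 3, u + 4} {u, v}
            (fun i hi => by simp at hi; omega) (fun i hi => by
              simp only [Finset.mem_insert, Finset.mem_singleton] at hi ⊢
              have h5 := bad i (by omega)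
              have h6 := noLM i (by omega)
              have h7 := hcon i (by omega) (by omega)
              omega)
          rw [Finset.card_pair (by omega)] at h3
          rw [Finset.card_insert_of_notMem (by simp), Finset.card_pair (by omega)] at h3
          omega
        have e2 : ∃ j, u < j ∧ j < v ∧ v < ρ j := by
          by_contra hcon
          push Not at hcon
          have h3 := card_le injρ {u + 2, u + 3, u + 4} {u, v}
            (fun i hi => by simp at hi; omega) (fun i hi => by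
              simp only [Finset.mem_insert, Finset.mem_singleton] at hi ⊢
              have hi' : i < n := by omega
              have h5 := bad (ρ i) (hρ i hi')
              have h6 := noLM (ρ i) (hρ i hi')
              rw [h2 i hi'] at h5 h6
              have h7 := hcon i (by omega) (by omega)
              omega)
          rw [Finset.card_pair (by omega)] at h3
          rw [Finset.card_insert_of_notMem (by simp), Finset.card_pair (by omega)] at h3
          omega
        obtain ⟨i₂, g₂⟩ := e1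
        obtain ⟨j₁, g₁⟩ := e2
        exact cycRM huv hv (arc' j₁ (by omega)) (arc i₂ (by omega)) (arc v hv) (arc' v hv)
          ⟨g₁.2.2, g₁.1, g₁.2.1⟩ ⟨by omega, g₂.2.1, g₂.2.2, by omega⟩
    · -- no arcs between the middle and the right part
      push Not at cMR
      have noMR : ∀ i < n, ¬ (u < i ∧ i < v ∧ v < π i) ∧ ¬ (v < i ∧ u < π i ∧ π i < v) := by
        intro i hi
        have h3 := cMR i hi
        refine ⟨fun h => ?_, fun h => ?_⟩
        · have := h3.1 h.1 h.2.1; omega
        · have := h3.2 h.1 h.2.1; omega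
      have e1 : ∃ i, u < i ∧ i + 1 < v ∧ π i < u := by
        by_contra hcon
        push Not at hcon
        have h3 := card_le injπ {u + 1, u + 2, u + 3} {u, v}
          (fun i hi => by simp at hi; omega) (fun i hi => by
            simp only [Finset.mem_insert, Finset.mem_singleton] at hi ⊢
            have h5 := bad i (by omega)
            have h6 := noMR i (by omega)
            have h7 := hcon i (by omega) (by omega)
            omega)
        rw [Finset.card_pair (by omega)] at h3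
        rw [Finset.card_insert_of_notMem (by simp), Finset.card_pair (by omega)] at h3
        omega
      have e2 : ∃ j, u < j ∧ j < v ∧ ρ j < u := by
        by_contra hcon
        push Not at hcon
        have h3 := card_le injρ {u + 1, u + 2, u + 3} {u, v}
          (fun i hi => by simp at hi; omega) (fun i hi => by
            simp only [Finset.mem_insert, Finset.mem_singleton] at hi ⊢
            have hi' : i < n := by omega
            have h5 := bad (ρ i) (hρ i hi')
            have h6 := noMR (ρ i) (hρ i hi')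
            rw [h2 i hi'] at h5 h6
            have h7 := hcon i (by omega) (by omega)
            omega)
        rw [Finset.card_pair (by omega)] at h3
        rw [Finset.card_insert_of_notMem (by simp), Finset.card_pair (by omega)] at h3
        omega
      obtain ⟨i₂, g₂⟩ := e1
      obtain ⟨j₁, g₁⟩ := e2
      exact cycLM huv hv (arc' j₁ (by omega)) (arc i₂ (by omega)) (arc u hu) (arc' u hu)
        ⟨g₁.2.2, g₁.1, g₁.2.1⟩ ⟨g₂.1, by omega, g₂.2.2, by omega⟩
  · -- no arcs between the left and the right part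
    push Not at cLR
    have noLR : ∀ i < n, ¬ (i < u ∧ v < π i) ∧ ¬ (v < i ∧ π i < u) := by
      intro i hi
      have h3 := cLR i hi
      refine ⟨fun h => ?_, fun h => ?_⟩
      · have := h3.1 h.1; omega
      · have := h3.2 h.1; omega
    by_cases hl : 4 ≤ u
    · have e1 : ∃ i, i < u ∧ u < π i ∧ π i < v := by
        by_contra hcon
        push Not at hcon
        have h3 := card_le injπ {0, 1, 2} {u, v}
          (fun i hi => by simp at hi; omega) (fun i hi => by
            simp only [Finset.mem_insert, Finset.mem_singleton] at hi ⊢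
            have h5 := bad i (by omega)
            have h6 := noLR i (by omega)
            have h7 := hcon i (by omega)
            omega)
        rw [Finset.card_pair (by omega)] at h3
        rw [Finset.card_insert_of_notMem (by simp), Finset.card_pair (by omega)] at h3
        omega
      have e2 : ∃ j, j < u ∧ u < ρ j ∧ ρ j + 1 < v := by
        by_contra hcon
        push Not at hcon
        have h3 := card_le injρ {0, 1, 2, 3} {u, v - 1, v}
          (fun i hi => by simp at hi; omega) (fun i hi => by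
            simp only [Finset.mem_insert, Finset.mem_singleton] at hi ⊢
            have hi' : i < n := by omega
            have h5 := bad (ρ i) (hρ i hi')
            have h6 := noLR (ρ i) (hρ i hi')
            rw [h2 i hi'] at h5 h6
            have h7 := hcon i (by omega)
            omega)
        have h4 : ({u, v - 1, v} : Finset ℕ).card ≤ 3 := Finset.card_le_three
        have h5 : ({0, 1, 2, 3} : Finset ℕ).card = 4 := by decide
        omega
      obtain ⟨i₁, g₁⟩ := e1
      obtain ⟨j₂, g₂⟩ := e2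
      exact cycLM huv hv (arc i₁ (by omega)) (arc' j₂ (by omega)) (arc u hu) (arc' u hu)
        g₁ ⟨g₂.2.1, by omega, g₂.1, by omega⟩
    by_cases hr : v + 5 ≤ n
    · have e1 : ∃ j, v < j ∧ j < n ∧ u < π j ∧ π j < v := by
        by_contra hcon
        push Not at hcon
        have h3 := card_le injπ {v + 1, v + 2, v + 3} {u, v}
          (fun i hi => by simp at hi; omega) (fun i hi => by
            simp only [Finset.mem_insert, Finset.mem_singleton] at hi ⊢
            have hi' : i < n := by omega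
            have h5 := bad i hi'
            have h6 := noLR i hi'
            have h7 := hcon i (by omega) hi'
            have h8 := hπ i hi'
            omega)
        rw [Finset.card_pair (by omega)] at h3
        rw [Finset.card_insert_of_notMem (by simp), Finset.card_pair (by omega)] at h3
        omega
      have e2 : ∃ j, v < j ∧ j < n ∧ u + 1 < ρ j ∧ ρ j < v := by
        by_contra hcon
        push Not at hcon
        have h3 := card_le injρ {v + 1, v + 2, v + 3, v + 4} {u, u + 1, v}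
          (fun i hi => by simp at hi; omega) (fun i hi => by
            simp only [Finset.mem_insert, Finset.mem_singleton] at hi ⊢
            have hi' : i < n := by omega
            have h5 := bad (ρ i) (hρ i hi')
            have h6 := noLR (ρ i) (hρ i hi')
            rw [h2 i hi'] at h5 h6
            have h7 := hcon i (by omega) hi'
            have h8 := hρ i hi'
            omega)
        have h4 : ({u, u + 1, v} : Finset ℕ).card ≤ 3 := Finset.card_le_three
        have h5 : ({v + 1, v + 2, v + 3, v + 4} : Finset ℕ).card = 4 := by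
          rw [Finset.card_insert_of_notMem (by simp), Finset.card_insert_of_notMem (by simp),
            Finset.card_pair (by omega)]
        omega
      obtain ⟨i₁, g₁⟩ := e1
      obtain ⟨j₂, g₂⟩ := e2
      exact cycRM huv hv (arc i₁ g₁.2.1) (arc' j₂ g₂.2.1) (arc v hv) (arc' v hv)
        ⟨g₁.1, g₁.2.2⟩ ⟨by omega, g₂.2.2.2, g₂.1, by omega⟩
    · exfalso
      have h3 := card_le injπ (Finset.Ioo u v) (Finset.range (u + 1) ∪ Finset.Ico v n)
        (fun i hi => by have := Finset.mem_Ioo.1 hi; omega) (fun i hi => by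
          have h4 := Finset.mem_Ioo.1 hi
          have h5 := bad i (by omega)
          have h6 := hπ i (by omega)
          rw [Finset.mem_union, Finset.mem_range, Finset.mem_Ico]; omega)
      have h4 := Finset.card_union_le (Finset.range (u + 1)) (Finset.Ico v n)
      simp only [Nat.card_Ioo, Nat.card_Ico, Finset.card_range] at h3 h4
      omega

end Pool.Agent.V11285.OI
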