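import Pool.Agent.V11285.OI1

set_option autoImplicit false
set_option linter.all false

namespace Pool.Agent.V11285.OI

theorem card_lt {n : ℕ} (σ : Equiv.Perm (Fin n)) (c : Fin n) :
    (Finset.univ.filter (fun e : Fin n => σ e < c)).card = c.val := by
  have h : (Finset.univ.filter (fun e : Fin n => σ e < c)) =
      (Finset.Iio c).map σ.symm.toEmbedding := by
    ext e
    simp only [Finset.mem_filter, Finset.mem_univ, true_and, Finset.mem_map, Finset.mem_Iio,
      Equiv.coe_toEmbedding]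
    constructor
    · intro h
      exact ⟨σ e, h, by simp⟩
    · rintro ⟨f, hf, rfl⟩
      simpa using hf
  rw [h, Finset.card_map, Fin.card_Iio]

theorem card_ne_lt {n : ℕ} (σ : Equiv.Perm (Fin n)) (z a : Fin n) :
    (Finset.univ.filter (fun e : Fin n => e ≠ z ∧ σ e < σ a)).card =
      (σ a).val - (if (σ z).val < (σ a).val then 1 else 0) := by
  have h : (Finset.univ.filter (fun e : Fin n => e ≠ z ∧ σ e < σ a)) =
      (Finset.univ.filter (fun e : Fin n => σ e < σ a)).erase z := by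
    ext e
    simp [and_comm]
  rw [h]
  by_cases hz : (σ z).val < (σ a).val
  · rw [if_pos hz, Finset.card_erase_of_mem (by simpa using hz), card_lt]
  · rw [if_neg hz, Finset.erase_eq_of_notMem (by simpa using hz), card_lt, Nat.sub_zero]

theorem R_iff {n : ℕ} {σ τ : Equiv.Perm (Fin n)} {R : Fin n → Fin n → Fin n → Prop}
    (hR : ∀ z a b : Fin n, R z a b ↔
      (a ≠ z ∧ b ≠ z ∧
        (Finset.univ.filter (fun e : Fin n => e ≠ z ∧ σ e < σ a)).card =
        (Finset.univ.filter (fun e : Fin n => e ≠ z ∧ τ e < τ b)).card)) (z a b : Fin n) :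
    R z a b ↔ E (σ z).val (τ z).val (σ a).val (τ b).val := by
  rw [hR, card_ne_lt, card_ne_lt]
  have h1 : a ≠ z ↔ (σ a).val ≠ (σ z).val := by
    rw [ne_eq, ne_eq, Fin.val_inj, σ.injective.eq_iff]
  have h2 : b ≠ z ↔ (τ b).val ≠ (τ z).val := by
    rw [ne_eq, ne_eq, Fin.val_inj, τ.injective.eq_iff]
  rw [h1, h2]
  unfold E
  split_ifs <;> omega

/-- The states of the alternating words. -/
def Good {n : ℕ} (σ τ : Equiv.Perm (Fin n)) (R : Fin n → Fin n → Fin n → Prop) (x y : Fin n)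
    (st : Bool × ℕ × ℕ) : Prop :=
  ∃ (L : ℕ) (s p q : ℕ → Fin n), p 0 = x ∧ q 0 = y ∧
    ((st.1 = false ∧ Even L ∧ (σ (p L)).val = st.2.1 ∧ (σ (q L)).val = st.2.2) ∨
     (st.1 = true ∧ Odd L ∧ (τ (p L)).val = st.2.1 ∧ (τ (q L)).val = st.2.2)) ∧
    ∀ i < L, (Even i → R (s i) (p i) (p (i + 1)) ∧ R (s i) (q i) (q (i + 1))) ∧
      (Odd i → R (s i) (p (i + 1)) (p i) ∧ R (s i) (q (i + 1)) (q i))

theorem E_lt {n i j a c : ℕ} (hi : i < n) (hj : j < n) (h : E i j a c) : a < n ↔ c < n := by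
  unfold E at h
  omega

theorem good_of_conn {n : ℕ} {σ τ : Equiv.Perm (Fin n)} {R : Fin n → Fin n → Fin n → Prop}
    (hR : ∀ z a b : Fin n, R z a b ↔ E (σ z).val (τ z).val (σ a).val (τ b).val) {π : ℕ → ℕ}
    (hπ : ∀ z : Fin n, π (σ z).val = (τ z).val) (x y : Fin n) {st : Bool × ℕ × ℕ}
    (h : Conn n π (false, (σ x).val, (σ y).val) st) : Good σ τ R x y st := by
  unfold Conn at h
  induction h with
  | refl =>
    refine ⟨0, fun _ => x, fun _ => x, fun _ => y, rfl, rfl, Or.inl ⟨rfl, Even.zero, rfl, rfl⟩,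
      fun i hi => absurd hi (Nat.not_lt_zero _)⟩
  | @tail st₁ st₂ _ hS ih =>
    obtain ⟨L, s, p, q, hp, hq, hst, hstep⟩ := ih
    obtain ⟨i, hi, a, b, c, d, h1, h2, h3⟩ := hS
    obtain ⟨z, hz1⟩ : ∃ z : Fin n, (σ z).val = i := ⟨σ.symm ⟨i, hi⟩, by simp⟩
    have hz2 : π i = (τ z).val := by rw [← hπ z, hz1]
    rw [hz2] at h1 h2
    have hj : (τ z).val < n := (τ z).isLt
    rcases h3 with ⟨rfl, rfl⟩ | ⟨rfl, rfl⟩
    · rcases hst with ⟨-, hL, e1, e2⟩ | ⟨h0, -⟩
      · simp only at e1 e2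
        have hc : c < n := (E_lt hi hj h1).1 (e1 ▸ (σ (p L)).isLt)
        have hd : d < n := (E_lt hi hj h2).1 (e2 ▸ (σ (q L)).isLt)
        refine ⟨L + 1, fun k => if k < L then s k else z,
          fun k => if k ≤ L then p k else τ.symm ⟨c, hc⟩,
          fun k => if k ≤ L then q k else τ.symm ⟨d, hd⟩, by simp [hp], by simp [hq],
          Or.inr ⟨rfl, hL.add_one, by simp, by simp⟩, ?_⟩
        intro k hk
        rcases Nat.lt_succ_iff_lt_or_eq.1 hk with hk | rfl
        · have hk1 : k ≤ L := hk.le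
          have hk2 : k + 1 ≤ L := hk
          simp only [if_pos hk, if_pos hk1, if_pos hk2]
          exact hstep k hk
        · have hk2 : ¬ (k + 1 ≤ k) := by omega
          simp only [lt_irrefl, if_false, le_refl, if_true, if_neg hk2]
          refine ⟨fun _ => ⟨?_, ?_⟩, fun ho => absurd hL (Nat.not_even_iff_odd.2 ho)⟩
          · rw [hR, Equiv.apply_symm_apply, hz1, e1]; exact h1
          · rw [hR, Equiv.apply_symm_apply, hz1, e2]; exact h2
      · exact absurd h0 (by simp)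
    · rcases hst with ⟨h0, -⟩ | ⟨-, hL, e1, e2⟩
      · exact absurd h0 (by simp)
      · simp only at e1 e2
        have hc : a < n := (E_lt hi hj h1).2 (e1 ▸ (τ (p L)).isLt)
        have hd : b < n := (E_lt hi hj h2).2 (e2 ▸ (τ (q L)).isLt)
        refine ⟨L + 1, fun k => if k < L then s k else z,
          fun k => if k ≤ L then p k else σ.symm ⟨a, hc⟩,
          fun k => if k ≤ L then q k else σ.symm ⟨b, hd⟩, by simp [hp], by simp [hq],
          Or.inl ⟨rfl, hL.add_one, by simp, by simp⟩, ?_⟩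
        intro k hk
        rcases Nat.lt_succ_iff_lt_or_eq.1 hk with hk | rfl
        · have hk1 : k ≤ L := hk.le
          have hk2 : k + 1 ≤ L := hk
          simp only [if_pos hk, if_pos hk1, if_pos hk2]
          exact hstep k hk
        · have hk2 : ¬ (k + 1 ≤ k) := by omega
          simp only [lt_irrefl, if_false, le_refl, if_true, if_neg hk2]
          refine ⟨fun he => absurd he (Nat.not_even_iff_odd.2 hL), fun _ => ⟨?_, ?_⟩⟩
          · rw [hR, Equiv.apply_symm_apply, hz1, e1]; exact h1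
          · rw [hR, Equiv.apply_symm_apply, hz1, e2]; exact h2

theorem Conn.swap {n : ℕ} {π : ℕ → ℕ} {b b' : Bool} {x y x' y' : ℕ}
    (h : Conn n π (b, x, y) (b', x', y')) : Conn n π (b, y, x) (b', y', x') := by
  have key : ∀ s t : Bool × ℕ × ℕ, Conn n π s t →
      Conn n π (s.1, s.2.2, s.2.1) (t.1, t.2.2, t.2.1) := by
    intro s t h
    unfold Conn at h
    induction h with
    | refl => exact Relation.ReflTransGen.refl
    | tail _ hS ih =>
      refine ih.tail ?_
      obtain ⟨i, hi, a, b, c, d, h1, h2, h3⟩ := hS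
      refine ⟨i, hi, b, a, d, c, h2, h1, ?_⟩
      rcases h3 with ⟨rfl, rfl⟩ | ⟨rfl, rfl⟩
      · exact Or.inl ⟨rfl, rfl⟩
      · exact Or.inr ⟨rfl, rfl⟩
  exact key _ _ h

theorem conn_perm {n : ℕ} (hn : 40 ≤ n) (σ τ : Equiv.Perm (Fin n)) :
    ∃ π : ℕ → ℕ, (∀ z : Fin n, π (σ z).val = (τ z).val) ∧
      ∀ x y : Fin n, x ≠ y → Conn n π (false, (σ x).val, (σ y).val) (true, (σ x).val, (σ y).val) := by
  refine ⟨fun i => if h : i < n then (τ (σ.symm ⟨i, h⟩)).val else 0, fun z => by simp, ?_⟩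
  set π : ℕ → ℕ := fun i => if h : i < n then (τ (σ.symm ⟨i, h⟩)).val else 0 with hπ
  set ρ : ℕ → ℕ := fun j => if h : j < n then (σ (τ.symm ⟨j, h⟩)).val else 0 with hρ
  have g1 : ∀ i < n, π i < n := fun i hi => by simp [hπ, hi]
  have g2 : ∀ i < n, ρ i < n := fun i hi => by simp [hρ, hi]
  have g3 : ∀ i < n, ρ (π i) = i := fun i hi => by simp [hρ, hπ, hi]
  have g4 : ∀ i < n, π (ρ i) = i := fun i hi => by simp [hρ, hπ, hi]
  intro x y hxy
  have hne : (σ x).val ≠ (σ y).val := fun h => hxy (σ.injective (Fin.ext h))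
  rcases Nat.lt_or_gt_of_ne hne with h | h
  · exact conn_main hn g1 g2 g3 g4 h (σ y).isLt
  · exact (conn_main hn g1 g2 g3 g4 h (σ x).isLt).swap

end Pool.Agent.V11285.OI
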