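import Mathlib

/-! Borel-Cantelli for triples of windows around `α v_n`, `β v_n`, `γ v_n`. -/

set_option autoImplicit false

open Finset Filter Topology MeasureTheory

namespace Pool.Agent.V11285.W3

open scoped ENNReal NNReal

/-- one interval -/
theorem vol_one (N : ℝ) {v L : ℝ} (hv : 0 < v) :
    volume {α : ℝ | |N - α * v| ≤ L} ≤ ENNReal.ofReal (2 * (L / v)) := by
  have hsub : {α : ℝ | |N - α * v| ≤ L} ⊆ Metric.closedBall (N / v) (L / v) := by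
    intro α hw
    rw [Metric.mem_closedBall, Real.dist_eq]
    have h1 : α - N / v = -(N - α * v) / v := by
      field_simp
      ring
    rw [h1, abs_div, abs_neg, abs_of_pos hv]
    exact (div_le_div_iff_of_pos_right hv).2 hw
  calc volume {α : ℝ | |N - α * v| ≤ L} ≤ volume (Metric.closedBall (N / v) (L / v)) := measure_mono hsub
    _ = ENNReal.ofReal (2 * (L / v)) := Real.volume_closedBall _ _

/-- one finite set, one index -/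
theorem vol_le (S : Set (ℕ × ℕ × ℕ)) (hS : S.Finite) {v L : ℝ} (hv : 0 < v) (hL : 0 ≤ L) :
    volume {p : ℝ × ℝ × ℝ | ∃ N ∈ S, |(N.1 : ℝ) - p.1 * v| ≤ L ∧ |(N.2.1 : ℝ) - p.2.1 * v| ≤ L ∧
      |(N.2.2 : ℝ) - p.2.2 * v| ≤ L} ≤ ENNReal.ofReal ((S.ncard : ℝ) * (2 * (L / v)) ^ 3) := by
  classical
  have hsub : {p : ℝ × ℝ × ℝ | ∃ N ∈ S, |(N.1 : ℝ) - p.1 * v| ≤ L ∧ |(N.2.1 : ℝ) - p.2.1 * v| ≤ L ∧
      |(N.2.2 : ℝ) - p.2.2 * v| ≤ L} ⊆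
      ⋃ N ∈ hS.toFinset, {α : ℝ | |(N.1 : ℝ) - α * v| ≤ L} ×ˢ
        ({α : ℝ | |(N.2.1 : ℝ) - α * v| ≤ L} ×ˢ {α : ℝ | |(N.2.2 : ℝ) - α * v| ≤ L}) := by
    rintro p ⟨N, hN, h1, h2, h3⟩
    rw [Set.mem_iUnion₂]
    exact ⟨N, by simpa using hN, h1, h2, h3⟩
  have h0 : 0 ≤ 2 * (L / v) := by positivity
  calc volume {p : ℝ × ℝ × ℝ | ∃ N ∈ S, |(N.1 : ℝ) - p.1 * v| ≤ L ∧ |(N.2.1 : ℝ) - p.2.1 * v| ≤ L ∧
      |(N.2.2 : ℝ) - p.2.2 * v| ≤ L}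
      ≤ volume (⋃ N ∈ hS.toFinset, {α : ℝ | |(N.1 : ℝ) - α * v| ≤ L} ×ˢ
        ({α : ℝ | |(N.2.1 : ℝ) - α * v| ≤ L} ×ˢ {α : ℝ | |(N.2.2 : ℝ) - α * v| ≤ L})) := measure_mono hsub
    _ ≤ ∑ N ∈ hS.toFinset, volume ({α : ℝ | |(N.1 : ℝ) - α * v| ≤ L} ×ˢ
        ({α : ℝ | |(N.2.1 : ℝ) - α * v| ≤ L} ×ˢ {α : ℝ | |(N.2.2 : ℝ) - α * v| ≤ L})) :=
        measure_biUnion_finset_le _ _
    _ ≤ ∑ N ∈ hS.toFinset, ENNReal.ofReal ((2 * (L / v)) ^ 3) := by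
        apply Finset.sum_le_sum
        intro N _
        rw [Measure.volume_eq_prod, Measure.prod_prod, Measure.volume_eq_prod, Measure.prod_prod]
        have e : ENNReal.ofReal ((2 * (L / v)) ^ 3) = ENNReal.ofReal (2 * (L / v)) *
            (ENNReal.ofReal (2 * (L / v)) * ENNReal.ofReal (2 * (L / v))) := by
          rw [← ENNReal.ofReal_mul h0, ← ENNReal.ofReal_mul h0]
          congr 1
          ring
        rw [e]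
        exact mul_le_mul' (vol_one _ hv) (mul_le_mul' (vol_one _ hv) (vol_one _ hv))
    _ = ENNReal.ofReal ((S.ncard : ℝ) * (2 * (L / v)) ^ 3) := by
        rw [Finset.sum_const, nsmul_eq_mul, ← ENNReal.ofReal_natCast, ← ENNReal.ofReal_mul (Nat.cast_nonneg _),
          Set.ncard_eq_toFinset_card _ hS]

/-- **Borel-Cantelli.** -/
theorem ae_triples (S : ℕ → Set (ℕ × ℕ × ℕ)) (hS : ∀ n, (S n).Finite) {v L : ℕ → ℝ} (hv : ∀ n, 1 ≤ v n)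
    (hL0 : ∀ n, 0 ≤ L n) {c : ℕ → ℝ} (hc : ∀ᶠ n in atTop, ((S n).ncard : ℝ) * (L n / v n) ^ 3 ≤ c n)
    (hsum : Summable c) :
    ∀ᵐ p : ℝ × ℝ × ℝ, ∃ n₀ : ℕ, ∀ n : ℕ, n₀ ≤ n → ∀ N ∈ S n, ¬ (|(N.1 : ℝ) - p.1 * v n| ≤ L n ∧
      |(N.2.1 : ℝ) - p.2.1 * v n| ≤ L n ∧ |(N.2.2 : ℝ) - p.2.2 * v n| ≤ L n) := by
  have hsum' : Summable (fun n => ((S n).ncard : ℝ) * (2 * (L n / v n)) ^ 3) := by
    refine Summable.of_norm_bounded_eventually_nat (hsum.mul_left 8) ?_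
    filter_upwards [hc] with n hn
    have := hv n
    have := hL0 n
    rw [Real.norm_eq_abs, abs_of_nonneg (by positivity)]
    have e : ((S n).ncard : ℝ) * (2 * (L n / v n)) ^ 3 = 8 * (((S n).ncard : ℝ) * (L n / v n) ^ 3) := by ring
    rw [e]
    linarith
  have h0 : volume {p : ℝ × ℝ × ℝ | ∃ᶠ n in atTop, p ∈ {p : ℝ × ℝ × ℝ | ∃ N ∈ S n,
      |(N.1 : ℝ) - p.1 * v n| ≤ L n ∧ |(N.2.1 : ℝ) - p.2.1 * v n| ≤ L n ∧ |(N.2.2 : ℝ) - p.2.2 * v n| ≤ L n}} = 0 := by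
    apply measure_setOfPred_frequently_eq_zero
    have h2 : ∑' n, volume {p : ℝ × ℝ × ℝ | ∃ N ∈ S n,
        |(N.1 : ℝ) - p.1 * v n| ≤ L n ∧ |(N.2.1 : ℝ) - p.2.1 * v n| ≤ L n ∧ |(N.2.2 : ℝ) - p.2.2 * v n| ≤ L n} ≤
        ∑' n, ENNReal.ofReal (((S n).ncard : ℝ) * (2 * (L n / v n)) ^ 3) :=
      ENNReal.tsum_le_tsum (fun n => vol_le (S n) (hS n) (lt_of_lt_of_le one_pos (hv n)) (hL0 n))
    exact ne_top_of_le_ne_top hsum'.tsum_ofReal_ne_top h2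
  have h3 : ∀ᵐ p : ℝ × ℝ × ℝ, ¬ ∃ᶠ n in atTop, p ∈ {p : ℝ × ℝ × ℝ | ∃ N ∈ S n,
      |(N.1 : ℝ) - p.1 * v n| ≤ L n ∧ |(N.2.1 : ℝ) - p.2.1 * v n| ≤ L n ∧ |(N.2.2 : ℝ) - p.2.2 * v n| ≤ L n} := by
    rw [ae_iff]
    simpa only [not_not] using h0
  filter_upwards [h3] with p hp
  rw [Filter.not_frequently] at hp
  obtain ⟨n₀, hn₀⟩ := hp.exists_forall_of_atTop
  exact ⟨n₀, fun n hn N hN hw => hn₀ n hn ⟨N, hN, hw⟩⟩

end Pool.Agent.V11285.W3
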